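import Mathlib

/-!
# Block SAA-KOE: Koenig's edge colouring theorem for bipartite graphs

Let `S = A ⊕ B` and let `M : S × S → ℕ` be the matrix with `M (inl a) (inr b) = 1` if `H a b` and `0` otherwise, `M (inr b) (inl a) = ` the same,
`M (inl a) (inl a) = d - deg a`, `M (inr b) (inr b) = d - deg b`, all other entries `0`. All row and column sums are `d`.
LEMMA (induction on `d`): a square matrix `M : S → S → ℕ` with all row and column sums `d` is a sum of `d` permutation matrices: there are
permutations `π_0, …, π_(d-1)` of `S` with `M x y = #{c < d : π_c x = y}`. For `d > 0` Hall's theorem gives a permutation `π` with `M x (π x) > 0`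
for all `x` (a set `T` of rows has total weight `d |T|`, all of it in the columns `N(T)`, whose total weight is `d |N(T)|`); subtract it.
Then put `κ a b = ` the (unique) `c < d` with `π_c (inl a) = inr b` if `H a b`, and `0` otherwise. If `κ a b = κ a b' = c` then
`inr b = π_c (inl a) = inr b'`; if `κ a b = κ a' b = c` then `π_c (inl a) = π_c (inl a')`, so `a = a'`. (Any other proof is fine.)
-/

set_option autoImplicit false
set_option linter.unusedSectionVars false

namespace Pool.Agent.Helper85.SAA

open Finset
open scoped Classical

private theorem hall_perm {S : Type} [Fintype S] {M : S → S → ℕ} {d : ℕ} (hr : ∀ x, ∑ y, M x y = d + 1)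
    (hc : ∀ y, ∑ x, M x y = d + 1) : ∃ f : Equiv.Perm S, ∀ x, 0 < M x (f x) := by
  have h1 : ∀ T : Finset S, T.card ≤ (univ.filter (fun y => ∃ x ∈ T, 0 < M x y)).card := by
    intro T
    have h2 : (d + 1) * T.card ≤ (d + 1) * (univ.filter (fun y => ∃ x ∈ T, 0 < M x y)).card := by
      calc (d + 1) * T.card = ∑ x ∈ T, ∑ y, M x y := by
            rw [Finset.sum_congr rfl (fun x _ => hr x), Finset.sum_const, smul_eq_mul, mul_comm]
        _ = ∑ x ∈ T, ∑ y ∈ univ.filter (fun y => ∃ x ∈ T, 0 < M x y), M x y := by
            refine Finset.sum_congr rfl fun x hx => ?_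
            symm
            apply Finset.sum_subset (Finset.subset_univ _)
            intro y _ hy
            by_contra hne
            exact hy (Finset.mem_filter.2 ⟨Finset.mem_univ _, x, hx, Nat.pos_of_ne_zero hne⟩)
        _ = ∑ y ∈ univ.filter (fun y => ∃ x ∈ T, 0 < M x y), ∑ x ∈ T, M x y := Finset.sum_comm
        _ ≤ ∑ y ∈ univ.filter (fun y => ∃ x ∈ T, 0 < M x y), (d + 1) := by
            refine Finset.sum_le_sum fun y _ => ?_
            rw [← hc y]
            exact Finset.sum_le_sum_of_subset (Finset.subset_univ _)
        _ = (d + 1) * (univ.filter (fun y => ∃ x ∈ T, 0 < M x y)).card := by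
            rw [Finset.sum_const, smul_eq_mul, mul_comm]
    exact Nat.le_of_mul_le_mul_left h2 (Nat.succ_pos d)
  rw [Fintype.all_card_le_filter_rel_iff_exists_injective (fun x y => 0 < M x y)] at h1
  obtain ⟨f, hf, hf2⟩ := h1
  exact ⟨Equiv.ofBijective f (Finite.injective_iff_bijective.1 hf), hf2⟩

private theorem decomp {S : Type} [Fintype S] (d : ℕ) : ∀ M : S → S → ℕ, (∀ x, ∑ y, M x y = d) →
    (∀ y, ∑ x, M x y = d) → ∃ π : ℕ → Equiv.Perm S, ∀ x y, M x y = ((range d).filter (fun c => π c x = y)).card := by
  induction d with
  | zero =>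
    intro M hr _
    refine ⟨fun _ => 1, fun x y => ?_⟩
    have h1 := hr x
    rw [Finset.sum_eq_zero_iff] at h1
    rw [h1 y (Finset.mem_univ _), Finset.range_zero, Finset.filter_empty, Finset.card_empty]
  | succ d ih =>
    intro M hr hc
    obtain ⟨f, hf⟩ := hall_perm hr hc
    have h1 : ∀ x y, M x y = (M x y - if f x = y then 1 else 0) + if f x = y then 1 else 0 := by
      intro x y
      split_ifs with h
      · have := hf x
        rw [h] at this
        omega
      · omega
    obtain ⟨π, hπ⟩ := ih (fun x y => M x y - if f x = y then 1 else 0) (by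
      intro x
      have h2 := hr x
      rw [Finset.sum_congr rfl (fun y _ => h1 x y), Finset.sum_add_distrib] at h2
      have h3 : ∑ y, (if f x = y then 1 else 0) = 1 := by simp
      rw [h3] at h2
      omega) (by
      intro y
      have h2 := hc y
      rw [Finset.sum_congr rfl (fun x _ => h1 x y), Finset.sum_add_distrib] at h2
      have h3 : ∑ x, (if f x = y then 1 else 0) = 1 := by
        rw [Finset.sum_eq_single (f.symm y)]
        · simp
        · intro b _ hb
          rw [if_neg]
          intro h4
          exact hb (by rw [← h4, Equiv.symm_apply_apply])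
        · intro h4
          exact absurd (Finset.mem_univ _) h4
      rw [h3] at h2
      omega)
    refine ⟨fun c => if c = d then f else π c, fun x y => ?_⟩
    rw [Finset.range_add_one, Finset.filter_insert, h1 x y]
    have h4 : ((range d).filter (fun c => (if c = d then f else π c) x = y)) =
        (range d).filter (fun c => π c x = y) := by
      apply Finset.filter_congr
      intro c hc
      rw [Finset.mem_range] at hc
      rw [if_neg (by omega)]
    have h5 := hπ x y
    simp only [if_true] at h5 ⊢
    rw [h4, h5]
    split_ifs with h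
    · rw [Finset.card_insert_of_notMem]
      simp
    · rfl

theorem koenig {A B : Type} [Fintype A] [Fintype B] (H : A → B → Prop) (d : ℕ)
    (hA : ∀ a, (univ.filter (fun b => H a b)).card ≤ d) (hB : ∀ b, (univ.filter (fun a => H a b)).card ≤ d) :
    ∃ κ : A → B → ℕ, (∀ a b, H a b → κ a b < d) ∧
      (∀ a b b', H a b → H a b' → κ a b = κ a b' → b = b') ∧
      (∀ a a' b, H a b → H a' b → κ a b = κ a' b → a = a') := by
  let M : A ⊕ B → A ⊕ B → ℕ := fun x y => match x, y with
    | Sum.inl a, Sum.inl a' => if a = a' then d - (univ.filter (fun b => H a b)).card else 0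
    | Sum.inl a, Sum.inr b => if H a b then 1 else 0
    | Sum.inr b, Sum.inl a => if H a b then 1 else 0
    | Sum.inr b, Sum.inr b' => if b = b' then d - (univ.filter (fun a => H a b)).card else 0
  have hr : ∀ x, ∑ y, M x y = d := by
    intro x
    rw [Fintype.sum_sum_type]
    rcases x with a | b
    · have h1 : ∑ a', M (Sum.inl a) (Sum.inl a') = d - (univ.filter (fun b => H a b)).card := by
        simp [M]
      have h2 : ∑ b, M (Sum.inl a) (Sum.inr b) = (univ.filter (fun b => H a b)).card := by
        simp [M]
      rw [h1, h2]
      have := hA a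
      omega
    · have h1 : ∑ b', M (Sum.inr b) (Sum.inr b') = d - (univ.filter (fun a => H a b)).card := by
        simp [M]
      have h2 : ∑ a, M (Sum.inr b) (Sum.inl a) = (univ.filter (fun a => H a b)).card := by
        simp [M]
      rw [h1, h2]
      have := hB b
      omega
  have hsym : ∀ x y, M x y = M y x := by
    intro x y
    rcases x with a | b <;> rcases y with a' | b'
    · simp only [M]
      by_cases h : a = a'
      · rw [h]
      · rw [if_neg h, if_neg (Ne.symm h)]
    · rfl
    · rfl
    · simp only [M]
      by_cases h : b = b'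
      · rw [h]
      · rw [if_neg h, if_neg (Ne.symm h)]
  have hc : ∀ y, ∑ x, M x y = d := by
    intro y
    rw [Finset.sum_congr rfl (fun x _ => hsym x y)]
    exact hr y
  obtain ⟨π, hπ⟩ := decomp d M hr hc
  have hex : ∀ a b, ∃ c, H a b → (c < d ∧ π c (Sum.inl a) = Sum.inr b) := by
    intro a b
    by_cases hab : H a b
    · have h1 := hπ (Sum.inl a) (Sum.inr b)
      have h2 : M (Sum.inl a) (Sum.inr b) = 1 := by
        simp [M, hab]
      rw [h2] at h1
      obtain ⟨c, hc⟩ := Finset.card_pos.1 (lt_of_lt_of_eq Nat.one_pos h1)
      simp only [Finset.mem_filter, Finset.mem_range] at hc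
      exact ⟨c, fun _ => hc⟩
    · exact ⟨0, fun h => absurd h hab⟩
  choose κ hκ using hex
  refine ⟨κ, ?_, ?_, ?_⟩
  · intro a b hab
    exact (hκ a b hab).1
  · intro a b b' hab hab' he
    have h1 := (hκ a b hab).2
    have h2 := (hκ a b' hab').2
    rw [he, h2] at h1
    exact (Sum.inr_injective h1).symm
  · intro a a' b hab hab' he
    have h1 := (hκ a b hab).2
    have h2 := (hκ a' b hab').2
    rw [he, ← h2] at h1
    exact Sum.inl_injective ((π _).injective h1)

end Pool.Agent.Helper85.SAA
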