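import Pool.Agent.Helper85.SAA.Star
import Pool.Agent.Helper85.SAA.Koenig

/-!
# Block SAA-ASM: the deterministic part

`b = |X t q|`, `M = |Equiv.Perm (X t q)|`. Number the permutations: `num : Equiv.Perm (X t q) ≃ Fin M`. For every part `i` and `k : Equiv.Perm (X t q)` apply `koenig` to
the relation `H a p := a.1 = i ∧ p.1 ≠ i ∧ Use σ w k a p` (`a : V t q h`, `p : Fin (t + 2) × Fin h × Fin (q + 1)`; degrees `≤ d` by `DegOk`; the degree of an `a`
with `a.1 ≠ i` is zero) and get `κ i k`. For `a, x` with `a.1 ≠ x.1`, `G.Adj a x` and `(w a x).2.1 = true` (`a` is the centre, `x` the leaf) let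
`K(a, x) = σ (fun y => w a (x.1, y, x.2.2))`, `p(a, x) = (x.1, x.2.2, (K(a, x) x.2.1).1)`; then `Use σ w K(a, x) a p(a, x)`, and the colour of the edge is
`(a.1 * M + num K(a, x)) * d + κ a.1 K(a, x) a p(a, x)`, which is `< (t + 2) * M * d`. Exactly one of `a, x` is the centre (hw2). An edge `{x, y}` inside a part gets
the colour `(t + 2) * M * d + ((n x + n y) % (b * h))` where `n v < b * h` is the number of `(v.2.1, v.2.2)` (`X t q × Fin h ≃ Fin (b * h)`).
Use `stronglyWoody_of_star` with `L x y := (x.1 ≠ y.1 ∧ (w x y).2.1 = true) ∨ x.1 = y.1`.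
(h2), `x.1 ≠ y.1`, `x` centre, `y` leaf, `{y, z}` of the same colour: then `{y, z}` is not inside a part (colour range); equality of the colours gives the same part
of the centre (`κ < d`, `num < M`), this is `x.1 ≠ y.1`, so `z` is the centre of `{y, z}`, `z.1 = x.1`, the same `K`, hence `p(x, y) = p(z, y)` (the block and the
position of `y`, and `K`) and the same `κ`, so `x = z`. Inside a part: `n x + n y ≡ n y + n z` mod `b h` gives `n x = n z`, `x = z`.
(h3), `x` centre of `{x, y}` and `{x, z}` with equal colours (both are then between parts): same `K`, same `κ`, so `p(x, y) = p(x, z)`: `y` and `z` lie in the same block,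
`hblk`. Inside a part the colours of `{x, y}`, `{x, z}` are equal only for `y = z`. If the parts of `y, z` are such that one edge is inside a part and the other is not,
the colours are different. The bound: all colours are `< (t + 2) * M * d + b * h`, `Helper83.SA.zeta_le`. (A colouring of `Sym2` can be defined from a
symmetric function with `Sym2.lift`, or choose for every edge.)
-/

set_option autoImplicit false
set_option linter.unusedSectionVars false

namespace Pool.Agent.Helper85.SAA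

open Finset
open scoped Classical

open Pool.Agent.Helper83.SA

private noncomputable def Kf88 {t q h : ℕ} (σ : (X t q → Al t q) → Equiv.Perm (X t q)) (w : V t q h → V t q h → Al t q)
    (a x : V t q h) : Equiv.Perm (X t q) := σ (fun y => w a (x.1, y, x.2.2))

private noncomputable def pf88 {t q h : ℕ} (σ : (X t q → Al t q) → Equiv.Perm (X t q)) (w : V t q h → V t q h → Al t q)
    (a x : V t q h) : Fin (t + 2) × Fin h × Fin (q + 1) := (x.1, x.2.2, (Kf88 σ w a x x.2.1).1)

private noncomputable def nf88 {t q h : ℕ} (v : V t q h) : ℕ := (Fintype.equivFin (X t q × Fin h) v.2 : ℕ)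

private noncomputable def nm88 {t q : ℕ} (k : Equiv.Perm (X t q)) : ℕ := (Fintype.equivFin (Equiv.Perm (X t q)) k : ℕ)

private noncomputable def col88 {t q h : ℕ} (σ : (X t q → Al t q) → Equiv.Perm (X t q)) (w : V t q h → V t q h → Al t q)
    (d : ℕ) (κ : Fin (t + 2) → Equiv.Perm (X t q) → V t q h → Fin (t + 2) × Fin h × Fin (q + 1) → ℕ)
    (a x : V t q h) : ℕ :=
  ((a.1 : ℕ) * Fintype.card (Equiv.Perm (X t q)) + nm88 (Kf88 σ w a x)) * d +
    κ a.1 (Kf88 σ w a x) a (pf88 σ w a x)

private theorem dec88 {n m d r s : ℕ} (hr : r < d) (hs : s < d) (h : n * d + r = m * d + s) : n = m ∧ r = s := by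
  have hd : 0 < d := by omega
  have h1 : (n * d + r) / d = n := by
    rw [mul_comm, Nat.mul_add_div hd, Nat.div_eq_of_lt hr, add_zero]
  have h2 : (m * d + s) / d = m := by
    rw [mul_comm, Nat.mul_add_div hd, Nat.div_eq_of_lt hs, add_zero]
  have h3 : n = m := by rw [← h1, ← h2, h]
  subst h3
  exact ⟨rfl, by omega⟩

private theorem nf_lt88 {t q h : ℕ} (v : V t q h) : nf88 v < Fintype.card (X t q) * h := by
  have h1 := (Fintype.equivFin (X t q × Fin h) v.2).2
  have h2 : Fintype.card (X t q × Fin h) = Fintype.card (X t q) * h := by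
    rw [Fintype.card_prod, Fintype.card_fin]
  exact lt_of_lt_of_eq h1 h2

private theorem nf_inj88 {t q h : ℕ} {u v : V t q h} (h1 : u.1 = v.1) (h2 : nf88 u = nf88 v) : u = v :=
  Prod.ext h1 ((Fintype.equivFin (X t q × Fin h)).injective (Fin.ext h2))

private theorem nm_lt88 {t q : ℕ} (k : Equiv.Perm (X t q)) : nm88 k < Fintype.card (Equiv.Perm (X t q)) :=
  (Fintype.equivFin (Equiv.Perm (X t q)) k).2

private theorem nm_inj88 {t q : ℕ} {k l : Equiv.Perm (X t q)} (h : nm88 k = nm88 l) : k = l :=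
  (Fintype.equivFin (Equiv.Perm (X t q))).injective (Fin.ext h)

private theorem mod_inj88 {a b c N : ℕ} (ha : a < N) (hb : b < N) (h : (a + c) % N = (b + c) % N) : a = b := by
  have h1 : a ≡ b [MOD N] := Nat.ModEq.add_right_cancel' c h
  have h2 := h1.eq_of_lt_of_lt ha hb
  exact h2

theorem assembly {t q h d : ℕ} (G : SimpleGraph (V t q h))
    (hblk : ∀ (i : Fin (t + 2)) (u : Fin h) (x x' : X t q), ¬ G.Adj (i, x, u) (i, x', u))
    (w : V t q h → V t q h → Al t q)
    (hw1 : ∀ a x : V t q h, a.1 ≠ x.1 → ((w a x).1 = true ↔ G.Adj a x))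
    (hw2 : ∀ a x : V t q h, a.1 ≠ x.1 → (w a x).2.1 = !(w x a).2.1)
    (σ : (X t q → Al t q) → Equiv.Perm (X t q)) (hd : DegOk σ w d) :
    zeta G ≤ (t + 2) * Fintype.card (Equiv.Perm (X t q)) * d + Fintype.card (X t q) * h := by
  set M := Fintype.card (Equiv.Perm (X t q)) with hM
  set N := Fintype.card (X t q) * h with hN
  have hk : ∀ (i : Fin (t + 2)) (k : Equiv.Perm (X t q)), ∃ κ : V t q h → Fin (t + 2) × Fin h × Fin (q + 1) → ℕ,
      (∀ a p, (a.1 = i ∧ p.1 ≠ i ∧ Use σ w k a p) → κ a p < d) ∧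
      (∀ a p p', (a.1 = i ∧ p.1 ≠ i ∧ Use σ w k a p) → (a.1 = i ∧ p'.1 ≠ i ∧ Use σ w k a p') → κ a p = κ a p' →
        p = p') ∧
      (∀ a a' p, (a.1 = i ∧ p.1 ≠ i ∧ Use σ w k a p) → (a'.1 = i ∧ p.1 ≠ i ∧ Use σ w k a' p) → κ a p = κ a' p →
        a = a') := by
    intro i k
    refine koenig (fun (a : V t q h) (p : Fin (t + 2) × Fin h × Fin (q + 1)) => a.1 = i ∧ p.1 ≠ i ∧ Use σ w k a p) d
      (fun a => ?_) (fun p => ?_)
    · refine le_trans (card_le_card fun p hp => ?_) (hd.1 k a)
      have hp := ((@Finset.mem_filter _ _ (_) _ _).mp hp).2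
      exact (@Finset.mem_filter _ _ (_) _ _).mpr ⟨Finset.mem_univ _, fun h1 => hp.2.1 (h1.trans hp.1), hp.2.2⟩
    · by_cases hp : p.1 = i
      · exact le_of_eq_of_le (Finset.card_eq_zero.mpr
          (Finset.eq_empty_of_forall_notMem fun a ha => ((@Finset.mem_filter _ _ (_) _ _).mp ha).2.2.1 hp))
          (Nat.zero_le d)
      · refine le_trans (card_le_card fun a ha => ?_) (hd.2 k i p hp)
        have ha := ((@Finset.mem_filter _ _ (_) _ _).mp ha).2
        exact (@Finset.mem_filter _ _ (_) _ _).mpr ⟨Finset.mem_univ _, ha.1, ha.2.2⟩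
  choose κ hκ1 hκ2 hκ3 using hk
  -- the relation holds for edges between parts
  have hrel : ∀ a x : V t q h, a.1 ≠ x.1 → G.Adj a x → (w a x).2.1 = true →
      a.1 = a.1 ∧ (pf88 σ w a x).1 ≠ a.1 ∧ Use σ w (Kf88 σ w a x) a (pf88 σ w a x) := by
    intro a x hne hadj hc
    refine ⟨rfl, fun h1 => hne h1.symm, rfl, x.2.1, ?_, ?_, rfl⟩
    · exact (hw1 a x hne).2 hadj
    · exact hc
  have hlt : ∀ a x : V t q h, a.1 ≠ x.1 → G.Adj a x → (w a x).2.1 = true →
      κ a.1 (Kf88 σ w a x) a (pf88 σ w a x) < d := by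
    intro a x hne hadj hc
    exact hκ1 _ _ _ _ (hrel a x hne hadj hc)
  have hcol_lt : ∀ a x : V t q h, a.1 ≠ x.1 → G.Adj a x → (w a x).2.1 = true →
      col88 σ w d κ a x < (t + 2) * M * d := by
    intro a x hne hadj hc
    have h1 := hlt a x hne hadj hc
    have h2 := nm_lt88 (Kf88 σ w a x)
    have h3 : (a.1 : ℕ) + 1 ≤ t + 2 := a.1.2
    unfold col88
    calc ((a.1 : ℕ) * M + nm88 (Kf88 σ w a x)) * d + κ a.1 (Kf88 σ w a x) a (pf88 σ w a x)
        < ((a.1 : ℕ) * M + nm88 (Kf88 σ w a x)) * d + d := Nat.add_lt_add_left h1 _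
      _ = ((a.1 : ℕ) * M + nm88 (Kf88 σ w a x) + 1) * d := by ring
      _ ≤ ((a.1 : ℕ) * M + M) * d := Nat.mul_le_mul_right _ (by rw [add_assoc]; exact Nat.add_le_add_left h2 _)
      _ = ((a.1 : ℕ) + 1) * M * d := by ring
      _ ≤ (t + 2) * M * d := Nat.mul_le_mul_right _ (Nat.mul_le_mul_right _ h3)
  have hcol_inj : ∀ a x b y : V t q h, a.1 ≠ x.1 → G.Adj a x → (w a x).2.1 = true → b.1 ≠ y.1 → G.Adj b y →
      (w b y).2.1 = true → col88 σ w d κ a x = col88 σ w d κ b y → a.1 = b.1 ∧ Kf88 σ w a x = Kf88 σ w b y ∧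
      κ a.1 (Kf88 σ w a x) a (pf88 σ w a x) = κ b.1 (Kf88 σ w b y) b (pf88 σ w b y) := by
    intro a x b y h1 h2 h3 h4 h5 h6 h7
    obtain ⟨g1, g2⟩ := dec88 (hlt a x h1 h2 h3) (hlt b y h4 h5 h6) h7
    obtain ⟨g3, g4⟩ := dec88 (nm_lt88 _) (nm_lt88 _) g1
    exact ⟨Fin.ext g3, nm_inj88 g4, g2⟩
  let f : V t q h → V t q h → ℕ := fun x y =>
    if x.1 = y.1 then (t + 2) * M * d + ((nf88 x + nf88 y) % N)
    else if (w x y).2.1 = true then col88 σ w d κ x y else col88 σ w d κ y x
  have hfs : ∀ x y, f x y = f y x := by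
    intro x y
    by_cases hxy : x.1 = y.1
    · simp only [f, if_pos hxy, if_pos hxy.symm, add_comm (nf88 x)]
    · have h1 := hw2 x y hxy
      have hyx : ¬ y.1 = x.1 := fun h => hxy h.symm
      by_cases hc : (w x y).2.1 = true
      · have h2 : ¬ (w y x).2.1 = true := by
          rw [hc] at h1
          intro h3
          rw [h3] at h1
          exact absurd h1 (by decide)
        simp only [f, if_neg hxy, if_neg hyx, if_pos hc, if_neg h2]
      · have h2 : (w y x).2.1 = true := by
          rw [Bool.not_eq_true] at hc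
          rw [hc] at h1
          cases h3 : (w y x).2.1
          · rw [h3] at h1
            exact absurd h1 (by decide)
          · rfl
        simp only [f, if_neg hxy, if_neg hyx, if_neg hc, if_pos h2]
  have hsw : ∀ x y : V t q h, x.1 ≠ y.1 → ¬ (w x y).2.1 = true → (w y x).2.1 = true := by
    intro x y hxy hc
    have h1 := hw2 x y hxy
    rw [Bool.not_eq_true] at hc
    rw [hc] at h1
    cases h3 : (w y x).2.1
    · rw [h3] at h1
      exact absurd h1 (by decide)
    · rfl
  have hf1 : ∀ x y, x.1 = y.1 → f x y = (t + 2) * M * d + ((nf88 x + nf88 y) % N) := by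
    intro x y hxy
    simp only [f, if_pos hxy]
  have hf2 : ∀ x y, x.1 ≠ y.1 → (w x y).2.1 = true → f x y = col88 σ w d κ x y := by
    intro x y hxy hc
    simp only [f, if_neg hxy, if_pos hc]
  have hf3 : ∀ x y, x.1 ≠ y.1 → G.Adj x y → f x y < (t + 2) * M * d := by
    intro x y hxy hadj
    by_cases hc : (w x y).2.1 = true
    · rw [hf2 x y hxy hc]
      exact hcol_lt x y hxy hadj hc
    · rw [hfs, hf2 y x hxy.symm (hsw x y hxy hc)]
      exact hcol_lt y x hxy.symm hadj.symm (hsw x y hxy hc)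
  have hf4 : ∀ x y, x.1 = y.1 → (t + 2) * M * d ≤ f x y := by
    intro x y hxy
    rw [hf1 x y hxy]
    exact Nat.le_add_right _ _
  let c : Sym2 (V t q h) → ℕ := Sym2.lift ⟨f, hfs⟩
  have hc : ∀ x y, c s(x, y) = f x y := fun x y => rfl
  refine zeta_le (c := c) ?_ (stronglyWoody_of_star G c
    (fun x y => (x.1 ≠ y.1 ∧ (w x y).2.1 = true) ∨ x.1 = y.1) ?_ ?_ ?_)
  · intro e he
    induction e using Sym2.ind with
    | h x y =>
      have hadj : G.Adj x y := he
      rw [hc]
      by_cases hxy : x.1 = y.1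
      · rw [hf1 x y hxy]
        have := nf_lt88 x
        exact Nat.add_lt_add_left (Nat.mod_lt _ (by omega)) _
      · exact (hf3 x y hxy hadj).trans_le (Nat.le_add_right _ _)
  · intro x y _
    by_cases hxy : x.1 = y.1
    · exact Or.inl (Or.inr hxy)
    · by_cases h1 : (w x y).2.1 = true
      · exact Or.inl (Or.inl ⟨hxy, h1⟩)
      · exact Or.inr (Or.inl ⟨fun h2 => hxy h2.symm, hsw x y hxy h1⟩)
  · intro x y z hL hxy hyz he
    rw [hc, hc] at he
    rcases hL with ⟨h1, h2⟩ | h1
    · have h3 : y.1 ≠ z.1 := by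
        intro h4
        have h5 := hf4 y z h4
        have h6 := hf3 x y h1 hxy
        omega
      rw [hf2 x y h1 h2] at he
      by_cases h4 : (w y z).2.1 = true
      · rw [hf2 y z h3 h4] at he
        exact absurd (hcol_inj y z x y h3 hyz h4 h1 hxy h2 he).1.symm h1
      · have h5 := hsw y z h3 h4
        rw [hfs, hf2 z y h3.symm h5] at he
        obtain ⟨g1, g2, g3⟩ := hcol_inj z y x y h3.symm hyz.symm h5 h1 hxy h2 he
        have g4 : pf88 σ w z y = pf88 σ w x y := by
          unfold pf88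
          rw [g2]
        have r1 := hrel z y h3.symm hyz.symm h5
        have r2 := hrel x y h1 hxy h2
        rw [g2, g4] at r1 g3
        rw [g1] at r1 g3
        exact hκ3 x.1 (Kf88 σ w x y) z x (pf88 σ w x y) ⟨g1, r1.2⟩ r2 g3
    · have h3 : y.1 = z.1 := by
        by_contra h4
        have h5 := hf4 x y h1
        have h6 := hf3 y z h4 hyz
        omega
      rw [hf1 x y h1, hf1 y z h3, add_comm (nf88 y)] at he
      exact nf_inj88 (h1.trans h3).symm (mod_inj88 (nf_lt88 z) (nf_lt88 x) (Nat.add_left_cancel he))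
  · intro x y z hL hL' hxy hxz he hyz
    rw [hc, hc] at he
    rcases hL with ⟨h1, h2⟩ | h1
    · rcases hL' with ⟨h3, h4⟩ | h3
      · rw [hf2 x y h1 h2, hf2 x z h3 h4] at he
        obtain ⟨-, g2, g3⟩ := hcol_inj x y x z h1 hxy h2 h3 hxz h4 he
        have r1 := hrel x y h1 hxy h2
        have r2 := hrel x z h3 hxz h4
        rw [g2] at r1 g3
        have g4 := hκ2 x.1 (Kf88 σ w x z) x _ _ r1 r2 g3
        unfold pf88 at g4
        rw [Prod.mk.injEq, Prod.mk.injEq] at g4
        obtain ⟨yi, yx, yu⟩ := y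
        obtain ⟨zi, zx, zu⟩ := z
        obtain ⟨e1, e2, -⟩ := g4
        simp only at e1 e2
        subst e1 e2
        exact hblk _ _ _ _ hyz
      · have h5 := hf4 x z h3
        have h6 := hf3 x y h1 hxy
        omega
    · rcases hL' with ⟨h3, h4⟩ | h3
      · have h5 := hf4 x y h1
        have h6 := hf3 x z h3 hxz
        omega
      · rw [hf1 x y h1, hf1 x z h3, add_comm (nf88 x), add_comm (nf88 x)] at he
        have h5 := nf_inj88 (h1.symm.trans h3) (mod_inj88 (nf_lt88 y) (nf_lt88 z) (Nat.add_left_cancel he))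
        exact hyz.ne h5

end Pool.Agent.Helper85.SAA
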