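import Pool.Agent.Helper85.SAA.Defs

/-!
# Block SAA-COMP: marginals

For an injective `c : κ → ι` the restriction `ω ↦ ω ∘ c` maps the uniform measure on `ι → α` to the uniform measure on `κ → α`.
Proof: all fibres have the same cardinality `|α| ^ (|ι| - |κ|)`; or: `(ι → α) ≃ (range c → α) × ((range c)ᶜ → α)`
(`Equiv.piEquivPiSubtypeProd`) and `range c ≃ κ` (`Equiv.ofInjective`), then `Fintype.sum_prod_type`, `Fintype.card_prod`.
`pr_comp_le` is the special case used later: `Θ : (κ → α) → (κ → α)` bijective, `p` a predicate on `κ → α` and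
`Pr (fun ω => p (Θ (fun k => ω (c k)))) = (number of f with p f) / |α|^|κ|`.
-/

set_option autoImplicit false
set_option linter.unusedSectionVars false

namespace Pool.Agent.Helper85.SAA

open Finset
open scoped Classical

variable {ι α κ : Type} [Fintype ι] [DecidableEq ι] [Fintype α] [Fintype κ] [DecidableEq κ] [Nonempty α]

theorem av_comp (c : κ → ι) (hc : Function.Injective c) (F : (κ → α) → ℝ) :
    Av (fun ω : ι → α => F (fun k => ω (c k))) = Av F := by
  let e1 := Equiv.piEquivPiSubtypeProd (fun i => i ∈ Set.range c) (fun _ : ι => α)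
  let e2 : ({i // i ∈ Set.range c} → α) ≃ (κ → α) :=
    (Equiv.ofInjective c hc).symm.arrowCongr (Equiv.refl α)
  let e : (ι → α) ≃ (κ → α) × ({i // ¬ i ∈ Set.range c} → α) := e1.trans (e2.prodCongr (Equiv.refl _))
  have he : ∀ ω : ι → α, (e ω).1 = fun k => ω (c k) := fun ω => rfl
  have h1 : ∑ ω : ι → α, F (fun k => ω (c k)) =
      (Fintype.card ({i // ¬ i ∈ Set.range c} → α) : ℝ) * ∑ f : κ → α, F f := by
    calc ∑ ω : ι → α, F (fun k => ω (c k)) = ∑ ω : ι → α, F (e ω).1 := rfl
      _ = ∑ x : (κ → α) × ({i // ¬ i ∈ Set.range c} → α), F x.1 :=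
        Equiv.sum_comp e (fun x => F x.1)
      _ = ∑ f : κ → α, ∑ _g : ({i // ¬ i ∈ Set.range c} → α), F f := Fintype.sum_prod_type _
      _ = _ := by
        rw [Finset.mul_sum]
        refine Finset.sum_congr rfl fun f _ => ?_
        rw [Finset.sum_const, nsmul_eq_mul, Finset.card_univ]
  have h2 : (Fintype.card (ι → α) : ℝ) =
      (Fintype.card (κ → α) : ℝ) * (Fintype.card ({i // ¬ i ∈ Set.range c} → α) : ℝ) := by
    rw [Fintype.card_congr e, Fintype.card_prod]
    push_cast
    ring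
  have h3 : (Fintype.card ({i // ¬ i ∈ Set.range c} → α) : ℝ) ≠ 0 := by
    exact_mod_cast Fintype.card_ne_zero
  unfold Av
  rw [h1, h2, mul_comm (Fintype.card (κ → α) : ℝ), mul_div_mul_left _ _ h3]

theorem pr_comp (c : κ → ι) (hc : Function.Injective c) (Θ : (κ → α) → (κ → α)) (hΘ : Function.Bijective Θ)
    (p : (κ → α) → Prop) :
    Pr (fun ω : ι → α => p (Θ (fun k => ω (c k)))) = ((univ.filter p).card : ℝ) / (Fintype.card (κ → α) : ℝ) := by
  have h1 := av_comp c hc (fun f => if p (Θ f) then (1 : ℝ) else 0)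
  unfold Pr
  rw [h1]
  unfold Av
  congr 1
  have h2 : ∑ f : κ → α, (if p (Θ f) then (1 : ℝ) else 0) = ∑ f : κ → α, (if p f then (1 : ℝ) else 0) :=
    Function.Bijective.sum_comp hΘ (fun f => if p f then (1 : ℝ) else 0)
  rw [h2, Finset.sum_ite, Finset.sum_const_zero, add_zero, Finset.sum_const, nsmul_eq_mul, mul_one]

end Pool.Agent.Helper85.SAA
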