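import Pool.Agent.Helper85.SAA.Prod

/-!
# Block SAA-COND: a conditional union bound

`B (c ω) ω` holds iff there is a `p` with `c ω = p` and `B p ω`. So `Pr (B (c ω) ω) = ∑_p Av (1_{c ω = p} * 1_{B p ω})`
`= ∑_p Pr (c ω = p) * Pr (B p)` (`av_mul`) `≤ β * ∑_p Pr (c ω = p) = β` (`∑_p 1_{c ω = p} = 1`; `Av_const`; if `α` is empty and `ι` is not,
everything is `0 ≤ β`, but `Nonempty α` is assumed).
-/

set_option autoImplicit false
set_option linter.unusedSectionVars false

namespace Pool.Agent.Helper85.SAA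

open Finset
open scoped Classical

variable {ι α : Type} [Fintype ι] [DecidableEq ι] [Fintype α]

theorem cond_union [Nonempty α] {P : Type} [Fintype P] (c : (ι → α) → P) (B : P → (ι → α) → Prop) (s t : Set ι)
    (hc : DependsOn c s) (hB : ∀ p, DependsOn (B p) t) (hst : Disjoint s t) (β : ℝ) (h : ∀ p, Pr (B p) ≤ β) :
    Pr (fun ω => B (c ω) ω) ≤ β := by
  have e1 : ∀ ω : ι → α, (if B (c ω) ω then (1 : ℝ) else 0) =
      ∑ p : P, (if c ω = p then (1 : ℝ) else 0) * (if B p ω then (1 : ℝ) else 0) := by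
    intro ω
    rw [Finset.sum_eq_single (c ω)]
    · rw [if_pos rfl, one_mul]
    · intro p _ hp
      rw [if_neg (Ne.symm hp), zero_mul]
    · intro hp
      exact absurd (Finset.mem_univ _) hp
  have e2 : Pr (fun ω => B (c ω) ω) =
      ∑ p : P, Av (fun ω => (if c ω = p then (1 : ℝ) else 0) * (if B p ω then (1 : ℝ) else 0)) := by
    rw [← Av_sum]
    unfold Pr
    congr 1
    funext ω
    exact e1 ω
  have e3 : ∀ p : P, Av (fun ω => (if c ω = p then (1 : ℝ) else 0) * (if B p ω then (1 : ℝ) else 0)) ≤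
      β * Av (fun ω => if c ω = p then (1 : ℝ) else 0) := by
    intro p
    rw [av_mul (s := s) (t := t) ?_ ?_ hst, mul_comm]
    · exact mul_le_mul_of_nonneg_right (h p) (Pr_nonneg (fun ω => c ω = p))
    · intro x y hxy
      simp only [hc hxy]
    · intro x y hxy
      have hxy2 := hB p hxy
      simp only [hxy2]
  rw [e2]
  calc ∑ p : P, Av (fun ω => (if c ω = p then (1 : ℝ) else 0) * (if B p ω then (1 : ℝ) else 0))
      ≤ ∑ p : P, β * Av (fun ω => if c ω = p then (1 : ℝ) else 0) := Finset.sum_le_sum fun p _ => e3 p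
    _ = β * ∑ p : P, Av (fun ω => if c ω = p then (1 : ℝ) else 0) := by rw [Finset.mul_sum]
    _ = β * 1 := by
      rw [← Av_sum]
      have e4 : (fun ω : ι → α => ∑ p : P, (if c ω = p then (1 : ℝ) else 0)) = fun _ => 1 := by
        funext ω
        rw [Finset.sum_ite_eq, if_pos (Finset.mem_univ _)]
      rw [e4, Av_const]
    _ = β := mul_one _

end Pool.Agent.Helper85.SAA
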