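import Pool.Agent.Helper83.SA.Defs

/-!
# Project SAA (MP_96bd24_co): `ζ(G) ≤ (1 + ε) arb(G)` for almost all graphs. Definitions.

Probability space: `ι → α` with the uniform measure (`ι`, `α` finite); `Av` is the average, `Pr` the probability.
Vertices: `V t q h = Fin (t + 2) × X t q × Fin h`; the first coordinate is the part, the third coordinate together with
the part is the block (`X t q = Fin (q + 1) × Fin (t + 1)` is the set of positions in a block).
An element of `Al t q = Bool × Bool × Lb t q` is attached to every pair of vertices: the first bit says whether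
the pair is an edge, the second one which end is the centre, the third component is an auxiliary random label.
-/

set_option autoImplicit false

namespace Pool.Agent.Helper85.SAA

open Finset
open scoped Classical

noncomputable section

section Prob

variable {ι α : Type} [Fintype ι] [DecidableEq ι] [Fintype α]

/-- average over the finite product space `ι → α` -/
def Av (f : (ι → α) → ℝ) : ℝ := (∑ ω, f ω) / (Fintype.card (ι → α) : ℝ)

/-- probability of an event -/
def Pr (p : (ι → α) → Prop) : ℝ := Av (fun ω => if p ω then 1 else 0)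

end Prob

/-- positions in a block: (group, offset) -/
abbrev X (t q : ℕ) : Type := Fin (q + 1) × Fin (t + 1)

/-- labels -/
abbrev Lb (t q : ℕ) : Type := Equiv.Perm (X t q) × Fin (q + 1)

/-- values attached to a pair of vertices -/
abbrev Al (t q : ℕ) : Type := Bool × Bool × Lb t q

/-- vertices: part, position, block -/
abbrev V (t q h : ℕ) : Type := Fin (t + 2) × X t q × Fin h

section Graph

variable {W β : Type}

/-- the graph given by the first bits; `e` is an injective numbering of the vertices -/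
def Gr (e : W → ℕ) (ω : W × W → Bool × β) : SimpleGraph W where
  Adj x y := (e x < e y ∧ (ω (x, y)).1 = true) ∨ (e y < e x ∧ (ω (y, x)).1 = true)
  symm := ⟨fun _ _ h => h.symm⟩
  loopless := ⟨fun _ h => h.elim (fun h => lt_irrefl _ h.1) (fun h => lt_irrefl _ h.1)⟩

/-- reverse the orientation bit -/
def flip (w : Bool × Bool × β) : Bool × Bool × β := (w.1, !w.2.1, w.2.2)

/-- the value at the pair `x, y`, seen from `x` -/
def ww (e : W → ℕ) (ω : W × W → Bool × Bool × β) (x y : W) : Bool × Bool × β :=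
  if e x < e y then ω (x, y) else flip (ω (y, x))

end Graph

/-- the centre `a` uses the group `p.2.2` of the block `(p.1, p.2.1)` in the classes of type `k` -/
def Use {t q h : ℕ} (σ : (X t q → Al t q) → Equiv.Perm (X t q)) (w : V t q h → V t q h → Al t q)
    (k : Equiv.Perm (X t q)) (a : V t q h) (p : Fin (t + 2) × Fin h × Fin (q + 1)) : Prop :=
  σ (fun x => w a (p.1, x, p.2.1)) = k ∧
    ∃ x : X t q, (w a (p.1, x, p.2.1)).1 = true ∧ (w a (p.1, x, p.2.1)).2.1 = true ∧ (k x).1 = p.2.2

/-- all degrees in the auxiliary bipartite graphs are at most `d` -/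
def DegOk {t q h : ℕ} (σ : (X t q → Al t q) → Equiv.Perm (X t q)) (w : V t q h → V t q h → Al t q)
    (d : ℕ) : Prop :=
  (∀ (k : Equiv.Perm (X t q)) (a : V t q h),
    (univ.filter (fun p : Fin (t + 2) × Fin h × Fin (q + 1) => p.1 ≠ a.1 ∧ Use σ w k a p)).card ≤ d) ∧
  (∀ (k : Equiv.Perm (X t q)) (i : Fin (t + 2)) (p : Fin (t + 2) × Fin h × Fin (q + 1)), p.1 ≠ i →
    (univ.filter (fun a : V t q h => a.1 = i ∧ Use σ w k a p)).card ≤ d)

/-- the counting property of the rule -/
def Rule {t q : ℕ} (σ : (X t q → Al t q) → Equiv.Perm (X t q)) : Prop :=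
  ∀ (k : Equiv.Perm (X t q)) (l : Fin (q + 1)),
    ((univ.filter (fun f : X t q → Al t q =>
      σ f = k ∧ ∃ x, (f x).1 = true ∧ (f x).2.1 = true ∧ (k x).1 = l)).card : ℝ) *
      (Fintype.card (Equiv.Perm (X t q)) : ℝ) ≤
      (1 / 4 + 1 / ((q : ℝ) + 1)) * (Fintype.card (X t q → Al t q) : ℝ)

/-- relabelling of the vertices inside the classes `(part, position)` -/
def rel {t q h : ℕ} (π : Fin (t + 2) → X t q → Equiv.Perm (Fin h)) (v : V t q h) : V t q h :=
  (v.1, v.2.1, π v.1 v.2.1 v.2.2)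

/-- after the relabelling all blocks are independent -/
def Indep {t q h : ℕ} (e : V t q h → ℕ) (π : Fin (t + 2) → X t q → Equiv.Perm (Fin h))
    (ω : V t q h × V t q h → Al t q) : Prop :=
  ∀ (i : Fin (t + 2)) (u : Fin h) (x x' : X t q), ¬ (Gr e ω).Adj (rel π (i, x, u)) (rel π (i, x', u))

/-- the coordinates between the vertex `a` and the block `(j, u)` after the relabelling -/
def crd {t q h : ℕ} (π : Fin (t + 2) → X t q → Equiv.Perm (Fin h)) (a : V t q h) (j : Fin (t + 2))
    (u : Fin h) : Set (V t q h × V t q h) :=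
  {c | ∃ x : X t q, c = (rel π a, rel π (j, x, u)) ∨ c = (rel π (j, x, u), rel π a)}

theorem rel_injective {t q h : ℕ} (π : Fin (t + 2) → X t q → Equiv.Perm (Fin h)) :
    Function.Injective (rel π) := by
  rintro ⟨i, x, u⟩ ⟨j, y, v⟩ h
  simp only [rel, Prod.mk.injEq] at h
  obtain ⟨rfl, rfl, h3⟩ := h
  rw [(π i x).injective h3]

section Basic

variable {ι α : Type} [Fintype ι] [DecidableEq ι] [Fintype α]

theorem Pr_eq (p : (ι → α) → Prop) :
    Pr p = ((univ.filter p).card : ℝ) / (Fintype.card (ι → α) : ℝ) := by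
  unfold Pr Av
  rw [Finset.sum_ite, Finset.sum_const_zero, add_zero, Finset.sum_const, nsmul_eq_mul, mul_one]

theorem Av_mono {f g : (ι → α) → ℝ} (h : ∀ ω, f ω ≤ g ω) : Av f ≤ Av g := by
  unfold Av
  exact div_le_div_of_nonneg_right (Finset.sum_le_sum fun ω _ => h ω) (Nat.cast_nonneg _)

theorem Av_nonneg {f : (ι → α) → ℝ} (h : ∀ ω, 0 ≤ f ω) : 0 ≤ Av f := by
  unfold Av
  exact div_nonneg (Finset.sum_nonneg fun ω _ => h ω) (Nat.cast_nonneg _)

theorem Av_sum {κ : Type} (K : Finset κ) (f : κ → (ι → α) → ℝ) :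
    Av (fun ω => ∑ k ∈ K, f k ω) = ∑ k ∈ K, Av (f k) := by
  unfold Av
  rw [Finset.sum_comm, Finset.sum_div]

theorem Av_mul_const (f : (ι → α) → ℝ) (c : ℝ) : Av (fun ω => c * f ω) = c * Av f := by
  unfold Av
  rw [← Finset.mul_sum, mul_div_assoc]

theorem Av_const [Nonempty α] (c : ℝ) : Av (fun _ : ι → α => c) = c := by
  unfold Av
  rw [Finset.sum_const, nsmul_eq_mul, mul_comm, mul_div_assoc]
  have : (Fintype.card (ι → α) : ℝ) ≠ 0 := by exact_mod_cast Fintype.card_ne_zero
  rw [Finset.card_univ, div_self this, mul_one]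

theorem Pr_nonneg (p : (ι → α) → Prop) : 0 ≤ Pr p :=
  Av_nonneg fun ω => by split_ifs <;> norm_num

theorem Pr_mono {p r : (ι → α) → Prop} (h : ∀ ω, p ω → r ω) : Pr p ≤ Pr r := by
  apply Av_mono
  intro ω
  by_cases h1 : p ω
  · rw [if_pos h1, if_pos (h ω h1)]
  · rw [if_neg h1]
    split_ifs <;> norm_num

theorem Pr_le_one (p : (ι → α) → Prop) : Pr p ≤ 1 := by
  rw [Pr_eq]
  apply div_le_one_of_le₀ _ (Nat.cast_nonneg _)
  exact_mod_cast Finset.card_le_univ _

theorem Av_add (f g : (ι → α) → ℝ) : Av (fun ω => f ω + g ω) = Av f + Av g := by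
  unfold Av
  rw [Finset.sum_add_distrib, add_div]

theorem Pr_or_le (p r : (ι → α) → Prop) : Pr (fun ω => p ω ∨ r ω) ≤ Pr p + Pr r := by
  unfold Pr
  rw [← Av_add]
  apply Av_mono
  intro ω
  by_cases h1 : p ω <;> by_cases h2 : r ω <;> simp [h1, h2]

theorem Pr_exists_le {κ : Type} (K : Finset κ) (p : κ → (ι → α) → Prop) :
    Pr (fun ω => ∃ k ∈ K, p k ω) ≤ ∑ k ∈ K, Pr (p k) := by
  unfold Pr
  rw [← Av_sum]
  apply Av_mono
  intro ω
  by_cases h : ∃ k ∈ K, p k ω
  · rw [if_pos h]
    obtain ⟨k, hk, hp⟩ := h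
    have h1 : (if p k ω then (1 : ℝ) else 0) ≤ ∑ k ∈ K, (if p k ω then (1 : ℝ) else 0) :=
      Finset.single_le_sum (f := fun k => (if p k ω then (1 : ℝ) else 0))
        (fun j _ => by split_ifs <;> norm_num) hk
    rw [if_pos hp] at h1
    exact h1
  · rw [if_neg h]
    exact Finset.sum_nonneg fun j _ => by split_ifs <;> norm_num

theorem Pr_exists_le_card {κ : Type} (K : Finset κ) (p : κ → (ι → α) → Prop) (β : ℝ)
    (h : ∀ k ∈ K, Pr (p k) ≤ β) : Pr (fun ω => ∃ k ∈ K, p k ω) ≤ K.card * β := by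
  refine (Pr_exists_le K p).trans ?_
  refine (Finset.sum_le_sum h).trans ?_
  rw [Finset.sum_const, nsmul_eq_mul]

theorem Pr_add_not [Nonempty α] (p : (ι → α) → Prop) : Pr p + Pr (fun ω => ¬ p ω) = 1 := by
  unfold Pr
  rw [← Av_add]
  have h : ∀ g : (ι → α) → ℝ, (∀ ω, g ω = 1) → Av g = 1 := fun g hg => by
    rw [show g = fun _ => 1 from funext hg]
    exact Av_const 1
  apply h
  intro ω
  by_cases h1 : p ω <;> simp [h1]

end Basic

end

end Pool.Agent.Helper85.SAA
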