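import Pool.Agent.Helper85.SAA.Prod

/-!
# Block SAA-TAIL: an exponential tail bound for sums of independent bounded variables

Put `s = lam / (2 * M)`, `0 < s ≤ 1/2`, `g k = f k / M` (values in `[0,1]`). `exp (s * x) ≤ 1 + (exp s - 1) * x` for `x ∈ [0,1]` (convexity,
`convexOn_exp`) and `exp s - 1 ≤ s + s^2` (`s ≤ 1`, e.g. `Real.abs_exp_sub_one_sub_id_le`), so
`Av (exp (s * g k)) ≤ 1 + (s + s^2) * Av (g k) ≤ exp ((s + s^2) * Av (g k)) ≤ exp (s * μ / M + s^2)` (`Av (g k) ≤ μ / M`, `Av (g k) ≤ 1`).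
`av_prod` for the functions `exp (s * g k ω)`; Markov: on the event `∑ g k ω ≥ |K| * (μ + lam) / M`, so
`Pr ≤ exp (- s * |K| * (μ + lam) / M) * ∏ Av (exp (s * g k)) ≤ exp (|K| * (s^2 - s * lam / M)) = exp (- |K| * lam^2 / (4 * M^2))`.
-/

set_option autoImplicit false
set_option linter.unusedSectionVars false

namespace Pool.Agent.Helper85.SAA

open Finset
open scoped Classical

variable {ι α : Type} [Fintype ι] [DecidableEq ι] [Fintype α]

private theorem tl_exp_conv {s x : ℝ} (hx0 : 0 ≤ x) (hx1 : x ≤ 1) :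
    Real.exp (s * x) ≤ 1 + (Real.exp s - 1) * x := by
  have h := convexOn_exp.2 (Set.mem_univ (0 : ℝ)) (Set.mem_univ s) (sub_nonneg.2 hx1) hx0
    (sub_add_cancel 1 x)
  simp only [smul_eq_mul, mul_zero, zero_add, Real.exp_zero, mul_one] at h
  calc Real.exp (s * x) = Real.exp (x * s) := by rw [mul_comm]
    _ ≤ 1 - x + x * Real.exp s := h
    _ = 1 + (Real.exp s - 1) * x := by ring

private theorem tl_exp_sq {s : ℝ} (h0 : 0 ≤ s) (h1 : s ≤ 1) : Real.exp s - 1 ≤ s + s ^ 2 := by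
  have h := Real.abs_exp_sub_one_sub_id_le (x := s) (by rw [abs_of_nonneg h0]; exact h1)
  have h2 := (abs_le.1 h).2
  linarith

private theorem tl_mgf [Nonempty α] (g : (ι → α) → ℝ) {M μ s : ℝ} (hM : 0 < M) (h0 : ∀ ω, 0 ≤ g ω)
    (h1 : ∀ ω, g ω ≤ M) (hμ : Av g ≤ μ) (hs0 : 0 ≤ s) (hs1 : s ≤ 1) :
    Av (fun ω => Real.exp (s * (g ω / M))) ≤ Real.exp (s * μ / M + s ^ 2) := by
  have hA : Av (fun ω => Real.exp (s * (g ω / M))) ≤ Av (fun ω => 1 + (Real.exp s - 1) / M * g ω) := by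
    apply Av_mono
    intro ω
    have h2 := tl_exp_conv (s := s) (x := g ω / M) (div_nonneg (h0 ω) hM.le)
      ((div_le_one hM).2 (h1 ω))
    calc Real.exp (s * (g ω / M)) ≤ 1 + (Real.exp s - 1) * (g ω / M) := h2
      _ = 1 + (Real.exp s - 1) / M * g ω := by ring
  have hB : Av (fun ω => 1 + (Real.exp s - 1) / M * g ω) = 1 + (Real.exp s - 1) / M * Av g := by
    rw [Av_add (fun _ => 1) (fun ω => (Real.exp s - 1) / M * g ω), Av_const, Av_mul_const]
  have hg0 : 0 ≤ Av g := Av_nonneg h0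
  have hgM : Av g ≤ M := by
    calc Av g ≤ Av (fun _ : ι → α => M) := Av_mono h1
      _ = M := Av_const M
  have hC : (Real.exp s - 1) / M * Av g ≤ s * μ / M + s ^ 2 := by
    have h3 := tl_exp_sq hs0 hs1
    have h4 : (Real.exp s - 1) * Av g ≤ (s + s ^ 2) * Av g := mul_le_mul_of_nonneg_right h3 hg0
    have h5 : s * Av g ≤ s * μ := mul_le_mul_of_nonneg_left hμ hs0
    have h6 : s ^ 2 * Av g ≤ s ^ 2 * M := mul_le_mul_of_nonneg_left hgM (sq_nonneg s)
    have h7 : (Real.exp s - 1) * Av g ≤ s * μ + s ^ 2 * M := by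
      have : (s + s ^ 2) * Av g = s * Av g + s ^ 2 * Av g := by ring
      linarith
    calc (Real.exp s - 1) / M * Av g = (Real.exp s - 1) * Av g / M := by ring
      _ ≤ (s * μ + s ^ 2 * M) / M := div_le_div_of_nonneg_right h7 hM.le
      _ = s * μ / M + s ^ 2 := by field_simp
  calc Av (fun ω => Real.exp (s * (g ω / M))) ≤ 1 + (Real.exp s - 1) / M * Av g := by
        rw [← hB]; exact hA
    _ ≤ s * μ / M + s ^ 2 + 1 := by linarith
    _ ≤ Real.exp (s * μ / M + s ^ 2) := Real.add_one_le_exp _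

theorem tail [Nonempty α] {κ : Type} (K : Finset κ) (f : κ → (ι → α) → ℝ) (s : κ → Set ι)
    (hf : ∀ k ∈ K, DependsOn (f k) (s k)) (hs : ∀ k ∈ K, ∀ l ∈ K, k ≠ l → Disjoint (s k) (s l))
    {M μ lam : ℝ} (hM : 0 < M) (h0 : ∀ k ∈ K, ∀ ω, 0 ≤ f k ω) (h1 : ∀ k ∈ K, ∀ ω, f k ω ≤ M)
    (hμ : ∀ k ∈ K, Av (f k) ≤ μ) (hl : 0 < lam) (hlM : lam ≤ M) :
    Pr (fun ω => (K.card : ℝ) * (μ + lam) ≤ ∑ k ∈ K, f k ω) ≤ Real.exp (-((K.card : ℝ) * (lam / M) ^ 2 / 4)) := by
  have hs1 : ∃ r : ℝ, r = lam / (2 * M) := ⟨_, rfl⟩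
  obtain ⟨r, hr⟩ := hs1
  have hr0 : 0 ≤ r := by rw [hr]; positivity
  have hr1 : r ≤ 1 := by
    rw [hr, div_le_one (by positivity)]
    linarith
  have hdep : ∀ k ∈ K, DependsOn (fun ω => Real.exp (r * (f k ω / M))) (s k) := by
    intro k hk x y hxy
    have h2 := hf k hk hxy
    show Real.exp (r * (f k x / M)) = Real.exp (r * (f k y / M))
    rw [h2]
  have hprod := av_prod K (fun k ω => Real.exp (r * (f k ω / M))) s hdep hs
  have hle : ∏ k ∈ K, Av (fun ω => Real.exp (r * (f k ω / M))) ≤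
      ∏ _k ∈ K, Real.exp (r * μ / M + r ^ 2) := by
    apply Finset.prod_le_prod
    · intro k _
      exact Av_nonneg fun ω => (Real.exp_pos _).le
    · intro k hk
      exact tl_mgf (f k) hM (h0 k hk) (h1 k hk) (hμ k hk) hr0 hr1
  have hmark : Pr (fun ω => (K.card : ℝ) * (μ + lam) ≤ ∑ k ∈ K, f k ω) ≤
      Real.exp (-(r * ((K.card : ℝ) * (μ + lam) / M))) *
        Av (fun ω => ∏ k ∈ K, Real.exp (r * (f k ω / M))) := by
    rw [← Av_mul_const]
    apply Av_mono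
    intro ω
    have hexp : ∏ k ∈ K, Real.exp (r * (f k ω / M)) = Real.exp (r * ((∑ k ∈ K, f k ω) / M)) := by
      rw [← Real.exp_sum, Finset.sum_div, Finset.mul_sum]
    show (if (K.card : ℝ) * (μ + lam) ≤ ∑ k ∈ K, f k ω then (1 : ℝ) else 0) ≤ _
    rw [hexp, ← Real.exp_add]
    split_ifs with hc
    · apply Real.one_le_exp
      have h3 : (K.card : ℝ) * (μ + lam) / M ≤ (∑ k ∈ K, f k ω) / M :=
        div_le_div_of_nonneg_right hc hM.le
      have h4 := mul_le_mul_of_nonneg_left h3 hr0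
      linarith
    · exact (Real.exp_pos _).le
  refine hmark.trans ?_
  rw [hprod]
  refine (mul_le_mul_of_nonneg_left hle (Real.exp_pos _).le).trans ?_
  rw [Finset.prod_const, ← Real.exp_nat_mul, ← Real.exp_add]
  apply Real.exp_le_exp.2
  apply le_of_eq
  rw [hr]
  field_simp
  ring

end Pool.Agent.Helper85.SAA
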