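import Pool.Agent.Helper85.SAA.UseProb
import Pool.Agent.Helper85.SAA.Tail

/-!
# Block SAA-DEG: the degrees in the auxiliary bipartite graphs

`b = |X t q| = (q + 1) (t + 1)`, `M = |Equiv.Perm (X t q)| ≥ 1`, `ρ = 1/4 + 1/(q + 1)`; `(ρ + ε) * (b h) / M ≤ d`.
(A) fixed `k, a`. `K = ` the blocks `(j, u)` with `j ≠ a.1` (`|K| = (t + 1) h`), `f (j, u) ω = #{l : Use .. (j, u, l)} ∈ [0, q + 1]`, `Av f ≤ (q + 1) ρ / M` (`use_prob`, `Av_sum`),
`s (j, u) = crd π a j u`. `tail` with upper bound `q + 1`, `μ = (q + 1) ρ / M`, `lam = (q + 1) ε / M`: `|K| (μ + lam) = b h (ρ + ε) / M ≤ d`, so the probability that the degree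
(`= ∑ f`, fibrewise count over `(j, u)`) is `> d` is at most `exp (- (t + 1) h (ε / M)^2 / 4)`.
(B) fixed `k, i, p` with `p.1 ≠ i`. `K = {a : a.1 = i}` (`|K| = b h`), `f a = 1_{Use .. a p}`, bound `1`, `μ = ρ / M`, `lam = ε / M`, `s a = crd π a p.1 p.2.1`:
at most `exp (- b h (ε / M)^2 / 4) ≤ exp (- (t + 1) h (ε / M)^2 / 4)`.
Union bound (`Pr_exists_le_card`): there are `M (t + 2) b h` pairs `(k, a)` and `M (t + 2) (t + 2) h (q + 1)` triples `(k, i, p)`.
`degOk_dependsOn`: `crd_cross`, `use_dependsOn`.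
-/

set_option autoImplicit false
set_option linter.unusedSectionVars false

namespace Pool.Agent.Helper85.SAA

open Finset
open scoped Classical

variable {t q h : ℕ}

theorem degOk_dependsOn (σ : (X t q → Al t q) → Equiv.Perm (X t q)) (e : V t q h → ℕ)
    (π : Fin (t + 2) → X t q → Equiv.Perm (Fin h)) (d : ℕ) :
    DependsOn (fun ω : V t q h × V t q h → Al t q => ¬ DegOk σ (fun y z => ww e ω (rel π y) (rel π z)) d)
      {c | c.1.1 ≠ c.2.1} := by
  intro ω ω' hω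
  have huse : ∀ (k : Equiv.Perm (X t q)) (a : V t q h) (p : Fin (t + 2) × Fin h × Fin (q + 1)),
      p.1 ≠ a.1 → (Use σ (fun y z => ww e ω (rel π y) (rel π z)) k a p ↔
        Use σ (fun y z => ww e ω' (rel π y) (rel π z)) k a p) := by
    intro k a p hp
    exact iff_of_eq (use_dependsOn σ e π k a p fun c hc => hω c (crd_cross π a p.2.1 hp hc))
  have h1 : DegOk σ (fun y z => ww e ω (rel π y) (rel π z)) d ↔
      DegOk σ (fun y z => ww e ω' (rel π y) (rel π z)) d := by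
    unfold DegOk
    refine and_congr ?_ ?_
    · refine forall_congr' fun k => forall_congr' fun a => ?_
      rw [Finset.filter_congr (fun p _ => and_congr_right fun hp => huse k a p hp)]
    · refine forall_congr' fun k => forall_congr' fun i => forall_congr' fun p =>
        forall_congr' fun hp => ?_
      rw [Finset.filter_congr (fun a _ => and_congr_right fun ha =>
        huse k a p (fun h => hp (h.trans ha)))]
  show (¬ DegOk σ (fun y z => ww e ω (rel π y) (rel π z)) d) =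
    (¬ DegOk σ (fun y z => ww e ω' (rel π y) (rel π z)) d)
  rw [h1]

private theorem perm_card_pos15 : (1 : ℝ) ≤ (Fintype.card (Equiv.Perm (X t q)) : ℝ) := by
  exact_mod_cast Fintype.card_pos

private theorem card_X15 : (Fintype.card (X t q) : ℝ) = ((q : ℝ) + 1) * ((t : ℝ) + 1) := by
  rw [Fintype.card_prod, Fintype.card_fin, Fintype.card_fin]
  push_cast
  ring

private theorem eps_bound15 {ε : ℝ} (hε : 0 < ε) (hε1 : ε ≤ 1) :
    0 < ε / (Fintype.card (Equiv.Perm (X t q)) : ℝ) ∧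
      ε / (Fintype.card (Equiv.Perm (X t q)) : ℝ) ≤ 1 := by
  have h1 := perm_card_pos15 (t := t) (q := q)
  refine ⟨div_pos hε (by linarith), ?_⟩
  rw [div_le_one (by linarith)]
  linarith

theorem centre_prob {σ : (X t q → Al t q) → Equiv.Perm (X t q)} (hσ : Rule σ) (e : V t q h → ℕ)
    (π : Fin (t + 2) → X t q → Equiv.Perm (Fin h)) (k : Equiv.Perm (X t q)) (a : V t q h) {ε : ℝ} (hε : 0 < ε)
    (hε1 : ε ≤ 1) {d : ℕ}
    (hd : (1 / 4 + 1 / ((q : ℝ) + 1) + ε) * ((Fintype.card (X t q) : ℝ) * h) /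
      (Fintype.card (Equiv.Perm (X t q)) : ℝ) ≤ d) :
    Pr (fun ω : V t q h × V t q h → Al t q =>
      ¬ (univ.filter (fun p : Fin (t + 2) × Fin h × Fin (q + 1) => p.1 ≠ a.1 ∧
        Use σ (fun y z => ww e ω (rel π y) (rel π z)) k a p)).card ≤ d) ≤
      Real.exp (-(((t : ℝ) + 1) * h * (ε / (Fintype.card (Equiv.Perm (X t q)) : ℝ)) ^ 2 / 4)) := by
  have hM := perm_card_pos15 (t := t) (q := q)
  obtain ⟨hl, hl1⟩ := eps_bound15 (t := t) (q := q) hε hε1
  have hq : (0 : ℝ) < (q : ℝ) + 1 := by positivity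
  obtain ⟨M, hMd⟩ : ∃ M : ℝ, M = (Fintype.card (Equiv.Perm (X t q)) : ℝ) := ⟨_, rfl⟩
  rw [← hMd] at hM hl hl1 hd ⊢
  obtain ⟨K, hK⟩ : ∃ K : Finset (Fin (t + 2) × Fin h), K = (univ.erase a.1) ×ˢ univ := ⟨_, rfl⟩
  have hKc : (K.card : ℝ) = ((t : ℝ) + 1) * h := by
    rw [hK, Finset.card_product, Finset.card_erase_of_mem (Finset.mem_univ _), Finset.card_univ,
      Finset.card_univ, Fintype.card_fin, Fintype.card_fin]
    push_cast
    ring
  have hKm : ∀ ju : Fin (t + 2) × Fin h, ju ∈ K ↔ ju.1 ≠ a.1 := fun ju => by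
    rw [hK, Finset.mem_product, Finset.mem_erase]
    simp
  obtain ⟨f, hf⟩ : ∃ f : Fin (t + 2) × Fin h → (V t q h × V t q h → Al t q) → ℝ,
      f = fun ju ω => ∑ l : Fin (q + 1),
        if Use σ (fun y z => ww e ω (rel π y) (rel π z)) k a (ju.1, ju.2, l) then (1 : ℝ) else 0 :=
    ⟨_, rfl⟩
  have hdep : ∀ ju ∈ K, DependsOn (f ju) (crd π a ju.1 ju.2) := by
    intro ju _ ω ω' hω
    rw [hf]
    refine Finset.sum_congr rfl fun l _ => ?_
    have h1 := use_dependsOn σ e π k a (ju.1, ju.2, l) hω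
    simp only at h1
    simp only [h1]
  have hdis : ∀ ju ∈ K, ∀ ju' ∈ K, ju ≠ ju' → Disjoint (crd π a ju.1 ju.2) (crd π a ju'.1 ju'.2) :=
    fun ju hju ju' hju' hne => crd_disjoint_block π a ((hKm ju).1 hju) ((hKm ju').1 hju') hne
  have h0 : ∀ ju ∈ K, ∀ ω, 0 ≤ f ju ω := fun ju _ ω => by
    rw [hf]
    exact Finset.sum_nonneg fun l _ => by split_ifs <;> norm_num
  have h1 : ∀ ju ∈ K, ∀ ω, f ju ω ≤ (q : ℝ) + 1 := fun ju _ ω => by
    rw [hf]
    calc ∑ l : Fin (q + 1), (if Use σ (fun y z => ww e ω (rel π y) (rel π z)) k a (ju.1, ju.2, l) then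
          (1 : ℝ) else 0) ≤ ∑ l : Fin (q + 1), (1 : ℝ) :=
          Finset.sum_le_sum fun l _ => by split_ifs <;> norm_num
      _ = (q : ℝ) + 1 := by
          rw [Finset.sum_const, Finset.card_univ, Fintype.card_fin, nsmul_eq_mul, mul_one]
          push_cast
          ring
  have hμ : ∀ ju ∈ K, Av (f ju) ≤ ((q : ℝ) + 1) * ((1 / 4 + 1 / ((q : ℝ) + 1)) / M) := by
    intro ju hju
    rw [hf]
    simp only
    rw [Av_sum univ (fun (l : Fin (q + 1)) (ω : V t q h × V t q h → Al t q) =>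
      if Use σ (fun y z => ww e ω (rel π y) (rel π z)) k a (ju.1, ju.2, l) then (1 : ℝ) else 0)]
    have h2 : ∀ l ∈ (univ : Finset (Fin (q + 1))), Av (fun ω : V t q h × V t q h → Al t q =>
        if Use σ (fun y z => ww e ω (rel π y) (rel π z)) k a (ju.1, ju.2, l) then (1 : ℝ) else 0) ≤
        (1 / 4 + 1 / ((q : ℝ) + 1)) / M := fun l _ => by
      rw [hMd]
      exact use_prob hσ e π k a (ju.1, ju.2, l) ((hKm ju).1 hju)
    refine (Finset.sum_le_sum h2).trans ?_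
    rw [Finset.sum_const, Finset.card_univ, Fintype.card_fin, nsmul_eq_mul]
    push_cast
    exact le_rfl
  have ht := tail K f (fun ju => crd π a ju.1 ju.2) hdep hdis hq h0 h1 hμ
    (lam := ((q : ℝ) + 1) * (ε / M)) (mul_pos hq hl) (by nlinarith)
  have e1 : ((q : ℝ) + 1) * (ε / M) / ((q : ℝ) + 1) = ε / M := by field_simp
  rw [e1, hKc] at ht
  refine le_trans (Pr_mono fun ω hω => ?_) ht
  have h3 : ((univ.filter (fun p : Fin (t + 2) × Fin h × Fin (q + 1) => p.1 ≠ a.1 ∧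
        Use σ (fun y z => ww e ω (rel π y) (rel π z)) k a p)).card : ℝ) = ∑ ju ∈ K, f ju ω := by
    rw [Finset.card_eq_sum_card_fiberwise (f := fun p : Fin (t + 2) × Fin h × Fin (q + 1) =>
      (p.1, p.2.1)) (t := K) (fun p hp => (hKm _).2 (Finset.mem_filter.1 hp).2.1)]
    push_cast
    refine Finset.sum_congr rfl fun ju hju => ?_
    rw [hf]
    simp only
    rw [Finset.sum_boole]
    norm_cast
    refine Finset.card_bij (fun p _ => p.2.2) ?_ ?_ ?_
    · rintro ⟨j, u, l⟩ hp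
      rw [Finset.mem_filter, Finset.mem_filter] at hp
      obtain ⟨⟨_, _, h4⟩, h5⟩ := hp
      simp only at h5
      rw [Finset.mem_filter]
      refine ⟨Finset.mem_univ _, ?_⟩
      rw [← h5]
      exact h4
    · rintro ⟨j, u, l⟩ hp ⟨j', u', l'⟩ hp' hl'
      rw [Finset.mem_filter] at hp hp'
      have h5 := hp.2.trans hp'.2.symm
      simp only [Prod.mk.injEq] at h5 hl'
      rw [h5.1, h5.2, hl']
    · intro l hl'
      rw [Finset.mem_filter] at hl'
      refine ⟨(ju.1, ju.2, l), ?_, rfl⟩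
      rw [Finset.mem_filter, Finset.mem_filter]
      exact ⟨⟨Finset.mem_univ _, (hKm ju).1 hju, hl'.2⟩, rfl⟩
  rw [← h3]
  have h4 : (d : ℝ) ≤ ((univ.filter (fun p : Fin (t + 2) × Fin h × Fin (q + 1) => p.1 ≠ a.1 ∧
        Use σ (fun y z => ww e ω (rel π y) (rel π z)) k a p)).card : ℝ) := by
    exact_mod_cast (not_le.1 hω).le
  refine le_trans ?_ (hd.trans h4)
  rw [card_X15]
  apply le_of_eq
  field_simp

theorem block_prob {σ : (X t q → Al t q) → Equiv.Perm (X t q)} (hσ : Rule σ) (e : V t q h → ℕ)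
    (π : Fin (t + 2) → X t q → Equiv.Perm (Fin h)) (k : Equiv.Perm (X t q)) (i : Fin (t + 2))
    (p : Fin (t + 2) × Fin h × Fin (q + 1)) (hp : p.1 ≠ i) {ε : ℝ} (hε : 0 < ε) (hε1 : ε ≤ 1) {d : ℕ}
    (hd : (1 / 4 + 1 / ((q : ℝ) + 1) + ε) * ((Fintype.card (X t q) : ℝ) * h) /
      (Fintype.card (Equiv.Perm (X t q)) : ℝ) ≤ d) :
    Pr (fun ω : V t q h × V t q h → Al t q =>
      ¬ (univ.filter (fun a : V t q h => a.1 = i ∧
        Use σ (fun y z => ww e ω (rel π y) (rel π z)) k a p)).card ≤ d) ≤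
      Real.exp (-(((t : ℝ) + 1) * h * (ε / (Fintype.card (Equiv.Perm (X t q)) : ℝ)) ^ 2 / 4)) := by
  have hM := perm_card_pos15 (t := t) (q := q)
  obtain ⟨hl, hl1⟩ := eps_bound15 (t := t) (q := q) hε hε1
  have hq : (0 : ℝ) < (q : ℝ) + 1 := by positivity
  obtain ⟨M, hMd⟩ : ∃ M : ℝ, M = (Fintype.card (Equiv.Perm (X t q)) : ℝ) := ⟨_, rfl⟩
  rw [← hMd] at hM hl hl1 hd ⊢
  obtain ⟨K, hK⟩ : ∃ K : Finset (V t q h), K = {i} ×ˢ univ := ⟨_, rfl⟩
  have hKc : (K.card : ℝ) = (Fintype.card (X t q) : ℝ) * h := by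
    rw [hK, Finset.card_product, Finset.card_singleton, one_mul, Finset.card_univ,
      Fintype.card_prod, Fintype.card_fin]
    push_cast
    ring
  have hKm : ∀ a : V t q h, a ∈ K ↔ a.1 = i := fun a => by
    rw [hK, Finset.mem_product, Finset.mem_singleton]
    simp
  obtain ⟨f, hf⟩ : ∃ f : V t q h → (V t q h × V t q h → Al t q) → ℝ,
      f = fun a ω =>
        if Use σ (fun y z => ww e ω (rel π y) (rel π z)) k a p then (1 : ℝ) else 0 :=
    ⟨_, rfl⟩
  have hpK : ∀ a ∈ K, p.1 ≠ a.1 := fun a ha h => hp (h.trans ((hKm a).1 ha))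
  have hdep : ∀ a ∈ K, DependsOn (f a) (crd π a p.1 p.2.1) := by
    intro a _ ω ω' hω
    rw [hf]
    have h1 := use_dependsOn σ e π k a p hω
    simp only at h1
    simp only [h1]
  have hdis : ∀ a ∈ K, ∀ a' ∈ K, a ≠ a' → Disjoint (crd π a p.1 p.2.1) (crd π a' p.1 p.2.1) :=
    fun a ha a' ha' hne => crd_disjoint_centre π (hpK a ha) (hpK a' ha') hne
  have h0 : ∀ a ∈ K, ∀ ω, 0 ≤ f a ω := fun a _ ω => by
    rw [hf]
    simp only
    split_ifs <;> norm_num
  have h1 : ∀ a ∈ K, ∀ ω, f a ω ≤ 1 := fun a _ ω => by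
    rw [hf]
    simp only
    split_ifs <;> norm_num
  have hμ : ∀ a ∈ K, Av (f a) ≤ (1 / 4 + 1 / ((q : ℝ) + 1)) / M := by
    intro a ha
    rw [hf, hMd]
    exact use_prob hσ e π k a p (hpK a ha)
  have ht := tail K f (fun a => crd π a p.1 p.2.1) hdep hdis one_pos h0 h1 hμ hl hl1
  rw [div_one, hKc] at ht
  refine le_trans (Pr_mono fun ω hω => ?_) (ht.trans ?_)
  · have h3 : ((univ.filter (fun a : V t q h => a.1 = i ∧
        Use σ (fun y z => ww e ω (rel π y) (rel π z)) k a p)).card : ℝ) = ∑ a ∈ K, f a ω := by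
      rw [hf]
      simp only
      rw [Finset.sum_boole]
      congr 2
      ext a
      rw [Finset.mem_filter, Finset.mem_filter, hKm]
      simp
    rw [← h3]
    have h4 : (d : ℝ) ≤ ((univ.filter (fun a : V t q h => a.1 = i ∧
        Use σ (fun y z => ww e ω (rel π y) (rel π z)) k a p)).card : ℝ) := by
      exact_mod_cast (not_le.1 hω).le
    refine le_trans ?_ (hd.trans h4)
    apply le_of_eq
    ring
  · apply Real.exp_le_exp.2
    apply neg_le_neg
    rw [card_X15]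
    have h5 : ((t : ℝ) + 1) * h ≤ ((q : ℝ) + 1) * ((t : ℝ) + 1) * h := by
      have h6 : (0 : ℝ) ≤ (q : ℝ) * (((t : ℝ) + 1) * h) := by positivity
      nlinarith
    have h7 := mul_le_mul_of_nonneg_right h5 (sq_nonneg (ε / M))
    linarith

theorem deg_prob {σ : (X t q → Al t q) → Equiv.Perm (X t q)} (hσ : Rule σ) (e : V t q h → ℕ)
    (π : Fin (t + 2) → X t q → Equiv.Perm (Fin h)) {ε : ℝ} (hε : 0 < ε) (hε1 : ε ≤ 1) {d : ℕ}
    (hd : (1 / 4 + 1 / ((q : ℝ) + 1) + ε) * ((Fintype.card (X t q) : ℝ) * h) /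
      (Fintype.card (Equiv.Perm (X t q)) : ℝ) ≤ d) :
    Pr (fun ω : V t q h × V t q h → Al t q => ¬ DegOk σ (fun y z => ww e ω (rel π y) (rel π z)) d) ≤
      ((Fintype.card (Equiv.Perm (X t q)) : ℝ) * ((t : ℝ) + 2) *
        ((Fintype.card (X t q) : ℝ) + ((t : ℝ) + 2) * ((q : ℝ) + 1)) * h) *
      Real.exp (-(((t : ℝ) + 1) * h * (ε / (Fintype.card (Equiv.Perm (X t q)) : ℝ)) ^ 2 / 4)) := by
  obtain ⟨E, hE⟩ : ∃ E : ℝ, E = Real.exp (-(((t : ℝ) + 1) * h *
    (ε / (Fintype.card (Equiv.Perm (X t q)) : ℝ)) ^ 2 / 4)) := ⟨_, rfl⟩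
  have hE0 : 0 ≤ E := by rw [hE]; exact (Real.exp_pos _).le
  have b1 := Pr_exists_le_card (univ : Finset (Equiv.Perm (X t q) × V t q h))
    (fun (z : Equiv.Perm (X t q) × V t q h) (ω : V t q h × V t q h → Al t q) =>
      ¬ (univ.filter (fun p : Fin (t + 2) × Fin h × Fin (q + 1) => p.1 ≠ z.2.1 ∧
        Use σ (fun y z => ww e ω (rel π y) (rel π z)) z.1 z.2 p)).card ≤ d) E
    (fun z _ => by rw [hE]; exact centre_prob hσ e π z.1 z.2 hε hε1 hd)
  have b2 := Pr_exists_le_card ((univ : Finset (Equiv.Perm (X t q) × Fin (t + 2) ×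
      (Fin (t + 2) × Fin h × Fin (q + 1)))).filter (fun z => z.2.2.1 ≠ z.2.1))
    (fun (z : Equiv.Perm (X t q) × Fin (t + 2) × (Fin (t + 2) × Fin h × Fin (q + 1)))
      (ω : V t q h × V t q h → Al t q) =>
      ¬ (univ.filter (fun a : V t q h => a.1 = z.2.1 ∧
        Use σ (fun y z => ww e ω (rel π y) (rel π z)) z.1 a z.2.2)).card ≤ d) E
    (fun z hz => by
      rw [hE]
      exact block_prob hσ e π z.1 z.2.1 z.2.2 (Finset.mem_filter.1 hz).2 hε hε1 hd)
  rw [← hE]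
  refine le_trans (Pr_mono ?_) ((Pr_or_le _ _).trans ((add_le_add b1 b2).trans ?_))
  · intro ω hω
    by_contra hcon
    rw [not_or] at hcon
    apply hω
    constructor
    · intro k a
      by_contra h1
      exact hcon.1 ⟨(k, a), Finset.mem_univ _, h1⟩
    · intro k i p hp
      by_contra h1
      exact hcon.2 ⟨(k, i, p), Finset.mem_filter.2 ⟨Finset.mem_univ _, hp⟩, h1⟩
  · have c1 : (((univ : Finset (Equiv.Perm (X t q) × V t q h)).card : ℕ) : ℝ) =
        (Fintype.card (Equiv.Perm (X t q)) : ℝ) * (((t : ℝ) + 2) * ((Fintype.card (X t q) : ℝ) * h)) := by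
      rw [Finset.card_univ, Fintype.card_prod, Fintype.card_prod (Fin (t + 2)),
        Fintype.card_prod (X t q) (Fin h), Fintype.card_fin, Fintype.card_fin]
      push_cast
      ring
    have c2 : (((((univ : Finset (Equiv.Perm (X t q) × Fin (t + 2) ×
      (Fin (t + 2) × Fin h × Fin (q + 1)))).filter (fun z => z.2.2.1 ≠ z.2.1)).card : ℕ)) : ℝ) ≤
        (Fintype.card (Equiv.Perm (X t q)) : ℝ) * (((t : ℝ) + 2) * (((t : ℝ) + 2) * (h * ((q : ℝ) + 1)))) := by
      have h1 := Finset.card_le_univ ((univ : Finset (Equiv.Perm (X t q) × Fin (t + 2) ×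
        (Fin (t + 2) × Fin h × Fin (q + 1)))).filter (fun z => z.2.2.1 ≠ z.2.1))
      rw [Fintype.card_prod, Fintype.card_prod (Fin (t + 2)) (Fin (t + 2) × Fin h × Fin (q + 1)),
        Fintype.card_prod (Fin (t + 2)) (Fin h × Fin (q + 1)),
        Fintype.card_prod (Fin h), Fintype.card_fin, Fintype.card_fin, Fintype.card_fin] at h1
      have h2 : (((((univ : Finset (Equiv.Perm (X t q) × Fin (t + 2) ×
        (Fin (t + 2) × Fin h × Fin (q + 1)))).filter (fun z => z.2.2.1 ≠ z.2.1)).card : ℕ)) : ℝ) ≤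
        ((Fintype.card (Equiv.Perm (X t q)) * ((t + 2) * ((t + 2) * (h * (q + 1)))) : ℕ) : ℝ) := by
        exact_mod_cast h1
      refine h2.trans (le_of_eq ?_)
      push_cast
      ring
    rw [c1]
    have c3 := mul_le_mul_of_nonneg_right c2 hE0
    nlinarith [c3]

end Pool.Agent.Helper85.SAA
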