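import Pool.Agent.Helper85.SAA.Tail
import Pool.Agent.Helper85.SAA.Comp

/-!
# Block SAA-EDGE: the number of edges of the random graph

`K = {p : p.1 < p.2}` (`|K| = n (n - 1) / 2`), `f p ω = 1` if `¬ ((Gr e ω).comap f0).Adj p.1 p.2` and `0` otherwise; `Av = 1/2` (one coordinate, the first bit: `pr_comp` with `κ = Unit`), the
coordinates of different pairs are different (`{(f0 p.1, f0 p.2), (f0 p.2, f0 p.1)}`). `tail` with `M = 1`, `μ = 1/2`, `lam = ε`:
`Pr (∑ f ≥ |K| (1/2 + ε)) ≤ exp (- |K| ε^2 / 4)`, and the number of edges is `|K| - ∑ f`. `|K|`: `Finset.card_filter` for `p.1 < p.2`, e.g. by the number `n (n-1)/2` (`Finset.sum_range_id_mul_two`) or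
`2 |K| + n = n^2`.
-/

set_option autoImplicit false
set_option linter.unusedSectionVars false

namespace Pool.Agent.Helper85.SAA

open Finset
open scoped Classical

private theorem card_lt67 (n : ℕ) :
    ((univ.filter (fun p : Fin n × Fin n => p.1 < p.2)).card : ℝ) = (n : ℝ) * (n - 1) / 2 := by
  have h1 : (univ.filter (fun p : Fin n × Fin n => p.1 < p.2)).card =
      (univ.filter (fun p : Fin n × Fin n => p.2 < p.1)).card := by
    refine Finset.card_nbij' Prod.swap Prod.swap ?_ ?_ ?_ ?_
    · intro p hp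
      simp only [Finset.coe_filter, Finset.mem_univ, true_and, Set.mem_ofPred_eq] at hp ⊢
      exact hp
    · intro p hp
      simp only [Finset.coe_filter, Finset.mem_univ, true_and, Set.mem_ofPred_eq] at hp ⊢
      exact hp
    · intro p _
      exact Prod.swap_swap p
    · intro p _
      exact Prod.swap_swap p
  have h2 : (univ.filter (fun p : Fin n × Fin n => p.1 = p.2)).card = n := by
    have h3 : (univ.filter (fun p : Fin n × Fin n => p.1 = p.2)).card =
        (univ : Finset (Fin n)).card := by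
      refine Finset.card_nbij' Prod.fst (fun i => (i, i)) ?_ ?_ ?_ ?_
      · intro p _
        simp
      · intro i _
        simp
      · rintro ⟨i, j⟩ hp
        simp only [Finset.coe_filter, Finset.mem_univ, true_and, Set.mem_ofPred_eq] at hp
        rw [hp]
      · intro i _
        rfl
    rw [h3, Finset.card_univ, Fintype.card_fin]
  have h3 : n * n = (univ.filter (fun p : Fin n × Fin n => p.1 < p.2)).card +
      ((univ.filter (fun p : Fin n × Fin n => p.2 < p.1)).card +
        (univ.filter (fun p : Fin n × Fin n => p.1 = p.2)).card) := by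
    have h4 : (univ : Finset (Fin n × Fin n)) = univ.filter (fun p : Fin n × Fin n => p.1 < p.2) ∪
        (univ.filter (fun p : Fin n × Fin n => p.2 < p.1) ∪
          univ.filter (fun p : Fin n × Fin n => p.1 = p.2)) := by
      ext p
      simp only [Finset.mem_univ, Finset.mem_union, Finset.mem_filter, true_and, true_iff]
      rcases lt_trichotomy p.1 p.2 with h | h | h
      · exact Or.inl h
      · exact Or.inr (Or.inr h)
      · exact Or.inr (Or.inl h)
    have h5 : (univ : Finset (Fin n × Fin n)).card = n * n := by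
      rw [Finset.card_univ, Fintype.card_prod, Fintype.card_fin]
    have h6 := congrArg Finset.card h4
    rw [h5] at h6
    rw [h6, Finset.card_union_of_disjoint, Finset.card_union_of_disjoint]
    · rw [Finset.disjoint_filter]
      intro p _ hp hq
      exact absurd hq hp.ne'
    · rw [Finset.disjoint_union_right, Finset.disjoint_filter, Finset.disjoint_filter]
      exact ⟨fun p _ hp hq => absurd hq (not_lt.2 hp.le), fun p _ hp hq => absurd hq hp.ne⟩
  rw [← h1, h2] at h3
  have h6 : (n : ℝ) * n = ((univ.filter (fun p : Fin n × Fin n => p.1 < p.2)).card : ℝ) +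
      (((univ.filter (fun p : Fin n × Fin n => p.1 < p.2)).card : ℝ) + n) := by
    exact_mod_cast h3
  linarith

/-- the coordinate of a pair -/
private def cc67 {n : ℕ} {W : Type} (e : W → ℕ) (f : Fin n → W) (p : Fin n × Fin n) : W × W :=
  if e (f p.1) < e (f p.2) then (f p.1, f p.2) else (f p.2, f p.1)

private theorem cc_inj67 {n : ℕ} {W : Type} (e : W → ℕ) {f : Fin n → W} (hf : Function.Injective f)
    {p q : Fin n × Fin n} (hp : p.1 < p.2) (hq : q.1 < q.2) (h : cc67 e f p = cc67 e f q) : p = q := by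
  unfold cc67 at h
  have h1 : (f p.1 = f q.1 ∧ f p.2 = f q.2) ∨ (f p.1 = f q.2 ∧ f p.2 = f q.1) := by
    split_ifs at h <;> rw [Prod.mk.injEq] at h
    · exact Or.inl h
    · exact Or.inr h
    · exact Or.inr ⟨h.2, h.1⟩
    · exact Or.inl ⟨h.2, h.1⟩
  rcases h1 with ⟨h1, h2⟩ | ⟨h1, h2⟩
  · exact Prod.ext (hf h1) (hf h2)
  · exfalso
    have h3 := hf h1
    have h4 := hf h2
    rw [← h3, ← h4] at hq
    exact lt_asymm hp hq

private theorem adj67 {n : ℕ} {W β : Type} (e : W → ℕ) (he : Function.Injective e) {f : Fin n → W}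
    (hf : Function.Injective f) (ω : W × W → Bool × β) {p : Fin n × Fin n} (hp : p.1 < p.2) :
    ((Gr e ω).comap f).Adj p.1 p.2 ↔ (ω (cc67 e f p)).1 = true := by
  have hne : e (f p.1) ≠ e (f p.2) := fun h => hp.ne (hf (he h))
  rw [SimpleGraph.comap_adj]
  unfold cc67 Gr
  by_cases h : e (f p.1) < e (f p.2)
  · rw [if_pos h]
    constructor
    · rintro (h1 | h1)
      · exact h1.2
      · exact absurd h1.1 (lt_asymm h)
    · exact fun h1 => Or.inl ⟨h, h1⟩
  · rw [if_neg h]
    constructor
    · rintro (h1 | h1)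
      · exact absurd h1.1 h
      · exact h1.2
    · exact fun h1 => Or.inr ⟨lt_of_le_of_ne (not_lt.1 h) hne.symm, h1⟩

private theorem av_half67 {ι β : Type} [Fintype ι] [DecidableEq ι] [Fintype β] [Nonempty β] (c : ι) :
    Av (fun ω : ι → Bool × β => if (ω c).1 = true then (0 : ℝ) else 1) = 1 / 2 := by
  have h1 : Av (fun ω : ι → Bool × β => if (ω c).1 = true then (0 : ℝ) else 1) =
      Av (fun ω : ι → Bool × β => if (ω c).1 = true then (1 : ℝ) else 0) := by
    unfold Av
    congr 1
    rw [← Equiv.sum_comp (Equiv.piCongrRight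
      (fun _ : ι => (Equiv.boolNot.prodCongr (Equiv.refl β) : Bool × β ≃ Bool × β)))]
    refine Finset.sum_congr rfl fun ω _ => ?_
    have h2 : ((Equiv.piCongrRight (fun _ : ι =>
        (Equiv.boolNot.prodCongr (Equiv.refl β) : Bool × β ≃ Bool × β)) ω) c).1 = !(ω c).1 := rfl
    rw [h2]
    rcases Bool.eq_false_or_eq_true (ω c).1 with hb | hb <;> simp [hb]
  have h2 : Av (fun ω : ι → Bool × β => if (ω c).1 = true then (0 : ℝ) else 1) +
      Av (fun ω : ι → Bool × β => if (ω c).1 = true then (1 : ℝ) else 0) = 1 := by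
    have h3 : (fun ω : ι → Bool × β => (if (ω c).1 = true then (0 : ℝ) else 1) +
        (if (ω c).1 = true then (1 : ℝ) else 0)) = fun _ => (1 : ℝ) := by
      funext ω
      split_ifs <;> norm_num
    rw [← Av_add, h3]
    exact Av_const 1
  linarith

theorem edge_prob {n : ℕ} {W β : Type} [Fintype W] [DecidableEq W] [Fintype β] [Nonempty β] (e : W → ℕ)
    (he : Function.Injective e) (f : Fin n → W) (hf : Function.Injective f) {ε : ℝ} (hε : 0 < ε) (hε1 : ε ≤ 1) :
    Pr (fun ω : W × W → Bool × β =>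
      ((univ.filter (fun p : Fin n × Fin n => p.1 < p.2 ∧ ((Gr e ω).comap f).Adj p.1 p.2)).card : ℝ) ≤
        (1 / 2 - ε) * ((n : ℝ) * (n - 1) / 2)) ≤
      Real.exp (-((n : ℝ) * (n - 1) / 2 * ε ^ 2 / 4)) := by
  obtain ⟨K, hK⟩ : ∃ K, K = univ.filter (fun p : Fin n × Fin n => p.1 < p.2) := ⟨_, rfl⟩
  have hKc : (K.card : ℝ) = (n : ℝ) * (n - 1) / 2 := by rw [hK]; exact card_lt67 n
  have hKm : ∀ p ∈ K, p.1 < p.2 := fun p hp => by
    rw [hK] at hp
    exact (Finset.mem_filter.1 hp).2
  obtain ⟨F, hF⟩ : ∃ F : Fin n × Fin n → (W × W → Bool × β) → ℝ, ∀ p ω,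
      F p ω = if (ω (cc67 e f p)).1 = true then (0 : ℝ) else 1 := ⟨_, fun _ _ => rfl⟩
  have ht := tail K F (fun p => {cc67 e f p}) (M := 1) (μ := 1 / 2) (lam := ε) (by
      intro p _ ω ω' h
      rw [hF, hF, h (cc67 e f p) (Set.mem_singleton _)]) (by
      intro p hp q hq hne
      rw [Set.disjoint_singleton]
      exact fun h => hne (cc_inj67 e hf (hKm p hp) (hKm q hq) h))
    one_pos (by
      intro p _ ω
      rw [hF]
      split_ifs <;> norm_num) (by
      intro p _ ω
      rw [hF]
      split_ifs <;> norm_num) (by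
      intro p _
      have h1 : F p = fun ω => if (ω (cc67 e f p)).1 = true then (0 : ℝ) else 1 := funext (hF p)
      rw [h1, av_half67]) hε hε1
  rw [div_one, hKc] at ht
  refine le_trans (Pr_mono ?_) ht
  intro ω hω
  have hcount : ((univ.filter (fun p : Fin n × Fin n => p.1 < p.2 ∧ ((Gr e ω).comap f).Adj p.1 p.2)).card : ℝ) =
      ∑ p ∈ K, (1 - F p ω) := by
    rw [Finset.card_filter, hK, Finset.sum_filter]
    push_cast
    refine Finset.sum_congr rfl fun p _ => ?_
    by_cases hp : p.1 < p.2
    · rw [if_pos hp, hF]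
      by_cases hb : (ω (cc67 e f p)).1 = true
      · rw [if_pos hb, if_pos ⟨hp, (adj67 e he hf ω hp).2 hb⟩, sub_zero]
      · rw [if_neg hb, if_neg (fun h => hb ((adj67 e he hf ω hp).1 h.2)), sub_self]
    · rw [if_neg hp, if_neg (fun h => hp h.1)]
  rw [hcount, Finset.sum_sub_distrib, Finset.sum_const, nsmul_eq_mul, mul_one, hKc] at hω
  linarith

end Pool.Agent.Helper85.SAA
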