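import Pool.Agent.Helper85.SAA.PM
import Pool.Agent.Helper85.SAA.Cond
import Pool.Agent.Helper85.SAA.Comp

/-!
# Block SAA-FACT: the parts can be cut into independent blocks

For a set `S` of classes `(i, x)` let `Good S π ω` say that `¬ (Gr e ω).Adj (rel π (i, x, u)) (rel π (i, x', u))` for all `(i, x), (i, x') ∈ S` and all `u`. Claim:
`Pr (¬ ∃ π, Good S π ω) ≤ |S| * (h ^ 3 * (1 - (1/2) ^ b) ^ ((h + 1) / 2))`, `b = |X t q|`, by induction on `S` (`Finset.induction_on`); `S = ∅`: the event is empty. Step `S → insert (i, x0) S`: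
let `c ω = Classical.epsilon (fun π => Good S π ω)` (it depends only on the coordinates `s = {(y, z) : the classes of y and z are in S}`: if `ω, ω'` agree on `s` then
`Good S · ω = Good S · ω'`). For fixed `π` let `R ω u v := ∀ x, (i, x) ∈ S → ¬ (Gr e ω).Adj (rel π (i, x, u)) (i, x0, v)` and
`B π ω := ¬ ∃ ρ : Equiv.Perm (Fin h), ∀ u, R ω u (ρ u)`. `B π` depends only on the coordinates between the class `(i, x0)` and classes in `S` (disjoint from `s` as
`(i, x0) ∉ S`). `R · u v` depends on the coordinates between `rel π (i, x, u)` (`(i, x) ∈ S`) and `(i, x0, v)`, which are disjoint for different `(u, v)` (`π i x` is injective), and its probability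
is `(1/2)^m`, `m ≤ b` the number of these `x` (`av_prod` over the `x`; one pair: `Pr (¬ Adj y z) = 1/2` for `e y ≠ e z`: `pr_comp` with `κ = Unit`, half of `Al`). So `pr_no_matching` gives
`Pr (B π) ≤ h ^ 3 * (1 - (1/2) ^ b) ^ ((h + 1) / 2)` for every `π`, and `cond_union` the same for `B (c ω) ω`. If some `π` is good for `S` then `c ω` is; if moreover `¬ B (c ω) ω`,
take `ρ` and change `c ω` at `(i, x0)` to `ρ` (`Function.update`, the relabelled vertex `(i, x0, u)` becomes `(i, x0, ρ u)`): this is good for `insert (i, x0) S`.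
So `Pr (¬ ∃ π, Good (insert ..)) ≤ Pr (¬ ∃ π, Good S) + Pr (B (c ω) ω)` (`Pr_or_le`, `Pr_mono`). `S = univ`: `Good` is `Indep`, `|S| = (t + 2) b`.
-/

set_option autoImplicit false
set_option linter.unusedSectionVars false

namespace Pool.Agent.Helper85.SAA

open Finset
open scoped Classical

/-- the class of a vertex -/
private def fcl {t q h : ℕ} (v : V t q h) : Fin (t + 2) × X t q := (v.1, v.2.1)

private theorem fcl_rel {t q h : ℕ} (π : Fin (t + 2) → X t q → Equiv.Perm (Fin h)) (i : Fin (t + 2))
    (x : X t q) (u : Fin h) : fcl (rel π (i, x, u)) = (i, x) := rfl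

private theorem fadj_congr {t q h : ℕ} (e : V t q h → ℕ) {ω ω' : V t q h × V t q h → Al t q}
    {y z : V t q h} (h1 : ω (y, z) = ω' (y, z)) (h2 : ω (z, y) = ω' (z, y)) :
    (Gr e ω).Adj y z ↔ (Gr e ω').Adj y z := by
  show ((e y < e z ∧ (ω (y, z)).1 = true) ∨ (e z < e y ∧ (ω (z, y)).1 = true)) ↔
    ((e y < e z ∧ (ω' (y, z)).1 = true) ∨ (e z < e y ∧ (ω' (z, y)).1 = true))
  rw [h1, h2]

/-- the classes in `S` are cut into independent blocks -/
private def FGood {t q h : ℕ} (e : V t q h → ℕ) (S : Finset (Fin (t + 2) × X t q))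
    (π : Fin (t + 2) → X t q → Equiv.Perm (Fin h)) (ω : V t q h × V t q h → Al t q) : Prop :=
  ∀ (i : Fin (t + 2)) (x x' : X t q), (i, x) ∈ S → (i, x') ∈ S → ∀ u : Fin h,
    ¬ (Gr e ω).Adj (rel π (i, x, u)) (rel π (i, x', u))

private def FR {t q h : ℕ} (e : V t q h → ℕ) (S : Finset (Fin (t + 2) × X t q)) (i0 : Fin (t + 2))
    (x0 : X t q) (π : Fin (t + 2) → X t q → Equiv.Perm (Fin h)) (ω : V t q h × V t q h → Al t q)
    (u v : Fin h) : Prop :=
  ∀ x : X t q, (i0, x) ∈ S → ¬ (Gr e ω).Adj (rel π (i0, x, u)) (i0, x0, v)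

private def Fz {α' : Type} (f : Unit → Bool × α') : Prop := ¬ (f ()).1 = true

private theorem half_coord {ι α' : Type} [Fintype ι] [DecidableEq ι] [Fintype α'] [Nonempty α'] (c : ι) :
    Pr (fun ω : ι → Bool × α' => ¬ (ω c).1 = true) = 1 / 2 := by
  have h1 := pr_comp (ι := ι) (α := Bool × α') (κ := Unit) (fun _ => c)
    (fun a b _ => Subsingleton.elim a b) id Function.bijective_id Fz
  have h2 : Pr (fun ω : ι → Bool × α' => ¬ (ω c).1 = true) =
      ((univ.filter (Fz (α' := α'))).card : ℝ) /
        (Fintype.card (Unit → Bool × α') : ℝ) := h1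
  rw [h2]
  have h3 : (univ.filter (Fz (α' := α'))).card = (univ.filter (fun f => ¬ Fz (α' := α') f)).card := by
    refine Finset.card_bij' (fun f _ => fun u => (!(f u).1, (f u).2))
      (fun f _ => fun u => (!(f u).1, (f u).2)) ?_ ?_ ?_ ?_
    · intro f hf
      simp only [mem_filter, mem_univ, true_and, Fz] at hf ⊢
      simpa using hf
    · intro f hf
      simp only [mem_filter, mem_univ, true_and, Fz] at hf ⊢
      simpa using hf
    · intro f _
      funext u
      simp
    · intro f _
      funext u
      simp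
  have h4 : (univ.filter (Fz (α' := α'))).card + (univ.filter (fun f => ¬ Fz (α' := α') f)).card =
      Fintype.card (Unit → Bool × α') := by
    rw [Finset.card_filter_add_card_filter_not]
    rfl
  have h5 : (0 : ℝ) < (Fintype.card (Unit → Bool × α') : ℝ) := by exact_mod_cast Fintype.card_pos
  rw [div_eq_iff h5.ne']
  rw [← h3] at h4
  rw [← h4]
  push_cast
  ring

private def FN {t q h : ℕ} (e : V t q h → ℕ) (y z : V t q h) (ω : V t q h × V t q h → Al t q) : Prop :=
  ¬ (Gr e ω).Adj y z

private theorem pr_nadj {t q h : ℕ} (e : V t q h → ℕ) {y z : V t q h} (hyz : e y ≠ e z) :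
    Pr (fun ω : V t q h × V t q h → Al t q => ¬ (Gr e ω).Adj y z) = 1 / 2 := by
  rcases lt_or_gt_of_ne hyz with hlt | hlt
  · have h1 : (fun ω : V t q h × V t q h → Al t q => ¬ (Gr e ω).Adj y z) =
        fun ω => ¬ (ω (y, z)).1 = true := by
      funext ω
      have : (Gr e ω).Adj y z ↔ (ω (y, z)).1 = true := by
        show ((e y < e z ∧ (ω (y, z)).1 = true) ∨ (e z < e y ∧ (ω (z, y)).1 = true)) ↔ _
        constructor
        · rintro (⟨_, h⟩ | ⟨h, _⟩)
          · exact h
          · omega
        · intro h
          exact Or.inl ⟨hlt, h⟩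
      rw [this]
    rw [h1]
    exact half_coord (y, z)
  · have h1 : (fun ω : V t q h × V t q h → Al t q => ¬ (Gr e ω).Adj y z) =
        fun ω => ¬ (ω (z, y)).1 = true := by
      funext ω
      have : (Gr e ω).Adj y z ↔ (ω (z, y)).1 = true := by
        show ((e y < e z ∧ (ω (y, z)).1 = true) ∨ (e z < e y ∧ (ω (z, y)).1 = true)) ↔ _
        constructor
        · rintro (⟨h, _⟩ | ⟨_, h⟩)
          · omega
          · exact h
        · intro h
          exact Or.inr ⟨hlt, h⟩
      rw [this]
    rw [h1]
    exact half_coord (z, y)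

private theorem pr_FR {t q h : ℕ} (e : V t q h → ℕ) (he : Function.Injective e)
    (S : Finset (Fin (t + 2) × X t q)) (i0 : Fin (t + 2)) (x0 : X t q) (h0 : (i0, x0) ∉ S)
    (π : Fin (t + 2) → X t q → Equiv.Perm (Fin h)) (u v : Fin h) :
    (1 / 2 : ℝ) ^ (Fintype.card (X t q)) ≤ Pr (fun ω => FR e S i0 x0 π ω u v) := by
  set K : Finset (X t q) := univ.filter (fun x => (i0, x) ∈ S) with hK
  have hne : ∀ x ∈ K, rel π (i0, x, u) ≠ (i0, x0, v) := by
    intro x hx heq
    rw [hK, mem_filter] at hx
    have h1 : x = x0 := congrArg (fun w : V t q h => w.2.1) heq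
    rw [h1] at hx
    exact h0 hx.2
  have h1 : Pr (fun ω => FR e S i0 x0 π ω u v) =
      Av (fun ω : V t q h × V t q h → Al t q =>
        ∏ x ∈ K, (if FN e (rel π (i0, x, u)) (i0, x0, v) ω then (1 : ℝ) else 0)) := by
    unfold Pr
    congr 1
    funext ω
    by_cases hR : FR e S i0 x0 π ω u v
    · rw [if_pos hR]
      symm
      apply Finset.prod_eq_one
      intro x hx
      rw [hK, mem_filter] at hx
      exact if_pos (hR x hx.2)
    · rw [if_neg hR]
      symm
      unfold FR at hR
      push Not at hR
      obtain ⟨x, hx, hadj⟩ := hR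
      apply Finset.prod_eq_zero (i := x)
      · rw [hK, mem_filter]
        exact ⟨mem_univ _, hx⟩
      · exact if_neg (not_not.2 hadj)
  rw [h1, av_prod K _ (fun x => {c | c = (rel π (i0, x, u), (i0, x0, v)) ∨
    c = ((i0, x0, v), rel π (i0, x, u))})]
  · have h2 : ∀ x ∈ K, Av (fun ω : V t q h × V t q h → Al t q =>
        if FN e (rel π (i0, x, u)) (i0, x0, v) ω then (1 : ℝ) else 0) = 1 / 2 := by
      intro x hx
      exact pr_nadj e (fun h => hne x hx (he h))
    rw [Finset.prod_congr rfl h2, Finset.prod_const]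
    exact pow_le_pow_of_le_one (by norm_num) (by norm_num) (Finset.card_le_univ K)
  · intro x _ ω ω' hω
    have h3 := hω (rel π (i0, x, u), (i0, x0, v)) (Or.inl rfl)
    have h4 := hω ((i0, x0, v), rel π (i0, x, u)) (Or.inr rfl)
    have h7 : FN e (rel π (i0, x, u)) (i0, x0, v) ω = FN e (rel π (i0, x, u)) (i0, x0, v) ω' :=
      propext (not_congr (fadj_congr e h3 h4))
    show (if FN e (rel π (i0, x, u)) (i0, x0, v) ω then (1 : ℝ) else 0) =
      if FN e (rel π (i0, x, u)) (i0, x0, v) ω' then (1 : ℝ) else 0
    rw [h7]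
  · intro x hx x' hx' hxx'
    rw [Set.disjoint_left]
    intro c hc hc'
    rcases hc with hc | hc <;> rcases hc' with hc' | hc'
    · have h5 := hc.symm.trans hc'
      rw [Prod.mk.injEq] at h5
      have h6 := rel_injective π h5.1
      simp only [Prod.mk.injEq, true_and, and_true] at h6
      exact hxx' h6
    · have h5 := hc.symm.trans hc'
      rw [Prod.mk.injEq] at h5
      exact hne x hx h5.1
    · have h5 := hc.symm.trans hc'
      rw [Prod.mk.injEq] at h5
      exact hne x hx h5.2
    · have h5 := hc.symm.trans hc'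
      rw [Prod.mk.injEq] at h5
      have h6 := rel_injective π h5.2
      simp only [Prod.mk.injEq, true_and, and_true] at h6
      exact hxx' h6

private theorem factor_ind (t q h : ℕ) (e : V t q h → ℕ) (he : Function.Injective e)
    (S : Finset (Fin (t + 2) × X t q)) :
    Pr (fun ω : V t q h × V t q h → Al t q => ¬ ∃ π, FGood e S π ω) ≤
      (S.card : ℝ) * ((h : ℝ) ^ 3 * (1 - (1 / 2 : ℝ) ^ (Fintype.card (X t q))) ^ ((h + 1) / 2)) := by
  induction S using Finset.induction_on with
  | empty =>
      have h1 : Pr (fun ω : V t q h × V t q h → Al t q =>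
          ¬ ∃ π, FGood e (∅ : Finset (Fin (t + 2) × X t q)) π ω) ≤
          Pr (fun _ : V t q h × V t q h → Al t q => False) := by
        apply Pr_mono
        intro ω hω
        apply hω
        exact ⟨fun _ _ => 1, fun i x x' hx => absurd hx (Finset.notMem_empty _)⟩
      refine h1.trans ?_
      rw [Finset.card_empty, Nat.cast_zero, zero_mul]
      unfold Pr
      simp only [if_false]
      rw [Av_const]
  | insert a S ha ih =>
      obtain ⟨i0, x0⟩ := a
      set β : ℝ := (h : ℝ) ^ 3 * (1 - (1 / 2 : ℝ) ^ (Fintype.card (X t q))) ^ ((h + 1) / 2) with hβ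
      let c : (V t q h × V t q h → Al t q) → (Fin (t + 2) → X t q → Equiv.Perm (Fin h)) :=
        fun ω => Classical.epsilon (fun π => FGood e S π ω)
      let B : (Fin (t + 2) → X t q → Equiv.Perm (Fin h)) → (V t q h × V t q h → Al t q) → Prop :=
        fun π ω => ¬ ∃ ρ : Equiv.Perm (Fin h), ∀ u, FR e S i0 x0 π ω u (ρ u)
      let s : Set (V t q h × V t q h) := {p | fcl p.1 ∈ S ∧ fcl p.2 ∈ S}
      let s' : Set (V t q h × V t q h) :=
        {p | (fcl p.1 ∈ S ∧ fcl p.2 = (i0, x0)) ∨ (fcl p.1 = (i0, x0) ∧ fcl p.2 ∈ S)}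
      have hc : DependsOn c s := by
        intro ω ω' hω
        show Classical.epsilon (fun π => FGood e S π ω) = Classical.epsilon (fun π => FGood e S π ω')
        congr 1
        funext π
        apply propext
        unfold FGood
        refine forall_congr' fun i => forall_congr' fun x => forall_congr' fun x' =>
          forall_congr' fun hx => forall_congr' fun hx' => forall_congr' fun u => not_congr ?_
        exact fadj_congr e (hω _ ⟨hx, hx'⟩) (hω _ ⟨hx', hx⟩)
      have hB : ∀ π, DependsOn (B π) s' := by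
        intro π ω ω' hω
        show (¬ ∃ ρ : Equiv.Perm (Fin h), ∀ u, FR e S i0 x0 π ω u (ρ u)) =
          ¬ ∃ ρ : Equiv.Perm (Fin h), ∀ u, FR e S i0 x0 π ω' u (ρ u)
        apply propext
        refine not_congr (exists_congr fun ρ => forall_congr' fun u => ?_)
        unfold FR
        refine forall_congr' fun x => forall_congr' fun hx => not_congr ?_
        exact fadj_congr e (hω _ (Or.inl ⟨hx, rfl⟩)) (hω _ (Or.inr ⟨rfl, hx⟩))
      have hst : Disjoint s s' := by
        rw [Set.disjoint_left]
        rintro p ⟨h1, h2⟩ (⟨_, h3⟩ | ⟨h3, _⟩)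
        · rw [h3] at h2
          exact ha h2
        · rw [h3] at h1
          exact ha h1
      have hBβ : ∀ π, Pr (B π) ≤ β := by
        intro π
        refine pr_no_matching (fun ω u v => FR e S i0 x0 π ω u v)
          (fun u v => {p | ∃ x, (i0, x) ∈ S ∧ (p = (rel π (i0, x, u), (i0, x0, v)) ∨
            p = ((i0, x0, v), rel π (i0, x, u)))}) ?_ ?_ _ (by positivity) ?_ ?_
        · intro u v ω ω' hω
          show FR e S i0 x0 π ω u v = FR e S i0 x0 π ω' u v
          apply propext
          unfold FR
          refine forall_congr' fun x => forall_congr' fun hx => not_congr ?_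
          exact fadj_congr e (hω _ ⟨x, hx, Or.inl rfl⟩) (hω _ ⟨x, hx, Or.inr rfl⟩)
        · intro u v u' v' huv
          have hne : ∀ (x : X t q) (w w' : Fin h), (i0, x) ∈ S → rel π (i0, x, w) ≠ (i0, x0, w') := by
            intro x w w' hx heq
            have h1 : x = x0 := congrArg (fun w : V t q h => w.2.1) heq
            rw [h1] at hx
            exact ha hx
          rw [Set.disjoint_left]
          rintro p ⟨x, hx, hp⟩ ⟨x', hx', hp'⟩
          rcases hp with hp | hp <;> rcases hp' with hp' | hp'
          · have h5 := hp.symm.trans hp'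
            rw [Prod.mk.injEq] at h5
            have h6 := rel_injective π h5.1
            have h7 := h5.2
            simp only [Prod.mk.injEq, true_and] at h6 h7
            exact huv (by rw [h6.2, h7])
          · have h5 := hp.symm.trans hp'
            rw [Prod.mk.injEq] at h5
            exact hne x u v' hx h5.1
          · have h5 := hp.symm.trans hp'
            rw [Prod.mk.injEq] at h5
            exact hne x u v' hx h5.2
          · have h5 := hp.symm.trans hp'
            rw [Prod.mk.injEq] at h5
            have h6 := rel_injective π h5.2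
            have h7 := h5.1
            simp only [Prod.mk.injEq, true_and] at h6 h7
            exact huv (by rw [h6.2, h7])
        · exact pow_le_one₀ (by norm_num) (by norm_num)
        · intro u v
          exact pr_FR e he S i0 x0 ha π u v
      have hBc : Pr (fun ω => B (c ω) ω) ≤ β := cond_union c B s s' hc hB hst β hBβ
      have hstep : Pr (fun ω : V t q h × V t q h → Al t q => ¬ ∃ π, FGood e (insert (i0, x0) S) π ω) ≤
          Pr (fun ω : V t q h × V t q h → Al t q => (¬ ∃ π, FGood e S π ω) ∨ B (c ω) ω) := by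
        apply Pr_mono
        intro ω hω
        by_contra hcon
        rw [not_or, not_not] at hcon
        obtain ⟨hex, hnB⟩ := hcon
        have hg : FGood e S (c ω) ω := Classical.epsilon_spec hex
        have hnB' : ∃ ρ : Equiv.Perm (Fin h), ∀ u, FR e S i0 x0 (c ω) ω u (ρ u) := not_not.1 hnB
        obtain ⟨ρ, hρ⟩ := hnB'
        apply hω
        set π0 := c ω with hπ0
        refine ⟨fun i x => if (i, x) = (i0, x0) then ρ else π0 i x, ?_⟩
        have hrS : ∀ (i : Fin (t + 2)) (x : X t q) (u : Fin h), (i, x) ∈ S →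
            rel (fun i x => if (i, x) = (i0, x0) then ρ else π0 i x) (i, x, u) = rel π0 (i, x, u) := by
          intro i x u hx
          have h1 : (i, x) ≠ (i0, x0) := by
            intro heq
            rw [heq] at hx
            exact ha hx
          show (i, x, (if (i, x) = (i0, x0) then ρ else π0 i x) u) = (i, x, π0 i x u)
          rw [if_neg h1]
        have hr0 : ∀ (u : Fin h),
            rel (fun i x => if (i, x) = (i0, x0) then ρ else π0 i x) (i0, x0, u) = (i0, x0, ρ u) := by
          intro u
          show (i0, x0, (if (i0, x0) = (i0, x0) then ρ else π0 i0 x0) u) = (i0, x0, ρ u)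
          rw [if_pos rfl]
        intro i x x' hx hx' u
        rw [Finset.mem_insert] at hx hx'
        rcases hx with hx | hx <;> rcases hx' with hx' | hx'
        · have h1 := hx.trans hx'.symm
          rw [Prod.mk.injEq] at h1
          rw [h1.2]
          exact (Gr e ω).irrefl
        · rw [Prod.mk.injEq] at hx
          obtain ⟨rfl, rfl⟩ := hx
          rw [hr0, hrS _ _ _ hx']
          intro hadj
          exact hρ u x' hx' hadj.symm
        · rw [Prod.mk.injEq] at hx'
          obtain ⟨rfl, rfl⟩ := hx'
          rw [hr0, hrS _ _ _ hx]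
          exact hρ u x hx
        · rw [hrS _ _ _ hx, hrS _ _ _ hx']
          exact hg i x x' hx hx' u
      refine hstep.trans ((Pr_or_le _ _).trans ?_)
      rw [Finset.card_insert_of_notMem ha]
      push_cast
      have := add_le_add ih hBc
      linarith

theorem factor (t q h : ℕ) (e : V t q h → ℕ) (he : Function.Injective e) :
    Pr (fun ω : V t q h × V t q h → Al t q => ¬ ∃ π, Indep e π ω) ≤
      (((t : ℝ) + 2) * (Fintype.card (X t q) : ℝ)) *
        ((h : ℝ) ^ 3 * (1 - (1 / 2 : ℝ) ^ (Fintype.card (X t q))) ^ ((h + 1) / 2)) := by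
  have h1 := factor_ind t q h e he univ
  have h2 : ((univ : Finset (Fin (t + 2) × X t q)).card : ℝ) =
      ((t : ℝ) + 2) * (Fintype.card (X t q) : ℝ) := by
    rw [Finset.card_univ, Fintype.card_prod, Fintype.card_fin]
    push_cast
    ring
  rw [h2] at h1
  refine (Pr_mono ?_).trans h1
  intro ω hω hex
  obtain ⟨π, hπ⟩ := hex
  exact hω ⟨π, fun i u x x' => hπ i x x' (mem_univ _) (mem_univ _) u⟩

end Pool.Agent.Helper85.SAA
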