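import Pool.Agent.Helper85.SAA.Defs

/-!
# Block SAA-MONO: monotonicity of `zeta` and the lower bound for `arb`

`zeta_comap_le`: let `c` be a strongly woody colouring of `G` with `zeta G` colours (the infimum is attained:
`Helper83.SA.exists_injective_colouring`, `Nat.sInf_mem`); the colouring `e ↦ c (e.map f)` of `G.comap f` is strongly woody, since the image of a cycle under the injective
homomorphism `f` is a cycle (`SimpleGraph.Walk.map_isCycle_of_injective` or similar, `Walk.edges_map`).
`edges_le`: take a woody colouring with `arb G` colours (`exists_woody_arb`); every class is acyclic (`Woody.isAcyclic_cls`), so it has at most `n - 1` edges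
(`sum_degree_le_of_isAcyclic` with `S = univ`: the sum of the degrees is at most `2 (n - 1)`, and it is twice the number of pairs `p.1 < p.2`; for `n = 0` both sides are zero).
-/

set_option autoImplicit false
set_option linter.unusedSectionVars false

namespace Pool.Agent.Helper85.SAA

open Finset
open scoped Classical

open Pool.Agent.Helper83.SA

/-- the infimum in the definition of `zeta` is attained -/
private theorem exists_strong_zeta {W : Type} [Fintype W] (G : SimpleGraph W) :
    ∃ c : Sym2 W → ℕ, (∀ e ∈ G.edgeSet, c e < zeta G) ∧ StronglyWoody G c := by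
  have hne : {k : ℕ | ∃ c : Sym2 W → ℕ, (∀ e ∈ G.edgeSet, c e < k) ∧ StronglyWoody G c}.Nonempty := by
    obtain ⟨k, c, hc, hw⟩ := exists_injective_colouring G
    exact ⟨k, c, hc, hw⟩
  exact Nat.sInf_mem hne

theorem zeta_comap_le {W W' : Type} [Fintype W] [Fintype W'] (G : SimpleGraph W) (f : W' → W) (hf : Function.Injective f) :
    zeta (G.comap f) ≤ zeta G := by
  obtain ⟨c, hc, hs⟩ := exists_strong_zeta G
  have hmap : ∀ e ∈ (G.comap f).edgeSet, e.map f ∈ G.edgeSet := by
    intro e he
    induction e using Sym2.ind with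
    | h x y => exact he
  refine zeta_le (c := fun e => c (e.map f)) (fun e he => hc _ (hmap e he)) ?_
  intro v w hw e he i
  let φ : G.comap f →g G := ⟨f, fun {_ _} h => h⟩
  have hcyc : (w.map φ).IsCycle := (SimpleGraph.Walk.isCycle_map_iff_of_injective (f := φ) hf).mpr hw
  have hed : (w.map φ).edges = w.edges.map (Sym2.map f) := SimpleGraph.Walk.edges_map φ w
  have he' : e.map f ∈ (w.map φ).edges := by
    rw [hed]
    exact List.mem_map_of_mem he
  obtain ⟨g, hg, hge, hgi⟩ := hs _ _ hcyc _ he' i
  rw [hed, List.mem_map] at hg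
  obtain ⟨g', hg', rfl⟩ := hg
  exact ⟨g', hg', fun h => hge (by rw [h]), hgi⟩

theorem edges_le {n : ℕ} (G : SimpleGraph (Fin n)) :
    (univ.filter (fun p : Fin n × Fin n => p.1 < p.2 ∧ G.Adj p.1 p.2)).card ≤ arb G * (n - 1) := by
  rcases Nat.eq_zero_or_pos n with h0 | h0
  · subst h0
    simp
  obtain ⟨c, hc, hw⟩ := exists_woody_arb G
  have hne : (univ : Finset (Fin n)).Nonempty := ⟨⟨0, h0⟩, mem_univ _⟩
  -- one class
  have h1 : ∀ i : ℕ, (univ.filter (fun p : Fin n × Fin n => p.1 < p.2 ∧ (cls G c i).Adj p.1 p.2)).card ≤ n - 1 := by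
    intro i
    have h2 := sum_degree_le_of_isAcyclic (cls G c i) (hw.isAcyclic_cls i) univ hne
    rw [card_univ, Fintype.card_fin] at h2
    have h3 : ∑ v : Fin n, ((univ : Finset (Fin n)).filter (fun y => (cls G c i).Adj v y)).card =
        (univ.filter (fun p : Fin n × Fin n => (cls G c i).Adj p.1 p.2)).card := by
      rw [card_filter, ← univ_product_univ, sum_product]
      exact sum_congr rfl fun v _ => by rw [card_filter]
    have h4 : (univ.filter (fun p : Fin n × Fin n => (cls G c i).Adj p.1 p.2)).card =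
        (univ.filter (fun p : Fin n × Fin n => p.1 < p.2 ∧ (cls G c i).Adj p.1 p.2)).card +
          (univ.filter (fun p : Fin n × Fin n => p.2 < p.1 ∧ (cls G c i).Adj p.1 p.2)).card := by
      rw [← card_union_of_disjoint]
      · congr 1
        ext p
        simp only [mem_filter, mem_univ, true_and, mem_union]
        constructor
        · intro h
          rcases lt_or_gt_of_ne h.ne with h5 | h5
          · exact Or.inl ⟨h5, h⟩
          · exact Or.inr ⟨h5, h⟩
        · rintro (h | h)
          · exact h.2
          · exact h.2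
      · rw [disjoint_left]
        intro p hp1 hp2
        rw [mem_filter] at hp1 hp2
        exact absurd hp1.2.1 (not_lt.mpr hp2.2.1.le)
    have h5 : (univ.filter (fun p : Fin n × Fin n => p.2 < p.1 ∧ (cls G c i).Adj p.1 p.2)).card =
        (univ.filter (fun p : Fin n × Fin n => p.1 < p.2 ∧ (cls G c i).Adj p.1 p.2)).card := by
      refine card_bij' (fun p _ => p.swap) (fun p _ => p.swap) ?_ ?_ ?_ ?_
      · intro p hp
        rw [mem_filter] at hp ⊢
        exact ⟨mem_univ _, hp.2.1, hp.2.2.symm⟩
      · intro p hp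
        rw [mem_filter] at hp ⊢
        exact ⟨mem_univ _, hp.2.1, hp.2.2.symm⟩
      · intro p _; simp
      · intro p _; simp
    omega
  -- the classes cover
  have h2 : (univ.filter (fun p : Fin n × Fin n => p.1 < p.2 ∧ G.Adj p.1 p.2)) ⊆
      (range (arb G)).biUnion (fun i => univ.filter (fun p : Fin n × Fin n => p.1 < p.2 ∧ (cls G c i).Adj p.1 p.2)) := by
    intro p hp
    rw [mem_filter] at hp
    rw [mem_biUnion]
    exact ⟨c s(p.1, p.2), mem_range.mpr (hc _ hp.2.2), mem_filter.mpr ⟨mem_univ _, hp.2.1, hp.2.2, rfl⟩⟩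
  calc (univ.filter (fun p : Fin n × Fin n => p.1 < p.2 ∧ G.Adj p.1 p.2)).card
      ≤ ((range (arb G)).biUnion (fun i => univ.filter (fun p : Fin n × Fin n => p.1 < p.2 ∧ (cls G c i).Adj p.1 p.2))).card :=
        card_le_card h2
    _ ≤ ∑ i ∈ range (arb G), (univ.filter (fun p : Fin n × Fin n => p.1 < p.2 ∧ (cls G c i).Adj p.1 p.2)).card := card_biUnion_le
    _ ≤ ∑ _i ∈ range (arb G), (n - 1) := sum_le_sum fun i _ => h1 i
    _ = arb G * (n - 1) := by rw [sum_const, card_range, smul_eq_mul]

theorem arb_le_zeta {W : Type} [Fintype W] (G : SimpleGraph W) : arb G ≤ zeta G := by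
  obtain ⟨c, hc, hs⟩ := exists_strong_zeta G
  exact Nat.sInf_le ⟨c, hc, hs.woody⟩

end Pool.Agent.Helper85.SAA
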