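import Pool.Agent.Helper85.SAA.Defs

/-!
# Block SAA-RULE: the rule which cuts the star of a centre in a block into groups

`X t q = Fin (q + 1) × Fin (t + 1)`, `b = (q + 1) (t + 1)` its cardinality, `(l, o)` is in the group `l`. For `s : X → Bool × Bool` let
`S(s) = {x | s x = (true, true)}`.
(1) There is `γ : (X → Bool × Bool) → Equiv.Perm X` with `(γ s x).1 * (t + 1) < |S(s)|` for all `x ∈ S(s)`: number `X` by `num (l, o) = l (t + 1) + o` and let
`γ s` map `S(s)` onto the first `|S(s)|` positions (any bijection of `S(s)` with this set extended to a permutation, e.g. `Equiv.extendSubtype`), and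
`l (t + 1) ≤ num (l, o) < |S(s)|`.
(2) For a label `(τ, r) ∈ Equiv.Perm X × Fin (q + 1)` let `s' = s ∘ τ⁻¹` and `rule (s, τ, r) = ρ_r * γ s' * τ` where `ρ_r (l, o) = (l + r, o)`. For
`f : X → Al t q` put `σ f = rule (s, τ, r)` with `s x = ((f x).1, (f x).2.1)` and `(τ, r) = (f x0).2.2`, `x0 = (0, 0)`.
(3) Count for fixed `k, l`. If `rule (s, τ, r) = k` and `x ∈ S(s)`, `(k x).1 = l` then `y = τ x ∈ S(s')` and `l = (γ s' y).1 + r`. So
`(l - r : Fin (q + 1)) * (t + 1) < |S(s')|` (value of `Fin`). The map `(s, τ, r) ↦ (s', rule (s, τ, r), r)` is a bijection (given `s', k, r`: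
`τ = (γ s')⁻¹ ρ_r⁻¹ k`, `s = s' ∘ τ`). So the number of `(s, τ, r)` with `rule = k` and such an `x` is at most the number of `(s', r)` with
`(l - r) * (t + 1) < |S(s')|`, i.e. at most `∑_{s'} (|S(s')| / (t + 1) + 1)` (the number of `j ∈ ℕ` with `j (t + 1) < m` is at most `m / (t + 1) + 1`).
`∑_{s'} |S(s')| = b 4^(b - 1)` (exchange the sums: for every `x` a quarter of all `s'`). So the number is at most
`4^b (b / (4 (t + 1)) + 1) = 4^b (q + 1) (1/4 + 1/(q + 1))`.
(4) The number of `f : X → Al` with given `s` and given label at `x0` is `|Lb|^(b - 1)`; `|X → Al| = 4^b |Lb|^b`, `|Lb| = b! (q + 1)`, `|Equiv.Perm X| = b!`. So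
`#{f} * b! ≤ |Lb|^(b - 1) * 4^b (q + 1) (1/4 + 1/(q + 1)) * b! = (1/4 + 1/(q + 1)) |X → Al|`.
-/

set_option autoImplicit false
set_option linter.unusedSectionVars false

namespace Pool.Agent.Helper85.SAA

open Finset
open scoped Classical

/-- the positions at which a pattern is `(true, true)` -/
private def SS32 {t q : ℕ} (s : X t q → Bool × Bool) : Finset (X t q) :=
  univ.filter (fun x => s x = (true, true))

private theorem exists_perm32 {t q : ℕ} (S : Finset (X t q)) :
    ∃ g : Equiv.Perm (X t q), ∀ x ∈ S, ((g x).1 : ℕ) * (t + 1) < S.card := by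
  have hS : S.card ≤ (q + 1) * (t + 1) := by
    have h := Finset.card_le_univ S
    simpa using h
  have hc : Fintype.card {y : X t q // (finProdFinEquiv y : ℕ) < S.card} = S.card := by
    have e : {y : X t q // (finProdFinEquiv y : ℕ) < S.card} ≃ Fin S.card :=
      { toFun := fun y => ⟨(finProdFinEquiv y.1 : ℕ), y.2⟩
        invFun := fun i => ⟨finProdFinEquiv.symm ⟨(i : ℕ), lt_of_lt_of_le i.2 hS⟩, by
          rw [Equiv.apply_symm_apply]
          exact i.2⟩
        left_inv := fun y => by
          apply Subtype.ext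
          exact finProdFinEquiv.symm_apply_apply y.1
        right_inv := fun i => by
          apply Fin.ext
          show (finProdFinEquiv (finProdFinEquiv.symm ⟨(i : ℕ), lt_of_lt_of_le i.2 hS⟩) : ℕ) = i
          rw [Equiv.apply_symm_apply] }
    rw [Fintype.card_congr e, Fintype.card_fin]
  have hc2 : Fintype.card {y : X t q // y ∈ S} =
      Fintype.card {y : X t q // (finProdFinEquiv y : ℕ) < S.card} := by
    rw [hc, Fintype.card_coe]
  obtain ⟨e⟩ : Nonempty ({y : X t q // y ∈ S} ≃ {y : X t q // (finProdFinEquiv y : ℕ) < S.card}) :=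
    Fintype.card_eq.mp hc2
  refine ⟨e.extendSubtype, fun x hx => ?_⟩
  have h := e.extendSubtype_mem x hx
  have h2 : (finProdFinEquiv (e.extendSubtype x) : ℕ) =
      ((e.extendSubtype x).2 : ℕ) + (t + 1) * ((e.extendSubtype x).1 : ℕ) := rfl
  rw [h2] at h
  nlinarith [Nat.zero_le ((e.extendSubtype x).2 : ℕ)]

/-- rotation of the groups -/
private def rho32 {t q : ℕ} (r : Fin (q + 1)) : Equiv.Perm (X t q) :=
  Equiv.prodCongr (Equiv.addRight r) (Equiv.refl _)

private theorem rho_apply32 {t q : ℕ} (r : Fin (q + 1)) (x : X t q) :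
    (rho32 r x).1 = x.1 + r := rfl

private theorem card_fix32 {ι β : Type} [Fintype ι] [DecidableEq ι] [Fintype β] (x0 : ι) (v : β) :
    (univ.filter (fun f : ι → β => f x0 = v)).card * Fintype.card β = Fintype.card (ι → β) := by
  have e : {f : ι → β // f x0 = v} × β ≃ (ι → β) :=
    { toFun := fun p => Function.update p.1.1 x0 p.2
      invFun := fun f => (⟨Function.update f x0 v, by simp⟩, f x0)
      left_inv := by
        rintro ⟨⟨f, hf⟩, b⟩
        subst hf
        simp
      right_inv := fun f => by simp }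
  rw [← Fintype.card_congr e, Fintype.card_prod, Fintype.card_subtype]

private theorem sum_SS32 (t q : ℕ) :
    (∑ s : X t q → Bool × Bool, ((SS32 s).card : ℝ)) =
      (Fintype.card (X t q) : ℝ) * (Fintype.card (X t q → Bool × Bool) : ℝ) / 4 := by
  have h1 : ∀ s : X t q → Bool × Bool, ((SS32 s).card : ℝ) =
      ∑ x : X t q, if s x = (true, true) then (1 : ℝ) else 0 := by
    intro s
    rw [SS32, Finset.sum_ite, Finset.sum_const_zero, add_zero, Finset.sum_const, nsmul_eq_mul, mul_one]
  have h2 : ∀ x : X t q, (∑ s : X t q → Bool × Bool, if s x = (true, true) then (1 : ℝ) else 0) =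
      (Fintype.card (X t q → Bool × Bool) : ℝ) / 4 := by
    intro x
    rw [Finset.sum_ite, Finset.sum_const_zero, add_zero, Finset.sum_const, nsmul_eq_mul, mul_one]
    have h := card_fix32 (β := Bool × Bool) x (true, true)
    have h4 : Fintype.card (Bool × Bool) = 4 := by simp
    rw [h4] at h
    have h5 : ((univ.filter (fun s : X t q → Bool × Bool => s x = (true, true))).card : ℝ) * 4 =
        (Fintype.card (X t q → Bool × Bool) : ℝ) := by
      rw [← h]
      push_cast
      congr
    rw [← h5]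
    ring
  rw [Finset.sum_congr rfl (fun s _ => h1 s), Finset.sum_comm, Finset.sum_congr rfl (fun x _ => h2 x),
    Finset.sum_const, nsmul_eq_mul, Finset.card_univ]
  ring

private theorem card_r32 {t q : ℕ} (l : Fin (q + 1)) (m : ℕ) :
    ((univ.filter (fun r : Fin (q + 1) => ((l - r : Fin (q + 1)) : ℕ) * (t + 1) < m)).card : ℝ) ≤
      (m : ℝ) / ((t : ℝ) + 1) + 1 := by
  have h1 : (univ.filter (fun r : Fin (q + 1) => ((l - r : Fin (q + 1)) : ℕ) * (t + 1) < m)).card ≤
      (Finset.range (m / (t + 1) + 1)).card := by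
    apply Finset.card_le_card_of_injOn (fun r => ((l - r : Fin (q + 1)) : ℕ))
    · intro r hr
      have hr2 : ((l - r : Fin (q + 1)) : ℕ) * (t + 1) < m := by simpa using hr
      simp only [Finset.coe_range, Set.mem_Iio]
      have : ((l - r : Fin (q + 1)) : ℕ) ≤ m / (t + 1) :=
        (Nat.le_div_iff_mul_le (Nat.succ_pos t)).2 hr2.le
      omega
    · intro r _ r' _ h
      have h2 : l - r = l - r' := Fin.ext h
      exact sub_right_injective h2
  rw [Finset.card_range] at h1
  have h2 : ((m / (t + 1) : ℕ) : ℝ) ≤ (m : ℝ) / ((t : ℝ) + 1) := by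
    have := @Nat.cast_div_le ℝ _ _ _ m (t + 1)
    simpa using this
  calc ((univ.filter (fun r : Fin (q + 1) => ((l - r : Fin (q + 1)) : ℕ) * (t + 1) < m)).card : ℝ)
      ≤ ((m / (t + 1) + 1 : ℕ) : ℝ) := by exact_mod_cast h1
    _ = ((m / (t + 1) : ℕ) : ℝ) + 1 := by push_cast; ring
    _ ≤ _ := by linarith

/-- the rule as a function of the pattern and the label -/
private def rl32 {t q : ℕ} (γ : (X t q → Bool × Bool) → Equiv.Perm (X t q)) (s : X t q → Bool × Bool)
    (lb : Lb t q) : Equiv.Perm (X t q) :=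
  rho32 lb.2 * γ (fun y => s (lb.1.symm y)) * lb.1

/-- the event for a pattern and a label -/
private def Ev32 {t q : ℕ} (γ : (X t q → Bool × Bool) → Equiv.Perm (X t q)) (k : Equiv.Perm (X t q))
    (l : Fin (q + 1)) (p : (X t q → Bool × Bool) × Lb t q) : Prop :=
  rl32 γ p.1 p.2 = k ∧ ∃ x, p.1 x = (true, true) ∧ (k x).1 = l

private theorem card_Ev32 {t q : ℕ} (γ : (X t q → Bool × Bool) → Equiv.Perm (X t q))
    (hγ : ∀ s, ∀ x ∈ SS32 s, ((γ s x).1 : ℕ) * (t + 1) < (SS32 s).card) (k : Equiv.Perm (X t q))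
    (l : Fin (q + 1)) :
    ((univ.filter (fun p => Ev32 γ k l p)).card : ℝ) ≤
      (((q : ℝ) + 1) / 4 + 1) * (Fintype.card (X t q → Bool × Bool) : ℝ) := by
  -- the map to the pairs `(s', r)`
  have h1 : (univ.filter (fun p => Ev32 γ k l p)).card ≤
      ((univ : Finset (X t q → Bool × Bool)).sigma (fun s' => univ.filter (fun r : Fin (q + 1) =>
        ((l - r : Fin (q + 1)) : ℕ) * (t + 1) < (SS32 s').card))).card := by
    apply Finset.card_le_card_of_injOn (fun p => (⟨fun y => p.1 (p.2.1.symm y), p.2.2⟩ :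
      (_ : X t q → Bool × Bool) × Fin (q + 1)))
    · rintro ⟨s, τ, r⟩ hp
      have hp2 : Ev32 γ k l (s, τ, r) := by simpa using hp
      obtain ⟨hk, x, hx, hl⟩ := hp2
      simp only [Finset.coe_sigma, Set.mem_sigma_iff, Finset.coe_univ, Set.mem_univ, true_and,
        Finset.coe_filter, Finset.mem_univ, Set.mem_ofPred_eq]
      have hx' : s x = (true, true) := hx
      have hy : τ x ∈ SS32 (fun y => s (τ.symm y)) := by
        simp [SS32, hx']
      have h2 := hγ _ _ hy
      have h3 : k x = rho32 r (γ (fun y => s (τ.symm y)) (τ x)) := by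
        rw [← hk]
        rfl
      rw [h3, rho_apply32] at hl
      have h4 : l - r = (γ (fun y => s (τ.symm y)) (τ x)).1 := by
        rw [← hl]
        simp
      rw [h4]
      exact h2
    · rintro ⟨s, τ, r⟩ hp ⟨s2, τ2, r2⟩ hp2 h
      have hp' : Ev32 γ k l (s, τ, r) := by simpa using hp
      have hp2' : Ev32 γ k l (s2, τ2, r2) := by simpa using hp2
      obtain ⟨hk, -⟩ := hp'
      obtain ⟨hk2, -⟩ := hp2'
      simp only [Sigma.mk.injEq] at h
      obtain ⟨hs, hr⟩ := h
      have hr' : r = r2 := by simpa using hr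
      subst hr'
      have hk' : rho32 r * γ (fun y => s (τ.symm y)) * τ = k := hk
      have hk2' : rho32 r * γ (fun y => s2 (τ2.symm y)) * τ2 = k := hk2
      rw [← hs] at hk2'
      have hτ : τ = τ2 := mul_left_cancel (hk'.trans hk2'.symm)
      subst hτ
      have hs2 : s = s2 := by
        funext x
        have := congrFun hs (τ x)
        simpa using this
      subst hs2
      rfl
  have h2 : ((univ.filter (fun p => Ev32 γ k l p)).card : ℝ) ≤
      ∑ s' : X t q → Bool × Bool, (((SS32 s').card : ℝ) / ((t : ℝ) + 1) + 1) := by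
    calc ((univ.filter (fun p => Ev32 γ k l p)).card : ℝ)
        ≤ (((univ : Finset (X t q → Bool × Bool)).sigma (fun s' => univ.filter (fun r : Fin (q + 1) =>
        ((l - r : Fin (q + 1)) : ℕ) * (t + 1) < (SS32 s').card))).card : ℝ) := by exact_mod_cast h1
      _ = ∑ s' : X t q → Bool × Bool, ((univ.filter (fun r : Fin (q + 1) =>
        ((l - r : Fin (q + 1)) : ℕ) * (t + 1) < (SS32 s').card)).card : ℝ) := by
          rw [Finset.card_sigma]
          push_cast
          rfl
      _ ≤ _ := Finset.sum_le_sum fun s' _ => card_r32 l _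
  refine h2.trans (le_of_eq ?_)
  rw [Finset.sum_add_distrib, ← Finset.sum_div, sum_SS32, Finset.sum_const, nsmul_eq_mul, mul_one,
    Finset.card_univ]
  have hX : (Fintype.card (X t q) : ℝ) = ((q : ℝ) + 1) * ((t : ℝ) + 1) := by
    simp
  rw [hX]
  have ht : ((t : ℝ) + 1) ≠ 0 := by positivity
  field_simp

private theorem card_lift32 {t q : ℕ} (x0 : X t q) (P : (X t q → Bool × Bool) × Lb t q → Prop) :
    (univ.filter (fun f : X t q → Al t q =>
      P (fun x => ((f x).1, (f x).2.1), (f x0).2.2))).card * Fintype.card (Lb t q) ≤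
      (univ.filter (fun p => P p)).card * Fintype.card (X t q → Lb t q) := by
  rw [← Fintype.card_subtype, ← Fintype.card_subtype, ← Fintype.card_prod, ← Fintype.card_prod]
  apply Fintype.card_le_of_injective (fun p : {f : X t q → Al t q //
      P (fun x => ((f x).1, (f x).2.1), (f x0).2.2)} × Lb t q =>
    ((⟨(fun x => ((p.1.1 x).1, (p.1.1 x).2.1), (p.1.1 x0).2.2), p.1.2⟩ : {p // P p}),
      Function.update (fun x => (p.1.1 x).2.2) x0 p.2))
  rintro ⟨⟨f, hf⟩, m⟩ ⟨⟨g, hg⟩, n⟩ h
  simp only [Prod.mk.injEq, Subtype.mk.injEq] at h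
  obtain ⟨⟨h1, h2⟩, h3⟩ := h
  have hm : m = n := by
    have := congrFun h3 x0
    simpa using this
  have hfg : f = g := by
    funext x
    have h4 := congrFun h1 x
    simp only [Prod.mk.injEq] at h4
    apply Prod.ext h4.1
    apply Prod.ext h4.2
    by_cases hx : x = x0
    · rw [hx]
      exact h2
    · have h5 := congrFun h3 x
      simpa [Function.update_of_ne hx] using h5
  subst hm
  subst hfg
  rfl

theorem exists_rule (t q : ℕ) : ∃ σ : (X t q → Al t q) → Equiv.Perm (X t q), Rule σ := by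
  choose γ hγ using fun s : X t q → Bool × Bool => exists_perm32 (SS32 s)
  refine ⟨fun f => rl32 γ (fun x => ((f x).1, (f x).2.1)) (f (0, 0)).2.2, fun k l => ?_⟩
  have h1 := card_lift32 (t := t) (q := q) (0, 0) (Ev32 γ k l)
  have h2 := card_Ev32 γ hγ k l
  have h3 : (univ.filter (fun f : X t q → Al t q =>
      rl32 γ (fun x => ((f x).1, (f x).2.1)) (f (0, 0)).2.2 = k ∧
        ∃ x, (f x).1 = true ∧ (f x).2.1 = true ∧ (k x).1 = l)) =
      univ.filter (fun f : X t q → Al t q =>
        Ev32 γ k l (fun x => ((f x).1, (f x).2.1), (f (0, 0)).2.2)) := by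
    apply Finset.filter_congr
    intro f _
    unfold Ev32
    simp only [Prod.mk.injEq, and_assoc]
  rw [h3]
  set N := (univ.filter (fun f : X t q → Al t q =>
        Ev32 γ k l (fun x => ((f x).1, (f x).2.1), (f (0, 0)).2.2))).card with hN
  have hLb : (Fintype.card (Lb t q) : ℝ) = (Fintype.card (Equiv.Perm (X t q)) : ℝ) * ((q : ℝ) + 1) := by
    rw [Fintype.card_prod, Fintype.card_fin]
    push_cast
    ring
  have hAl : (Fintype.card (X t q → Al t q) : ℝ) =
      (Fintype.card (X t q → Bool × Bool) : ℝ) * (Fintype.card (X t q → Lb t q) : ℝ) := by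
    have e : (X t q → Al t q) ≃ (X t q → Bool × Bool) × (X t q → Lb t q) :=
      { toFun := fun f => (fun x => ((f x).1, (f x).2.1), fun x => (f x).2.2)
        invFun := fun p x => ((p.1 x).1, (p.1 x).2, p.2 x)
        left_inv := fun f => rfl
        right_inv := fun p => rfl }
    rw [Fintype.card_congr e, Fintype.card_prod]
    push_cast
    ring
  have hq : (0 : ℝ) < (q : ℝ) + 1 := by positivity
  have h4 : (N : ℝ) * (Fintype.card (Lb t q) : ℝ) ≤
      (((q : ℝ) + 1) / 4 + 1) * (Fintype.card (X t q → Bool × Bool) : ℝ) *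
        (Fintype.card (X t q → Lb t q) : ℝ) := by
    calc (N : ℝ) * (Fintype.card (Lb t q) : ℝ)
        ≤ ((univ.filter (fun p => Ev32 γ k l p)).card : ℝ) * (Fintype.card (X t q → Lb t q) : ℝ) := by
          exact_mod_cast h1
      _ ≤ _ := mul_le_mul_of_nonneg_right h2 (Nat.cast_nonneg _)
  rw [hLb] at h4
  rw [hAl]
  have h5 : (1 / 4 + 1 / ((q : ℝ) + 1)) = (((q : ℝ) + 1) / 4 + 1) / ((q : ℝ) + 1) := by
    field_simp
  rw [h5, div_mul_eq_mul_div, le_div_iff₀ hq]
  calc (N : ℝ) * (Fintype.card (Equiv.Perm (X t q)) : ℝ) * ((q : ℝ) + 1)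
      = (N : ℝ) * ((Fintype.card (Equiv.Perm (X t q)) : ℝ) * ((q : ℝ) + 1)) := by ring
    _ ≤ _ := h4
    _ = _ := by ring

end Pool.Agent.Helper85.SAA
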