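import Pool.Agent.Helper85.SAA.Defs

/-!
# Block SAA-UNI: the random graph `Gr e ω` restricted by an injective map is uniformly distributed

For `G : SimpleGraph (Fin n)` the set of `ω` with `(Gr e ω).comap f = G` is the set of all `ω` such that for all `x, y : Fin n` with `e (f x) < e (f y)` the first bit of
`ω (f x, f y)` is `decide (G.Adj x y)` and all other data are free. So it is a `Fintype.piFinset` of sets `T_G c ⊆ Bool × β`, `c : W × W`, and `|T_G c|` is `|β|` if `c = (f x, f y)` for
some `x, y` with `e (f x) < e (f y)` (unique by injectivity) and `2 |β|` otherwise: independent of `G`. Hence all fibres of `ω ↦ (Gr e ω).comap f` have the same cardinality `F > 0`, and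
`#{ω : Q} = F * #{G : Q G}`, `#{ω} = F * #{G}`.

(The proof below shows that all fibres have the same cardinality by the involution `tog` which adds a graph `D`
modulo 2 to the first bits.)
-/

set_option autoImplicit false
set_option linter.unusedSectionVars false

namespace Pool.Agent.Helper85.SAA

open Finset
open scoped Classical

/-- add the graph `D` modulo two to the first bits -/
private noncomputable def tog {n : ℕ} {W β : Type} (f : Fin n → W) (D : SimpleGraph (Fin n))
    (ω : W × W → Bool × β) : W × W → Bool × β :=
  fun c => (xor (ω c).1 (decide (∃ x y, c = (f x, f y) ∧ D.Adj x y)), (ω c).2)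

private theorem tog_tog {n : ℕ} {W β : Type} (f : Fin n → W) (D : SimpleGraph (Fin n))
    (ω : W × W → Bool × β) : tog f D (tog f D ω) = ω := by
  funext c
  unfold tog
  simp

private theorem tog_fst {n : ℕ} {W β : Type} (f : Fin n → W) (hf : Function.Injective f)
    (D : SimpleGraph (Fin n)) (ω : W × W → Bool × β) (x y : Fin n) :
    (tog f D ω (f x, f y)).1 = true ↔ ¬ ((ω (f x, f y)).1 = true ↔ D.Adj x y) := by
  have h : (∃ x' y', ((f x, f y) : W × W) = (f x', f y') ∧ D.Adj x' y') ↔ D.Adj x y := by
    constructor
    · rintro ⟨x', y', h1, h2⟩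
      rw [Prod.mk.injEq] at h1
      rw [hf h1.1, hf h1.2]
      exact h2
    · intro h
      exact ⟨x, y, rfl, h⟩
  unfold tog
  simp only [h]
  by_cases h1 : D.Adj x y <;> cases h2 : (ω (f x, f y)).1 <;> simp [h1]

private theorem tog_adj {n : ℕ} {W β : Type} (e : W → ℕ) (he : Function.Injective e) (f : Fin n → W)
    (hf : Function.Injective f) (D : SimpleGraph (Fin n)) (ω : W × W → Bool × β) (x y : Fin n) :
    ((Gr e (tog f D ω)).comap f).Adj x y ↔ ¬ (((Gr e ω).comap f).Adj x y ↔ D.Adj x y) := by
  simp only [SimpleGraph.comap_adj, Gr]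
  rcases lt_trichotomy (e (f x)) (e (f y)) with h | h | h
  · have h' : ¬ e (f y) < e (f x) := not_lt.mpr h.le
    simp only [h, h', true_and, false_and, or_false]
    exact tog_fst f hf D ω x y
  · have hxy : x = y := hf (he h)
    subst hxy
    simp
  · have h' : ¬ e (f x) < e (f y) := not_lt.mpr h.le
    simp only [h, h', true_and, false_and, false_or]
    rw [tog_fst f hf D ω y x, SimpleGraph.adj_comm D y x]

theorem uniform {n : ℕ} {W β : Type} [Fintype W] [DecidableEq W] [Fintype β] [Nonempty β] (e : W → ℕ)
    (he : Function.Injective e) (f : Fin n → W) (hf : Function.Injective f) (Q : SimpleGraph (Fin n) → Prop) :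
    Pr (fun ω : W × W → Bool × β => Q ((Gr e ω).comap f)) =
      (Nat.card {G : SimpleGraph (Fin n) // Q G} : ℝ) / (Nat.card (SimpleGraph (Fin n)) : ℝ) := by
  have hfib : ∀ G : SimpleGraph (Fin n),
      (univ.filter (fun ω : W × W → Bool × β => (Gr e ω).comap f = G)).card =
        (univ.filter (fun ω : W × W → Bool × β => (Gr e ω).comap f = ⊥)).card := by
    intro G
    refine Finset.card_bij' (fun ω _ => tog f G ω) (fun ω _ => tog f G ω) ?_ ?_ ?_ ?_
    · intro ω hω
      rw [mem_filter] at hω ⊢
      refine ⟨mem_univ _, ?_⟩
      ext x y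
      rw [tog_adj e he f hf, hω.2]
      simp
    · intro ω hω
      rw [mem_filter] at hω ⊢
      refine ⟨mem_univ _, ?_⟩
      ext x y
      rw [tog_adj e he f hf, hω.2]
      simp
    · intro ω _
      exact tog_tog f G ω
    · intro ω _
      exact tog_tog f G ω
  set F := (univ.filter (fun ω : W × W → Bool × β => (Gr e ω).comap f = ⊥)).card with hF
  have hcount : ∀ P : SimpleGraph (Fin n) → Prop,
      (univ.filter (fun ω : W × W → Bool × β => P ((Gr e ω).comap f))).card =
        Nat.card {G : SimpleGraph (Fin n) // P G} * F := by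
    intro P
    rw [Nat.card_eq_fintype_card, Fintype.card_subtype]
    rw [Finset.card_eq_sum_card_fiberwise (f := fun ω : W × W → Bool × β => (Gr e ω).comap f)
      (t := univ.filter P)]
    · rw [Finset.sum_const_nat (m := F)]
      intro G hG
      rw [← hfib G]
      congr 1
      ext ω
      simp only [mem_filter, mem_univ, true_and] at hG ⊢
      constructor
      · rintro ⟨_, h⟩
        exact h
      · intro h
        refine ⟨?_, h⟩
        rw [h]
        exact hG
    · intro ω hω
      simp only [coe_filter, mem_univ, true_and, Set.mem_setOf_eq] at hω ⊢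
      exact hω
  have htot : Fintype.card (W × W → Bool × β) = Nat.card (SimpleGraph (Fin n)) * F := by
    have h := hcount (fun _ => True)
    rw [Finset.filter_true, Finset.card_univ] at h
    rw [h]
    congr 1
    exact Nat.card_congr (Equiv.subtypeUnivEquiv fun _ => trivial)
  have hF0 : F ≠ 0 := by
    intro h0
    rw [h0, Nat.mul_zero] at htot
    have : Nonempty (W × W → Bool × β) := inferInstance
    exact Fintype.card_ne_zero htot
  rw [Pr_eq, hcount Q, htot]
  push_cast
  have hF1 : (F : ℝ) ≠ 0 := by exact_mod_cast hF0
  rw [mul_div_mul_right _ _ hF1]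

end Pool.Agent.Helper85.SAA
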