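import Pool.Agent.Helper85.SAA.Assembly
import Pool.Agent.Helper85.SAA.Factor
import Pool.Agent.Helper85.SAA.Degree
import Pool.Agent.Helper85.SAA.Edge
import Pool.Agent.Helper85.SAA.Mono
import Pool.Agent.Helper85.SAA.Uniform
import Pool.Agent.Helper85.SAA.Rule

/-!
# Project SAA: the main theorem
-/

set_option autoImplicit false
set_option linter.unusedSectionVars false

namespace Pool.Agent.Helper85.SAA

open Finset Filter
open scoped Classical
open Pool.Agent.Helper83.SA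

noncomputable section

/-- the number of colours -/
def KK (t q : ℕ) (ε : ℝ) (h : ℕ) : ℕ :=
  (t + 2) * Fintype.card (Equiv.Perm (X t q)) *
    ⌈(1 / 4 + 1 / ((q : ℝ) + 1) + ε) * ((Fintype.card (X t q) : ℝ) * h) /
      (Fintype.card (Equiv.Perm (X t q)) : ℝ)⌉₊ + Fintype.card (X t q) * h

/-- the bound for the probability of the bad events -/
def bad (t q : ℕ) (ε : ℝ) (h : ℕ) : ℝ :=
  (((t : ℝ) + 2) * (Fintype.card (X t q) : ℝ)) *
    ((h : ℝ) ^ 3 * (1 - (1 / 2 : ℝ) ^ (Fintype.card (X t q))) ^ ((h + 1) / 2)) +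
  ((Fintype.card (Equiv.Perm (X t q)) : ℝ) * ((t : ℝ) + 2) *
        ((Fintype.card (X t q) : ℝ) + ((t : ℝ) + 2) * ((q : ℝ) + 1)) * h) *
      Real.exp (-(((t : ℝ) + 1) * h * (ε / (Fintype.card (Equiv.Perm (X t q)) : ℝ)) ^ 2 / 4))

theorem indep_dependsOn {t q h : ℕ} (e : V t q h → ℕ) :
    DependsOn (fun ω : V t q h × V t q h → Al t q => fun π => Indep e π ω) {c | c.1.1 = c.2.1} := by
  intro ω ω' hω
  funext π
  unfold Indep Gr
  simp only
  apply propext
  constructor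
  · intro h1 i u x x'
    have h2 := h1 i u x x'
    rwa [hω (rel π (i, x, u), rel π (i, x', u)) rfl, hω (rel π (i, x', u), rel π (i, x, u)) rfl] at h2
  · intro h1 i u x x'
    have h2 := h1 i u x x'
    rwa [← hω (rel π (i, x, u), rel π (i, x', u)) rfl, ← hω (rel π (i, x', u), rel π (i, x, u)) rfl] at h2

theorem zeta_of_good {t q h d : ℕ} {σ : (X t q → Al t q) → Equiv.Perm (X t q)} {e : V t q h → ℕ}
    (he : Function.Injective e) {π : Fin (t + 2) → X t q → Equiv.Perm (Fin h)}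
    {ω : V t q h × V t q h → Al t q} (h1 : Indep e π ω)
    (h2 : DegOk σ (fun y z => ww e ω (rel π y) (rel π z)) d) :
    zeta (Gr e ω) ≤ (t + 2) * Fintype.card (Equiv.Perm (X t q)) * d + Fintype.card (X t q) * h := by
  have hb : Function.Bijective (rel π) :=
    (Finite.injective_iff_bijective).1 (rel_injective π)
  set r : V t q h ≃ V t q h := Equiv.ofBijective (rel π) hb with hr
  have h3 : zeta ((Gr e ω).comap (rel π)) ≤
      (t + 2) * Fintype.card (Equiv.Perm (X t q)) * d + Fintype.card (X t q) * h := by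
    apply assembly ((Gr e ω).comap (rel π)) _ (fun y z => ww e ω (rel π y) (rel π z)) _ _ σ h2
    · intro i u x x'
      exact h1 i u x x'
    · intro a x hax
      have hne : e (rel π a) ≠ e (rel π x) := by
        intro h4
        exact hax (by rw [rel_injective π (he h4)])
      rw [SimpleGraph.comap_adj]
      unfold ww Gr
      simp only
      rcases lt_or_gt_of_ne hne with h4 | h4
      · rw [if_pos h4]
        simp [h4, not_lt_of_gt h4]
      · rw [if_neg (not_lt_of_gt h4)]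
        simp [h4, not_lt_of_gt h4, flip]
    · intro a x hax
      have hne : e (rel π a) ≠ e (rel π x) := by
        intro h4
        exact hax (by rw [rel_injective π (he h4)])
      unfold ww
      rcases lt_or_gt_of_ne hne with h4 | h4
      · rw [if_pos h4, if_neg (not_lt_of_gt h4)]
        simp [flip]
      · rw [if_neg (not_lt_of_gt h4), if_pos h4]
        simp [flip]
  have h5 : ((Gr e ω).comap (rel π)).comap r.symm = Gr e ω := by
    ext x y
    rw [SimpleGraph.comap_adj, SimpleGraph.comap_adj]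
    have h6 : ∀ z, rel π (r.symm z) = z := fun z => r.apply_symm_apply z
    rw [h6, h6]
  rw [← h5]
  exact (zeta_comap_le _ _ r.symm.injective).trans h3

theorem pr_bad {t q h : ℕ} {σ : (X t q → Al t q) → Equiv.Perm (X t q)} (hσ : Rule σ) {e : V t q h → ℕ}
    (he : Function.Injective e) {ε : ℝ} (hε : 0 < ε) (hε1 : ε ≤ 1) :
    Pr (fun ω : V t q h × V t q h → Al t q => ¬ zeta (Gr e ω) ≤ KK t q ε h) ≤ bad t q ε h := by
  set d := ⌈(1 / 4 + 1 / ((q : ℝ) + 1) + ε) * ((Fintype.card (X t q) : ℝ) * h) /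
      (Fintype.card (Equiv.Perm (X t q)) : ℝ)⌉₊ with hd
  set c : (V t q h × V t q h → Al t q) → (Fin (t + 2) → X t q → Equiv.Perm (Fin h)) :=
    fun ω => Classical.epsilon (fun π => Indep e π ω) with hc
  have hcd : DependsOn c {c | c.1.1 = c.2.1} := by
    intro ω ω' hω
    rw [hc]
    simp only
    have h1 := indep_dependsOn e hω
    simp only at h1
    rw [h1]
  have hcu := cond_union c (fun π ω => ¬ DegOk σ (fun y z => ww e ω (rel π y) (rel π z)) d)
    {c | c.1.1 = c.2.1} {c | c.1.1 ≠ c.2.1} hcd (fun π => degOk_dependsOn σ e π d)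
    (by
      rw [Set.disjoint_left]
      intro x hx hx'
      exact hx' hx) _ (fun π => deg_prob hσ e π hε hε1 (Nat.le_ceil _))
  refine (Pr_mono ?_).trans ((Pr_or_le _ _).trans (add_le_add (factor t q h e he) hcu))
  intro ω hω
  by_contra hcon
  push Not at hcon
  obtain ⟨⟨π, hπ⟩, h2⟩ := hcon
  have h3 : Indep e (c ω) ω := Classical.epsilon_spec (p := fun π => Indep e π ω) ⟨π, hπ⟩
  exact hω (zeta_of_good he h3 h2)

theorem card_V (t q h : ℕ) : Fintype.card (V t q h) = (t + 2) * Fintype.card (X t q) * h := by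
  rw [Fintype.card_prod, Fintype.card_prod, Fintype.card_fin, Fintype.card_fin]
  ring

theorem bad_tendsto (t q : ℕ) {ε : ℝ} (hε : 0 < ε) : Tendsto (bad t q ε) atTop (nhds 0) := by
  have hb0 : (0 : ℝ) < (1 / 2 : ℝ) ^ (Fintype.card (X t q)) := by positivity
  have hb1 : (1 / 2 : ℝ) ^ (Fintype.card (X t q)) ≤ 1 := pow_le_one₀ (by norm_num) (by norm_num)
  set r : ℝ := 1 - (1 / 2 : ℝ) ^ (Fintype.card (X t q)) with hr
  have hr0 : 0 ≤ r := by linarith
  have hr1 : r < 1 := by linarith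
  have h1 : Tendsto (fun m : ℕ => (m : ℝ) ^ 3 * r ^ m) atTop (nhds 0) :=
    tendsto_pow_const_mul_const_pow_of_lt_one 3 hr0 hr1
  have hm : Tendsto (fun h : ℕ => (h + 1) / 2) atTop atTop := by
    apply tendsto_atTop_atTop.2
    intro b
    exact ⟨2 * b, fun a ha => by omega⟩
  have h2 := h1.comp hm
  have h3 : Tendsto (fun h : ℕ => (h : ℝ) ^ 3 * r ^ ((h + 1) / 2)) atTop (nhds 0) := by
    apply squeeze_zero (g := fun h : ℕ => 8 * ((((h + 1) / 2 : ℕ) : ℝ) ^ 3 * r ^ ((h + 1) / 2)))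
    · intro h
      positivity
    · intro h
      have h4 : (h : ℝ) ≤ 2 * (((h + 1) / 2 : ℕ) : ℝ) := by
        have : h ≤ 2 * ((h + 1) / 2) := by omega
        exact_mod_cast this
      have h5 : (h : ℝ) ^ 3 ≤ 8 * (((h + 1) / 2 : ℕ) : ℝ) ^ 3 := by
        have := pow_le_pow_left₀ (Nat.cast_nonneg h) h4 3
        rw [mul_pow] at this
        norm_num at this ⊢
        exact this
      calc (h : ℝ) ^ 3 * r ^ ((h + 1) / 2) ≤ (8 * (((h + 1) / 2 : ℕ) : ℝ) ^ 3) * r ^ ((h + 1) / 2) :=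
            mul_le_mul_of_nonneg_right h5 (pow_nonneg hr0 _)
        _ = 8 * ((((h + 1) / 2 : ℕ) : ℝ) ^ 3 * r ^ ((h + 1) / 2)) := by ring
    · have := h2.const_mul 8
      rw [mul_zero] at this
      exact this
  have hM : (0 : ℝ) < (Fintype.card (Equiv.Perm (X t q)) : ℝ) := by exact_mod_cast Fintype.card_pos
  set c : ℝ := ((t : ℝ) + 1) * (ε / (Fintype.card (Equiv.Perm (X t q)) : ℝ)) ^ 2 / 4 with hc
  have hc0 : 0 < c := by rw [hc]; positivity
  have h6 : Tendsto (fun m : ℕ => (m : ℝ) ^ 1 * Real.exp (-c) ^ m) atTop (nhds 0) :=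
    tendsto_pow_const_mul_const_pow_of_lt_one 1 (Real.exp_pos _).le (by
      have := Real.exp_lt_exp.2 (show -c < 0 by linarith)
      rwa [Real.exp_zero] at this)
  have h7 := (h3.const_mul (((t : ℝ) + 2) * (Fintype.card (X t q) : ℝ))).add
    (h6.const_mul ((Fintype.card (Equiv.Perm (X t q)) : ℝ) * ((t : ℝ) + 2) *
        ((Fintype.card (X t q) : ℝ) + ((t : ℝ) + 2) * ((q : ℝ) + 1))))
  rw [mul_zero, mul_zero, add_zero] at h7
  refine h7.congr fun h => ?_
  unfold bad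
  congr 1
  rw [← Real.exp_nat_mul, pow_one]
  have h8 : (h : ℝ) * -c = -(((t : ℝ) + 1) * h * (ε / (Fintype.card (Equiv.Perm (X t q)) : ℝ)) ^ 2 / 4) := by
    rw [hc]; ring
  rw [h8]
  ring

theorem KK_le (t q : ℕ) {ε : ℝ} (hε : 0 < ε) (h : ℕ) : (KK t q ε h : ℝ) ≤
    ((t + 2 : ℝ) * (Fintype.card (X t q) : ℝ) * h) * (1 / 4 + (1 / ((q : ℝ) + 1) + ε + 1 / ((t : ℝ) + 2))) +
      (t + 2 : ℝ) * (Fintype.card (Equiv.Perm (X t q)) : ℝ) := by
  have hM : (0 : ℝ) < (Fintype.card (Equiv.Perm (X t q)) : ℝ) := by exact_mod_cast Fintype.card_pos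
  unfold KK
  push_cast
  have h1 : (⌈(1 / 4 + 1 / ((q : ℝ) + 1) + ε) * ((Fintype.card (X t q) : ℝ) * h) /
      (Fintype.card (Equiv.Perm (X t q)) : ℝ)⌉₊ : ℝ) ≤
      (1 / 4 + 1 / ((q : ℝ) + 1) + ε) * ((Fintype.card (X t q) : ℝ) * h) /
      (Fintype.card (Equiv.Perm (X t q)) : ℝ) + 1 := (Nat.ceil_lt_add_one (by positivity)).le
  have h2 := mul_le_mul_of_nonneg_left h1
    (show (0 : ℝ) ≤ ((t : ℝ) + 2) * (Fintype.card (Equiv.Perm (X t q)) : ℝ) by positivity)
  have h3 : ((t : ℝ) + 2) * (Fintype.card (Equiv.Perm (X t q)) : ℝ) *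
      ((1 / 4 + 1 / ((q : ℝ) + 1) + ε) * ((Fintype.card (X t q) : ℝ) * h) /
      (Fintype.card (Equiv.Perm (X t q)) : ℝ) + 1) + (Fintype.card (X t q) : ℝ) * h =
      ((t + 2 : ℝ) * (Fintype.card (X t q) : ℝ) * h) * (1 / 4 + (1 / ((q : ℝ) + 1) + ε + 1 / ((t : ℝ) + 2))) +
      (t + 2 : ℝ) * (Fintype.card (Equiv.Perm (X t q)) : ℝ) := by
    have ht : (t : ℝ) + 2 ≠ 0 := by positivity
    field_simp
    ring
  rw [← h3]
  gcongr

/-- deterministic comparison -/
theorem compare {n : ℕ} (hn : 2 ≤ n) {ε ε2 K : ℝ} (hε : 0 < ε) (G : SimpleGraph (Fin n)) (hz : (zeta G : ℝ) ≤ K)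
    (hK : K ≤ (1 + ε) * ((1 / 4 - ε2 / 2) * n))
    (he : (1 / 2 - ε2) * ((n : ℝ) * (n - 1) / 2) <
      ((univ.filter (fun p : Fin n × Fin n => p.1 < p.2 ∧ G.Adj p.1 p.2)).card : ℝ)) :
    (zeta G : ℝ) ≤ (1 + ε) * arb G := by
  have h1 : ((univ.filter (fun p : Fin n × Fin n => p.1 < p.2 ∧ G.Adj p.1 p.2)).card : ℝ) ≤
      (arb G : ℝ) * ((n : ℝ) - 1) := by
    have h2 : (univ.filter (fun p : Fin n × Fin n => p.1 < p.2 ∧ G.Adj p.1 p.2)).card ≤ arb G * (n - 1) := by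
      convert edges_le G
    have h3 : ((n - 1 : ℕ) : ℝ) = (n : ℝ) - 1 := by
      rw [Nat.cast_sub (by omega)]
      simp
    rw [← h3]
    exact_mod_cast h2
  have hn' : (0 : ℝ) < (n : ℝ) - 1 := by
    have : (2 : ℝ) ≤ n := by exact_mod_cast hn
    linarith
  have h4 : (1 / 4 - ε2 / 2) * n * ((n : ℝ) - 1) < (arb G : ℝ) * ((n : ℝ) - 1) := by
    refine lt_of_lt_of_le ?_ h1
    refine lt_of_eq_of_lt ?_ he
    ring
  have h5 : (1 / 4 - ε2 / 2) * n < (arb G : ℝ) := lt_of_mul_lt_mul_right h4 hn'.le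
  calc (zeta G : ℝ) ≤ K := hz
    _ ≤ (1 + ε) * ((1 / 4 - ε2 / 2) * n) := hK
    _ ≤ (1 + ε) * arb G := mul_le_mul_of_nonneg_left h5.le (by linarith)

theorem main {ε : ℝ} (hε : 0 < ε) :
    Tendsto (fun n : ℕ => (Nat.card {G : SimpleGraph (Fin n) // (zeta G : ℝ) ≤ (1 + ε) * arb G} : ℝ) /
      (Nat.card (SimpleGraph (Fin n)) : ℝ)) atTop (nhds 1) := by
  obtain ⟨N, hN⟩ := exists_nat_one_div_lt (show 0 < ε / 24 by positivity)
  set t : ℕ := N with ht
  set q : ℕ := N with hq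
  obtain ⟨σ, hσ⟩ := exists_rule t q
  set ε1 : ℝ := min (ε / 24) 1 with hε1
  have hε10 : 0 < ε1 := lt_min (by positivity) one_pos
  have hε11 : ε1 ≤ 1 := min_le_right _ _
  have hε12 : ε1 ≤ ε / 24 := min_le_left _ _
  set ε2 : ℝ := ε / (8 * (1 + ε)) with hε2
  have hε20 : 0 < ε2 := by rw [hε2]; positivity
  have hε21 : ε2 ≤ 1 := by
    rw [hε2, div_le_one (by positivity)]
    linarith
  have hcoef : (1 + ε) * (1 / 4 - ε2 / 2) = 1 / 4 + 3 * ε / 16 := by
    rw [hε2]; field_simp; ring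
  set N0 : ℕ := (t + 2) * Fintype.card (X t q) with hN0
  have hN0p : 0 < N0 := Nat.mul_pos (by omega) Fintype.card_pos
  set C0 : ℝ := (t + 2 : ℝ) * (Fintype.card (Equiv.Perm (X t q)) : ℝ) with hC0
  have ht2 : 1 / ((t : ℝ) + 2) ≤ ε / 24 := by
    refine le_trans ?_ hN.le
    apply one_div_le_one_div_of_le (by positivity)
    linarith
  have hq1 : 1 / ((q : ℝ) + 1) ≤ ε / 24 := hN.le
  -- the comparison of the number of colours with `n`
  have hKK : ∀ n : ℕ, 16 * ((N0 : ℝ) * (1 / 4 + ε / 8) + C0) / ε ≤ n →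
      (KK t q ε1 (n / N0 + 1) : ℝ) ≤ (1 + ε) * ((1 / 4 - ε2 / 2) * n) := by
    intro n hn
    have h1 := KK_le t q hε10 (n / N0 + 1)
    have h2 : ((t + 2 : ℝ) * (Fintype.card (X t q) : ℝ) * ((n / N0 + 1 : ℕ) : ℝ)) ≤ (n : ℝ) + N0 := by
      have h3 : N0 * (n / N0 + 1) ≤ n + N0 := by
        rw [Nat.mul_add, Nat.mul_one]
        exact Nat.add_le_add_right (Nat.mul_div_le n N0) N0
      have h4 : ((N0 * (n / N0 + 1) : ℕ) : ℝ) ≤ ((n + N0 : ℕ) : ℝ) := by exact_mod_cast h3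
      have h4' : (t + 2 : ℝ) * (Fintype.card (X t q) : ℝ) = (N0 : ℝ) := by rw [hN0]; push_cast; ring
      rw [h4', ← Nat.cast_mul, ← Nat.cast_add]
      exact h4
    have h5 : 1 / ((q : ℝ) + 1) + ε1 + 1 / ((t : ℝ) + 2) ≤ ε / 8 := by linarith
    have h6 : (0 : ℝ) ≤ 1 / 4 + (1 / ((q : ℝ) + 1) + ε1 + 1 / ((t : ℝ) + 2)) := by positivity
    have h7 : ((t + 2 : ℝ) * (Fintype.card (X t q) : ℝ) * ((n / N0 + 1 : ℕ) : ℝ)) *
        (1 / 4 + (1 / ((q : ℝ) + 1) + ε1 + 1 / ((t : ℝ) + 2))) ≤ ((n : ℝ) + N0) * (1 / 4 + ε / 8) := by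
      apply mul_le_mul h2 (by linarith) h6 (by positivity)
    have h8 : (N0 : ℝ) * (1 / 4 + ε / 8) + C0 ≤ n * (ε / 16) := by
      rw [div_le_iff₀ hε] at hn
      linarith
    calc (KK t q ε1 (n / N0 + 1) : ℝ) ≤ _ := h1
      _ ≤ ((n : ℝ) + N0) * (1 / 4 + ε / 8) + C0 := by rw [hC0]; linarith
      _ ≤ (1 / 4 + 3 * ε / 16) * n := by nlinarith [h8]
      _ = (1 + ε) * ((1 / 4 - ε2 / 2) * n) := by rw [← hcoef]; ring
  -- lower bound for the fraction
  have hlow : ∀ᶠ n : ℕ in atTop, 1 - (bad t q ε1 (n / N0 + 1) + Real.exp (-((n : ℝ) * (n - 1) / 2 * ε2 ^ 2 / 4))) ≤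
      (Nat.card {G : SimpleGraph (Fin n) // (zeta G : ℝ) ≤ (1 + ε) * arb G} : ℝ) /
      (Nat.card (SimpleGraph (Fin n)) : ℝ) := by
    obtain ⟨n0, hn0⟩ := exists_nat_ge (16 * ((N0 : ℝ) * (1 / 4 + ε / 8) + C0) / ε)
    filter_upwards [eventually_ge_atTop n0, eventually_ge_atTop 2] with n hn hn2
    have hn' : 16 * ((N0 : ℝ) * (1 / 4 + ε / 8) + C0) / ε ≤ n := hn0.trans (by exact_mod_cast hn)
    set h : ℕ := n / N0 + 1 with hh
    have hcard : n ≤ Fintype.card (V t q h) := by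
      rw [card_V, ← hN0, hh]
      have := Nat.lt_mul_div_succ n hN0p
      exact this.le
    obtain ⟨f⟩ : Nonempty (Fin n ↪ V t q h) := by
      apply Function.Embedding.nonempty_of_card_le
      rw [Fintype.card_fin]
      exact hcard
    set e : V t q h → ℕ := fun v => (Fintype.equivFin (V t q h) v : ℕ) with he
    have heinj : Function.Injective e := by
      intro x y hxy
      exact (Fintype.equivFin (V t q h)).injective (Fin.ext hxy)
    have hun := uniform (β := Bool × Lb t q) e heinj f f.injective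
      (fun G => (zeta G : ℝ) ≤ (1 + ε) * arb G)
    rw [← hun]
    have h1 := Pr_add_not (fun ω : V t q h × V t q h → Bool × (Bool × Lb t q) =>
      (zeta ((Gr e ω).comap f) : ℝ) ≤ (1 + ε) * arb ((Gr e ω).comap f))
    have h2 : Pr (fun ω : V t q h × V t q h → Bool × (Bool × Lb t q) =>
        ¬ (zeta ((Gr e ω).comap f) : ℝ) ≤ (1 + ε) * arb ((Gr e ω).comap f)) ≤
        bad t q ε1 h + Real.exp (-((n : ℝ) * (n - 1) / 2 * ε2 ^ 2 / 4)) := by
      refine (Pr_mono ?_).trans ((Pr_or_le _ _).trans (add_le_add (pr_bad hσ heinj hε10 hε11)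
        (edge_prob (β := Bool × Lb t q) e heinj f f.injective hε20 hε21)))
      intro ω hω
      by_contra hcon
      push Not at hcon
      apply hω
      apply compare hn2 hε _ (K := (KK t q ε1 h : ℝ)) _ (hKK n hn') hcon.2
      exact_mod_cast (zeta_comap_le (Gr e ω) f f.injective).trans hcon.1
    linarith
  have hup : ∀ n : ℕ, (Nat.card {G : SimpleGraph (Fin n) // (zeta G : ℝ) ≤ (1 + ε) * arb G} : ℝ) /
      (Nat.card (SimpleGraph (Fin n)) : ℝ) ≤ 1 := by
    intro n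
    apply div_le_one_of_le₀ _ (Nat.cast_nonneg _)
    exact_mod_cast Finite.card_subtype_le _
  have hlim : Tendsto (fun n : ℕ => 1 - (bad t q ε1 (n / N0 + 1) +
      Real.exp (-((n : ℝ) * (n - 1) / 2 * ε2 ^ 2 / 4)))) atTop (nhds 1) := by
    have h1 : Tendsto (fun n : ℕ => n / N0 + 1) atTop atTop :=
      (tendsto_add_atTop_nat 1).comp (Nat.tendsto_div_const_atTop hN0p.ne')
    have h2 := (bad_tendsto t q hε10).comp h1
    have h3 : Tendsto (fun n : ℕ => Real.exp (-((n : ℝ) * (n - 1) / 2 * ε2 ^ 2 / 4))) atTop (nhds 0) := by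
      apply Real.tendsto_exp_neg_atTop_nhds_zero.comp
      apply tendsto_atTop_mono' _ _ (tendsto_natCast_atTop_atTop.const_mul_atTop (show 0 < ε2 ^ 2 / 8 by positivity))
      filter_upwards [eventually_ge_atTop 2] with n hn
      have hn' : (2 : ℝ) ≤ n := by exact_mod_cast hn
      have h4 : (n : ℝ) ≤ n * (n - 1) := by nlinarith
      have h5 : 0 ≤ ε2 ^ 2 := sq_nonneg _
      nlinarith [mul_le_mul_of_nonneg_left h4 h5]
    have h4 := (h2.add h3).const_sub 1
    rw [add_zero, sub_zero] at h4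
    exact h4
  exact tendsto_of_tendsto_of_tendsto_of_le_of_le' hlim tendsto_const_nhds hlow (Eventually.of_forall hup)

end

end Pool.Agent.Helper85.SAA
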