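import Pool.Agent.Helper85.SAA.Prod

/-!
# Block SAA-PM: a random bipartite graph has a perfect matching

If there is no permutation `π` with `R ω u (π u)` for all `u`, Hall's theorem (`Finset.all_card_le_biUnion_card_iff_exists_injective` or
`Fintype.all_card_le_rel_image_card_iff_exists_injective`; an injective map `Fin h → Fin h` is a permutation,
`Equiv.ofBijective`, `Finite.injective_iff_bijective`) gives a set `S` of `s ≥ 1` elements `u` with fewer than `s` neighbours, hence a set `T` of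
`h + 1 - s` elements `v` (`1 ≤ s ≤ h`) without neighbours in `S`: `¬ R ω u v` for all `(u, v) ∈ S × T`. For fixed `S, T` the probability is
`∏_{(u,v)} (1 - Pr (R u v)) ≤ (1 - ρ) ^ (s (h + 1 - s))` (`av_prod` for the functions `1_{¬ R u v}`). Union bound over `s` and the pairs `S, T`:
with `m = min s (h + 1 - s)`, `choose h s * choose h (h + 1 - s) ≤ h ^ (2 m)` (`Nat.choose_le_pow`, `choose h s = choose h (h - s)`) and
`s (h + 1 - s) ≥ m * ((h + 1) / 2)`, so the terms are `≤ (h^2 (1 - ρ)^((h+1)/2))^m ≤ h^2 (1 - ρ)^((h+1)/2)` if this number is `≤ 1` (if it is `> 1` the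
claim is trivial by `Pr_le_one`, as `h ≥ 1`; `h = 0` is trivial: the left side is `0`), and there are at most `h` values of `s`.
-/

set_option autoImplicit false
set_option linter.unusedSectionVars false

namespace Pool.Agent.Helper85.SAA

open Finset
open scoped Classical

variable {ι α : Type} [Fintype ι] [DecidableEq ι] [Fintype α]

/-- the probability that there is no edge between `S` and `T` -/
private theorem pr_rect [Nonempty α] {h : ℕ} (R : (ι → α) → Fin h → Fin h → Prop) (C : Fin h → Fin h → Set ι)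
    (hR : ∀ u v, DependsOn (fun ω => R ω u v) (C u v))
    (hC : ∀ u v u' v', (u, v) ≠ (u', v') → Disjoint (C u v) (C u' v')) (ρ : ℝ) (hρ1 : ρ ≤ 1)
    (hρ : ∀ u v, ρ ≤ Pr (fun ω => R ω u v)) (S T : Finset (Fin h)) :
    Pr (fun ω => ∀ u ∈ S, ∀ v ∈ T, ¬ R ω u v) ≤ (1 - ρ) ^ (S.card * T.card) := by
  have h1 : Pr (fun ω => ∀ u ∈ S, ∀ v ∈ T, ¬ R ω u v) =
      Av (fun ω => ∏ k ∈ S ×ˢ T, (if ¬ R ω k.1 k.2 then (1 : ℝ) else 0)) := by
    unfold Pr
    congr 1
    funext ω
    by_cases hh : ∀ u ∈ S, ∀ v ∈ T, ¬ R ω u v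
    · rw [if_pos hh]
      symm
      apply Finset.prod_eq_one
      intro k hk
      rw [Finset.mem_product] at hk
      rw [if_pos (hh k.1 hk.1 k.2 hk.2)]
    · rw [if_neg hh]
      push Not at hh
      obtain ⟨u, hu, v, hv, huv⟩ := hh
      symm
      apply Finset.prod_eq_zero (i := (u, v)) (Finset.mem_product.2 ⟨hu, hv⟩)
      rw [if_neg (not_not.2 huv)]
  rw [h1, av_prod (S ×ˢ T) (fun k ω => if ¬ R ω k.1 k.2 then (1 : ℝ) else 0) (fun k => C k.1 k.2)]
  · have h2 : ∀ k ∈ S ×ˢ T, Av (fun ω => if ¬ R ω k.1 k.2 then (1 : ℝ) else 0) ≤ 1 - ρ := by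
      intro k _
      have h3 := Pr_add_not (fun ω => R ω k.1 k.2)
      have h4 := hρ k.1 k.2
      have h5 : Av (fun ω => if ¬ R ω k.1 k.2 then (1 : ℝ) else 0) = Pr (fun ω => ¬ R ω k.1 k.2) := by
        unfold Pr
        congr 1
        funext ω
        by_cases hh : R ω k.1 k.2 <;> simp [hh]
      rw [h5]
      linarith
    have h6 : ∀ k ∈ S ×ˢ T, 0 ≤ Av (fun ω => if ¬ R ω k.1 k.2 then (1 : ℝ) else 0) := by
      intro k _
      exact Av_nonneg fun ω => by split_ifs <;> norm_num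
    refine (Finset.prod_le_prod h6 h2).trans ?_
    rw [Finset.prod_const, Finset.card_product]
  · intro k _ x y hxy
    have := hR k.1 k.2 hxy
    simp only at this ⊢
    rw [this]
  · intro k _ l _ hkl
    exact hC k.1 k.2 l.1 l.2 hkl

/-- Hall's theorem -/
private theorem hall {h : ℕ} (r : Fin h → Fin h → Prop) (hr : ¬ ∃ π : Equiv.Perm (Fin h), ∀ u, r u (π u)) :
    ∃ s ∈ Finset.Icc 1 h, ∃ k ∈ (powersetCard s (univ : Finset (Fin h))) ×ˢ
      (powersetCard (h + 1 - s) (univ : Finset (Fin h))), ∀ u ∈ k.1, ∀ v ∈ k.2, ¬ r u v := by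
  have h1 : ¬ ∃ f : Fin h → Fin h, Function.Injective f ∧ ∀ x, r x (f x) := by
    rintro ⟨f, hf, hf2⟩
    exact hr ⟨Equiv.ofBijective f (Finite.injective_iff_bijective.1 hf), hf2⟩
  rw [← Fintype.all_card_le_filter_rel_iff_exists_injective] at h1
  push Not at h1
  obtain ⟨A, hA'⟩ := h1
  have hA : (univ.filter (fun b => ∃ a ∈ A, r a b)).card < A.card := by
    refine lt_of_eq_of_lt ?_ hA'
    congr
  have hA1 : A.card ≤ h := by
    have := Finset.card_le_univ A
    rwa [Fintype.card_fin] at this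
  have hA0 : 1 ≤ A.card := by omega
  have h2 : h + 1 - A.card ≤ ((univ.filter (fun b => ∃ a ∈ A, r a b))ᶜ).card := by
    rw [Finset.card_compl, Fintype.card_fin]
    omega
  obtain ⟨T, hT, hTc⟩ := Finset.exists_subset_card_eq h2
  refine ⟨A.card, Finset.mem_Icc.2 ⟨hA0, hA1⟩, (A, T), ?_, ?_⟩
  · rw [Finset.mem_product, Finset.mem_powersetCard, Finset.mem_powersetCard]
    exact ⟨⟨Finset.subset_univ _, rfl⟩, ⟨Finset.subset_univ _, hTc⟩⟩
  · intro u hu v hv huv
    have h3 := hT hv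
    rw [Finset.mem_compl, Finset.mem_filter] at h3
    exact h3 ⟨Finset.mem_univ _, u, hu, huv⟩

private theorem binom_bound {h s : ℕ} (h1 : 1 ≤ s) (h2 : s ≤ h) :
    h.choose s * h.choose (h + 1 - s) ≤ h ^ (2 * min s (h + 1 - s)) := by
  have hh : 1 ≤ h := le_trans h1 h2
  have e1 : h.choose s ≤ h ^ (min s (h + 1 - s)) := by
    rcases le_total s (h + 1 - s) with h3 | h3
    · rw [min_eq_left h3]
      exact Nat.choose_le_pow h s
    · rw [min_eq_right h3, ← Nat.choose_symm h2]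
      exact (Nat.choose_le_pow h (h - s)).trans (Nat.pow_le_pow_right hh (by omega))
  have e2 : h.choose (h + 1 - s) ≤ h ^ (min s (h + 1 - s)) := by
    rcases le_total s (h + 1 - s) with h3 | h3
    · rw [min_eq_left h3, ← Nat.choose_symm (show h + 1 - s ≤ h by omega)]
      exact (Nat.choose_le_pow h (h - (h + 1 - s))).trans (Nat.pow_le_pow_right hh (by omega))
    · rw [min_eq_right h3]
      exact Nat.choose_le_pow h _
  rw [two_mul, pow_add]
  exact Nat.mul_le_mul e1 e2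

private theorem exp_bound {h s : ℕ} (h1 : 1 ≤ s) (h2 : s ≤ h) :
    ((h + 1) / 2) * min s (h + 1 - s) ≤ s * (h + 1 - s) := by
  rcases le_total s (h + 1 - s) with h3 | h3
  · rw [min_eq_left h3, mul_comm]
    exact Nat.mul_le_mul_left s (by omega)
  · rw [min_eq_right h3]
    exact Nat.mul_le_mul_right _ (by omega)

theorem pr_no_matching [Nonempty α] {h : ℕ} (R : (ι → α) → Fin h → Fin h → Prop) (C : Fin h → Fin h → Set ι)
    (hR : ∀ u v, DependsOn (fun ω => R ω u v) (C u v))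
    (hC : ∀ u v u' v', (u, v) ≠ (u', v') → Disjoint (C u v) (C u' v')) (ρ : ℝ) (hρ0 : 0 ≤ ρ) (hρ1 : ρ ≤ 1)
    (hρ : ∀ u v, ρ ≤ Pr (fun ω => R ω u v)) :
    Pr (fun ω => ¬ ∃ π : Equiv.Perm (Fin h), ∀ u, R ω u (π u)) ≤ (h : ℝ) ^ 3 * (1 - ρ) ^ ((h + 1) / 2) := by
  have hp0 : 0 ≤ 1 - ρ := by linarith
  have hp1 : 1 - ρ ≤ 1 := by linarith
  set p : ℝ := 1 - ρ with hp
  rcases Nat.eq_zero_or_pos h with rfl | hpos
  · have h1 : (fun ω => ¬ ∃ π : Equiv.Perm (Fin 0), ∀ u, R ω u (π u)) = fun _ => False := by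
      funext ω
      apply propext
      constructor
      · intro hn
        exact hn ⟨1, fun u => u.elim0⟩
      · intro hf
        exact hf.elim
    rw [h1]
    have h2 : Pr (fun _ : ι → α => False) = 0 := by
      unfold Pr Av
      simp
    rw [h2]
    simp
  have hh : (1 : ℝ) ≤ h := by exact_mod_cast hpos
  have hβ0 : 0 ≤ (h : ℝ) ^ 2 * p ^ ((h + 1) / 2) := by positivity
  have hsplit : (h : ℝ) ^ 3 * p ^ ((h + 1) / 2) = h * ((h : ℝ) ^ 2 * p ^ ((h + 1) / 2)) := by ring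
  rw [hsplit]
  rcases le_or_gt ((h : ℝ) ^ 2 * p ^ ((h + 1) / 2)) 1 with hβ | hβ
  swap
  · refine (Pr_le_one _).trans ?_
    nlinarith
  have h1 : Pr (fun ω => ¬ ∃ π : Equiv.Perm (Fin h), ∀ u, R ω u (π u)) ≤
      Pr (fun ω => ∃ s ∈ Finset.Icc 1 h, ∃ k ∈ (powersetCard s (univ : Finset (Fin h))) ×ˢ
        (powersetCard (h + 1 - s) (univ : Finset (Fin h))), ∀ u ∈ k.1, ∀ v ∈ k.2, ¬ R ω u v) :=
    Pr_mono fun ω hω => hall (R ω) hω
  refine h1.trans ?_
  refine (Pr_exists_le_card (Finset.Icc 1 h) _ ((h : ℝ) ^ 2 * p ^ ((h + 1) / 2)) ?_).trans ?_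
  swap
  · rw [Nat.card_Icc]
    simp
  intro s hs
  rw [Finset.mem_Icc] at hs
  obtain ⟨hs1, hs2⟩ := hs
  refine (Pr_exists_le_card _ _ (p ^ (s * (h + 1 - s))) ?_).trans ?_
  · intro k hk
    rw [Finset.mem_product, Finset.mem_powersetCard, Finset.mem_powersetCard] at hk
    have := pr_rect R C hR hC ρ hρ1 hρ k.1 k.2
    rw [hk.1.2, hk.2.2] at this
    exact this
  · rw [Finset.card_product, Finset.card_powersetCard, Finset.card_powersetCard, Finset.card_univ,
      Fintype.card_fin]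
    set m := min s (h + 1 - s) with hm
    have hm1 : 1 ≤ m := by
      rw [hm]
      exact le_min hs1 (by omega)
    have e1 : ((h.choose s * h.choose (h + 1 - s) : ℕ) : ℝ) ≤ (h : ℝ) ^ (2 * m) := by
      exact_mod_cast binom_bound hs1 hs2
    have e2 : p ^ (s * (h + 1 - s)) ≤ p ^ (((h + 1) / 2) * m) :=
      pow_le_pow_of_le_one hp0 hp1 (exp_bound hs1 hs2)
    calc ((h.choose s * h.choose (h + 1 - s) : ℕ) : ℝ) * p ^ (s * (h + 1 - s))
        ≤ (h : ℝ) ^ (2 * m) * p ^ (((h + 1) / 2) * m) :=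
          mul_le_mul e1 e2 (pow_nonneg hp0 _) (by positivity)
      _ = ((h : ℝ) ^ 2 * p ^ ((h + 1) / 2)) ^ m := by
          rw [mul_pow, ← pow_mul, ← pow_mul]
      _ ≤ ((h : ℝ) ^ 2 * p ^ ((h + 1) / 2)) ^ 1 := pow_le_pow_of_le_one hβ0 hβ hm1
      _ = (h : ℝ) ^ 2 * p ^ ((h + 1) / 2) := pow_one _

end Pool.Agent.Helper85.SAA
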