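import Pool.Agent.Helper85.SAA.Defs

/-!
# Block SAA-PROD: independence

`av_mul`: double the space. Let `s` be the coordinates of `f`, `t` the coordinates of `g`. For `ω, ω'` let `m ω ω'` be `ω'` on `t` and
`ω` outside `t`. `Av f * Av g * N^2 = ∑_{ω, ω'} f ω * g ω'` (`N` = number of points). The map `(ω, ω') ↦ (m ω ω', m ω' ω)` is an
involution of the pairs; `f ω = f (m ω ω')` (they agree outside `t`, hence on `s`), `g ω' = g (m ω ω')` (they agree on `t`). So the sum
is `∑_{ω, ω'} (f * g) (m ω ω') = ∑_{ω, ω'} (f * g) ω = N * ∑_ω f ω g ω` (`Finset.sum_nbij'` or `Equiv.sum_comp` for the involution).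
`av_prod`: induction on `K` (`Finset.induction_on`), the product over `K` depends only on the union of the `s k`.
-/

set_option autoImplicit false
set_option linter.unusedSectionVars false

namespace Pool.Agent.Helper85.SAA

open Finset
open scoped Classical

variable {ι α : Type} [Fintype ι] [DecidableEq ι] [Fintype α]

theorem av_mul {f g : (ι → α) → ℝ} {s t : Set ι} (hf : DependsOn f s) (hg : DependsOn g t) (hst : Disjoint s t) :
    Av (fun ω => f ω * g ω) = Av f * Av g := by
  let m : (ι → α) → (ι → α) → ι → α := fun ω ω' i => if i ∈ t then ω' i else ω i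
  have hm : ∀ ω ω', m (m ω ω') (m ω' ω) = ω := by
    intro ω ω'
    funext i
    by_cases hi : i ∈ t <;> simp [m, hi]
  let e : (ι → α) × (ι → α) ≃ (ι → α) × (ι → α) :=
    { toFun := fun p => (m p.1 p.2, m p.2 p.1)
      invFun := fun p => (m p.1 p.2, m p.2 p.1)
      left_inv := fun p => Prod.ext (hm p.1 p.2) (hm p.2 p.1)
      right_inv := fun p => Prod.ext (hm p.1 p.2) (hm p.2 p.1) }
  have h1 : ∀ p : (ι → α) × (ι → α), f p.1 * g p.2 = f (e p).1 * g (e p).1 := by
    intro p
    have h2 : f p.1 = f (m p.1 p.2) := hf fun i hi => by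
      have : i ∉ t := Set.disjoint_left.1 hst hi
      simp [m, this]
    have h3 : g p.2 = g (m p.1 p.2) := hg fun i hi => by simp [m, hi]
    show f p.1 * g p.2 = f (m p.1 p.2) * g (m p.1 p.2)
    rw [← h2, ← h3]
  have h4 : (∑ ω, f ω) * ∑ ω, g ω =
      (Fintype.card (ι → α) : ℝ) * ∑ ω, f ω * g ω := by
    rw [Finset.sum_mul_sum, ← Fintype.sum_prod_type' (fun a b => f a * g b),
      Finset.sum_congr rfl (fun p _ => h1 p), Equiv.sum_comp e (fun p => f p.1 * g p.1),
      Fintype.sum_prod_type, Finset.mul_sum]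
    refine Finset.sum_congr rfl fun ω _ => ?_
    show ∑ _y : ι → α, f ω * g ω = _
    rw [Finset.sum_const, nsmul_eq_mul, Finset.card_univ]
  unfold Av
  by_cases hN : (Fintype.card (ι → α) : ℝ) = 0
  · rw [hN, div_zero, div_zero, zero_mul]
  · rw [div_mul_div_comm, h4]
    field_simp

theorem av_prod [Nonempty α] {κ : Type} (K : Finset κ) (f : κ → (ι → α) → ℝ) (s : κ → Set ι)
    (hf : ∀ k ∈ K, DependsOn (f k) (s k)) (hs : ∀ k ∈ K, ∀ l ∈ K, k ≠ l → Disjoint (s k) (s l)) :
    Av (fun ω => ∏ k ∈ K, f k ω) = ∏ k ∈ K, Av (f k) := by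
  induction K using Finset.induction_on with
  | empty =>
    have h1 : (Fintype.card (ι → α) : ℝ) ≠ 0 := by
      have : 0 < Fintype.card (ι → α) := Fintype.card_pos
      exact_mod_cast this.ne'
    simp only [Finset.prod_empty]
    unfold Av
    rw [Finset.sum_const, nsmul_eq_mul, Finset.card_univ, mul_one, div_self h1]
  | insert k K hk ih =>
    simp only [Finset.prod_insert hk]
    rw [← ih (fun l hl => hf l (Finset.mem_insert_of_mem hl))
      (fun l hl l' hl' => hs l (Finset.mem_insert_of_mem hl) l' (Finset.mem_insert_of_mem hl'))]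
    refine av_mul (s := s k) (t := ⋃ l ∈ K, s l) (hf k (Finset.mem_insert_self _ _)) ?_ ?_
    · intro ω ω' h
      refine Finset.prod_congr rfl fun l hl => ?_
      exact hf l (Finset.mem_insert_of_mem hl) fun i hi =>
        h i (Set.mem_biUnion (show l ∈ (K : Set κ) from hl) hi)
    · rw [Set.disjoint_iUnion_right]
      intro l
      rw [Set.disjoint_iUnion_right]
      intro hl
      exact hs k (Finset.mem_insert_self _ _) l (Finset.mem_insert_of_mem hl)
        fun h => hk (h ▸ hl)

end Pool.Agent.Helper85.SAA
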