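import Pool.Agent.Helper85.SAA.Defs

/-!
# Block SAA-STAR: induced star forests give a strongly woody colouring

`L x y` means: in its colour class, `y` is a leaf with centre `x`. By (h2) a leaf has degree one in its class.
Use `Helper83.SA.stronglyWoody_of_flat`. Fix a colour `i`, `K = cls G c i`. Every edge of `K` has an endpoint of degree one in `K` (h1, h2).
(1) `K` is acyclic: on a cycle every vertex has two different neighbours.
(2) let `x, y` be adjacent in `G` and joined by a path `P` of `K`. If the length of `P` is at least three, the second and third vertices of `P` are adjacent in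
`K` and both have two different neighbours in `K`: contradiction. If it is two, `P = x v y`, `v` has two neighbours in `K`, so `v` is not a leaf:
`¬ L x v`, `¬ L y v`, so `L v x`, `L v y` and (h3) says that `x, y` are not adjacent. So the length is one and `K.Adj x y`.
-/

set_option autoImplicit false
set_option linter.unusedSectionVars false

namespace Pool.Agent.Helper85.SAA

open Finset
open scoped Classical

open Pool.Agent.Helper83.SA

theorem stronglyWoody_of_star {W : Type} (G : SimpleGraph W) (c : Sym2 W → ℕ) (L : W → W → Prop)
    (h1 : ∀ x y, G.Adj x y → L x y ∨ L y x)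
    (h2 : ∀ x y z, L x y → G.Adj x y → G.Adj y z → c s(y, z) = c s(x, y) → z = x)
    (h3 : ∀ x y z, L x y → L x z → G.Adj x y → G.Adj x z → c s(x, y) = c s(x, z) → ¬ G.Adj y z) :
    StronglyWoody G c := by
  -- an edge of a colour class has an end of degree one
  have key : ∀ (i : ℕ) (x y a b : W), (cls G c i).Adj x y → (cls G c i).Adj x a → a ≠ y →
      (cls G c i).Adj y b → b ≠ x → False := by
    intro i x y a b hxy hxa hay hyb hbx
    rcases h1 x y hxy.1 with h | h
    · exact hbx (h2 x y b h hxy.1 hyb.1 (hyb.2.trans hxy.2.symm))
    · exact hay (h2 y x a h hxy.1.symm hxa.1 (hxa.2.trans hxy.symm.2.symm))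
  refine stronglyWoody_of_flat G c (fun i v w hw => ?_) (fun i x y hxy hr => ?_)
  · have h3 := hw.three_le_length
    have e1 := w.adj_getVert_succ (i := 0) (by omega)
    have e2 := w.adj_getVert_succ (i := 1) (by omega)
    have e3 := w.adj_getVert_succ (i := w.length - 1) (by omega)
    have e4 : w.length - 1 + 1 = w.length := by omega
    have e5 : w.getVert w.length = w.getVert 0 := by
      rw [SimpleGraph.Walk.getVert_length, SimpleGraph.Walk.getVert_zero]
    rw [e4, e5] at e3
    have hinj := hw.getVert_injOn'
    refine key i _ _ _ _ e1 e3.symm ?_ e2 ?_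
    · intro h
      have := hinj (show w.length - 1 ∈ _ by simp) (show 0 + 1 ∈ _ by simp; omega) h
      omega
    · intro h
      have := hinj (show 1 + 1 ∈ _ by simp; omega) (show 0 ∈ _ by simp) h
      omega
  · obtain ⟨p, hp⟩ := hr.exists_isPath
    match p, hp with
    | .nil, _ => exact absurd rfl hxy.ne
    | .cons h .nil, _ => exact h
    | .cons (v := v) h (.cons h' .nil), _ =>
      exfalso
      have hne : x ≠ y := hxy.ne
      have hvx : L v x := by
        rcases h1 x v h.1 with hL | hL
        · exact absurd (h2 x v y hL h.1 h'.1 (h'.2.trans h.2.symm)) hne.symm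
        · exact hL
      have hvy : L v y := by
        rcases h1 v y h'.1 with hL | hL
        · exact hL
        · exact absurd (h2 y v x hL h'.1.symm h.1.symm (h.symm.2.trans h'.symm.2.symm)) hne
      exact h3 v x y hvx hvy h.1.symm h'.1 (h.symm.2.trans h'.2.symm) hxy
    | .cons h (.cons h' (.cons h'' q)), hp =>
      exfalso
      rw [SimpleGraph.Walk.cons_isPath_iff, SimpleGraph.Walk.cons_isPath_iff,
        SimpleGraph.Walk.cons_isPath_iff] at hp
      refine key i _ _ _ _ h' h.symm ?_ h'' ?_
      · intro hcon
        apply hp.2
        simp [hcon]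
      · intro hcon
        apply hp.1.2
        simp [← hcon]

end Pool.Agent.Helper85.SAA
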