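import Pool.Agent.Helper85.SAA.Comp

/-!
# Block SAA-USE: the probability that a centre uses a group of a block

`use_dependsOn`: `ww e ω (rel π a) (rel π (p.1, x, p.2.1))` depends only on the coordinates in `crd`.
`crd_disjoint_block`: a common element of the two sets would be a pair containing `rel π a` and a vertex `rel π (j, x, u) = rel π (j', x', u')` (the vertices `rel π (j, x, u)` are in the part
`j ≠ a.1`, so they are not `rel π a`); `rel_injective`. `crd_disjoint_centre`: the same, `rel π a = rel π a'` or `rel π a` in the block: excluded by the parts.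
`use_prob`: `f x = ww e ω (rel π a) (rel π (p.1, x, p.2.1))`. Let `c x` be the pair `(rel π a, rel π (p.1, x, p.2.1))` if `e (rel π a) < e (rel π (p.1, x, p.2.1))` and the reversed pair otherwise; `c` is
injective (`x` is determined by the vertex in the part `p.1 ≠ a.1`). `f = Θ (fun x => ω (c x))` where `Θ` applies `flip` at the `x` of the second kind (`flip` is an involution, so `Θ` is
bijective). `pr_comp` for `α = Al t q`, `κ = X t q` and the definition of `Rule`.
-/

set_option autoImplicit false
set_option linter.unusedSectionVars false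

namespace Pool.Agent.Helper85.SAA

open Finset
open scoped Classical

variable {t q h : ℕ}

private theorem ww_congr61 (e : V t q h → ℕ) {ω ω' : V t q h × V t q h → Al t q} {x y : V t q h}
    (h1 : ω (x, y) = ω' (x, y)) (h2 : ω (y, x) = ω' (y, x)) : ww e ω x y = ww e ω' x y := by
  unfold ww
  rw [h1, h2]

theorem use_dependsOn (σ : (X t q → Al t q) → Equiv.Perm (X t q)) (e : V t q h → ℕ)
    (π : Fin (t + 2) → X t q → Equiv.Perm (Fin h)) (k : Equiv.Perm (X t q)) (a : V t q h)
    (p : Fin (t + 2) × Fin h × Fin (q + 1)) :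
    DependsOn (fun ω : V t q h × V t q h → Al t q => Use σ (fun y z => ww e ω (rel π y) (rel π z)) k a p)
      (crd π a p.1 p.2.1) := by
  intro ω ω' hω
  have key : ∀ x : X t q, ww e ω (rel π a) (rel π (p.1, x, p.2.1)) =
      ww e ω' (rel π a) (rel π (p.1, x, p.2.1)) := fun x =>
    ww_congr61 e (hω _ ⟨x, Or.inl rfl⟩) (hω _ ⟨x, Or.inr rfl⟩)
  have h1 : (fun x : X t q => ww e ω (rel π a) (rel π (p.1, x, p.2.1))) =
      fun x => ww e ω' (rel π a) (rel π (p.1, x, p.2.1)) := funext key
  simp only [Use, key]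

theorem crd_disjoint_block (π : Fin (t + 2) → X t q → Equiv.Perm (Fin h)) (a : V t q h) {j j' : Fin (t + 2)}
    {u u' : Fin h} (hj : j ≠ a.1) (hj' : j' ≠ a.1) (hne : (j, u) ≠ (j', u')) :
    Disjoint (crd π a j u) (crd π a j' u') := by
  rw [Set.disjoint_left]
  rintro c ⟨x, hx⟩ ⟨x', hx'⟩
  have h3 : rel π (j, x, u) = rel π (j', x', u') → False := by
    intro h4
    have h5 := rel_injective π h4
    simp only [Prod.mk.injEq] at h5
    exact hne (Prod.ext h5.1 h5.2.2)
  have h6 : ∀ (i : Fin (t + 2)) (y : X t q) (v : Fin h), i ≠ a.1 → rel π a = rel π (i, y, v) → False := by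
    intro i y v hi h4
    have h5 := rel_injective π h4
    exact hi (by rw [h5])
  rcases hx with rfl | rfl
  · rcases hx' with h | h
    · exact h3 (Prod.mk.inj h).2
    · exact h6 _ _ _ hj' (Prod.mk.inj h).1
  · rcases hx' with h | h
    · exact h6 _ _ _ hj (Prod.mk.inj h).1.symm
    · exact h3 (Prod.mk.inj h).1

theorem crd_disjoint_centre (π : Fin (t + 2) → X t q → Equiv.Perm (Fin h)) {a a' : V t q h} {j : Fin (t + 2)}
    {u : Fin h} (hj : j ≠ a.1) (hj' : j ≠ a'.1) (hne : a ≠ a') :
    Disjoint (crd π a j u) (crd π a' j u) := by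
  rw [Set.disjoint_left]
  rintro c ⟨x, hx⟩ ⟨x', hx'⟩
  have h3 : rel π a = rel π a' → False := fun h4 => hne (rel_injective π h4)
  have h6 : ∀ (b : V t q h) (y : X t q), j ≠ b.1 → rel π b = rel π (j, y, u) → False := by
    intro b y hi h4
    have h5 := rel_injective π h4
    exact hi (by rw [h5])
  rcases hx with rfl | rfl
  · rcases hx' with h | h
    · exact h3 (Prod.mk.inj h).1
    · exact h6 _ _ hj (Prod.mk.inj h).1
  · rcases hx' with h | h
    · exact h6 _ _ hj (Prod.mk.inj h).2
    · exact h3 (Prod.mk.inj h).2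

theorem crd_cross (π : Fin (t + 2) → X t q → Equiv.Perm (Fin h)) (a : V t q h) {j : Fin (t + 2)} (u : Fin h)
    (hj : j ≠ a.1) : crd π a j u ⊆ {c | c.1.1 ≠ c.2.1} := by
  rintro c ⟨x, rfl | rfl⟩
  · exact fun h => hj h.symm
  · exact fun h => hj h

private theorem flip_flip61 {β : Type} (w : Bool × Bool × β) : flip (flip w) = w := by
  simp [flip]

theorem use_prob {σ : (X t q → Al t q) → Equiv.Perm (X t q)} (hσ : Rule σ) (e : V t q h → ℕ)
    (π : Fin (t + 2) → X t q → Equiv.Perm (Fin h)) (k : Equiv.Perm (X t q)) (a : V t q h)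
    (p : Fin (t + 2) × Fin h × Fin (q + 1)) (hp : p.1 ≠ a.1) :
    Pr (fun ω : V t q h × V t q h → Al t q => Use σ (fun y z => ww e ω (rel π y) (rel π z)) k a p) ≤
      (1 / 4 + 1 / ((q : ℝ) + 1)) / (Fintype.card (Equiv.Perm (X t q)) : ℝ) := by
  set c : X t q → V t q h × V t q h := fun x =>
    if e (rel π a) < e (rel π (p.1, x, p.2.1)) then (rel π a, rel π (p.1, x, p.2.1))
    else (rel π (p.1, x, p.2.1), rel π a) with hc
  have h6 : ∀ x : X t q, rel π a = rel π (p.1, x, p.2.1) → False := by
    intro x h4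
    have h5 := rel_injective π h4
    exact hp (by rw [h5])
  have h7 : ∀ x y : X t q, rel π (p.1, x, p.2.1) = rel π (p.1, y, p.2.1) → x = y := by
    intro x y h4
    have h5 := rel_injective π h4
    simp only [Prod.mk.injEq] at h5
    exact h5.2.1
  have hcinj : Function.Injective c := by
    intro x y hxy
    simp only [hc] at hxy
    split_ifs at hxy
    · exact h7 _ _ (Prod.mk.inj hxy).2
    · exact (h6 _ (Prod.mk.inj hxy).1).elim
    · exact (h6 _ (Prod.mk.inj hxy).1.symm).elim
    · exact h7 _ _ (Prod.mk.inj hxy).1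
  set Θ : (X t q → Al t q) → (X t q → Al t q) := fun f x =>
    if e (rel π a) < e (rel π (p.1, x, p.2.1)) then f x else flip (f x) with hΘ
  have hΘΘ : Function.Involutive Θ := by
    intro f
    funext x
    simp only [hΘ]
    split_ifs
    · rfl
    · exact flip_flip61 _
  have h8 : ∀ ω : V t q h × V t q h → Al t q,
      (fun x : X t q => ww e ω (rel π a) (rel π (p.1, x, p.2.1))) = Θ (fun x => ω (c x)) := by
    intro ω
    funext x
    simp only [hΘ, hc, ww]
    split_ifs <;> rfl
  set P : (X t q → Al t q) → Prop := fun f =>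
    σ f = k ∧ ∃ x, (f x).1 = true ∧ (f x).2.1 = true ∧ (k x).1 = p.2.2 with hP
  have h9 : (fun ω : V t q h × V t q h → Al t q => Use σ (fun y z => ww e ω (rel π y) (rel π z)) k a p) =
      fun ω => P (Θ (fun x => ω (c x))) := by
    funext ω
    rw [← h8 ω]
    rfl
  rw [h9, pr_comp c hcinj Θ hΘΘ.bijective P]
  have h10 := hσ k p.2.2
  have h11 : (0 : ℝ) < (Fintype.card (Equiv.Perm (X t q)) : ℝ) := by
    exact_mod_cast Fintype.card_pos
  have h12 : (0 : ℝ) < (Fintype.card (X t q → Al t q) : ℝ) := by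
    exact_mod_cast Fintype.card_pos
  rw [div_le_div_iff₀ h12 h11]
  have h13 : ∀ (i1 i2 : DecidablePred P), (@Finset.filter _ P i1 univ) = (@Finset.filter _ P i2 univ) := by
    intro i1 i2
    congr
  rw [h13 _ (fun a => instDecidableAnd)]
  exact h10

end Pool.Agent.Helper85.SAA
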